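import Pool.Agent.Lib.MP_320227_al.Brown

set_option autoImplicit false
set_option linter.unusedSectionVars false

open CategoryTheory CategoryTheory.Limits CategoryTheory.Pretriangulated
open CategoryTheory.Preadditive ZeroObject

universe v u

namespace Pool.Agent.Lib.MP_320227_al

variable {T : Type u} [Category.{v} T] [Preadditive T] [HasZeroObject T] [HasShift T ℤ]
  [∀ n : ℤ, (shiftFunctor T n).Additive] [Pretriangulated T] [HasCoproducts.{v} T]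

lemma Dist.congr_iso {a b c a' b' c' : T} {f : a ⟶ b} {g : b ⟶ c} {h : c ⟶ a⟦(1 : ℤ)⟧}
    {f' : a' ⟶ b'} {g' : b' ⟶ c'} {h' : c' ⟶ a'⟦(1 : ℤ)⟧} (H : Dist f g h)
    (e1 : a' ≅ a) (e2 : b' ≅ b) (e3 : c' ≅ c) (c1 : f' ≫ e2.hom = e1.hom ≫ f)
    (c2 : g' ≫ e3.hom = e2.hom ≫ g) (c3 : h' ≫ e1.hom⟦(1 : ℤ)⟧' = e3.hom ≫ h) :
    Dist f' g' h' :=
  isomorphic_distinguished _ H _ (Triangle.isoMk _ _ e1 e2 e3 c1 c2 c3)

lemma Dist.iso2 {a b b' c : T} {f : a ⟶ b} {g : b ⟶ c} {h : c ⟶ a⟦(1 : ℤ)⟧} (H : Dist f g h)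
    (e : b ≅ b') : Dist (f ≫ e.hom) (e.inv ≫ g) h :=
  H.congr_iso (Iso.refl a) e.symm (Iso.refl c) (by simp) (by simp) (by simp)

lemma Dist.tr3 {a b c a' b' c' : T} {f : a ⟶ b} {g : b ⟶ c} {h : c ⟶ a⟦(1 : ℤ)⟧}
    {f' : a' ⟶ b'} {g' : b' ⟶ c'} {h' : c' ⟶ a'⟦(1 : ℤ)⟧} (H : Dist f g h) (H' : Dist f' g' h')
    (p : a ⟶ a') (q : b ⟶ b') (comm : f ≫ q = p ≫ f') :
    ∃ r : c ⟶ c', g ≫ r = q ≫ g' ∧ h ≫ p⟦(1 : ℤ)⟧' = r ≫ h' :=
  complete_distinguished_triangle_morphism _ _ H H' p q comm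

lemma Dist.tr2 {a b c a' b' c' : T} {f : a ⟶ b} {g : b ⟶ c} {h : c ⟶ a⟦(1 : ℤ)⟧}
    {f' : a' ⟶ b'} {g' : b' ⟶ c'} {h' : c' ⟶ a'⟦(1 : ℤ)⟧} (H : Dist f g h) (H' : Dist f' g' h')
    (p : a ⟶ a') (r : c ⟶ c') (comm : h ≫ p⟦(1 : ℤ)⟧' = r ≫ h') :
    ∃ q : b ⟶ b', f ≫ q = p ≫ f' ∧ g ≫ r = q ≫ g' :=
  complete_distinguished_triangle_morphism₂ _ _ H H' p r comm

lemma Dist.oct [IsTriangulated T] {a b c x y z : T} {f : a ⟶ b} {g : b ⟶ c}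
    {p : b ⟶ x} {p' : x ⟶ a⟦(1 : ℤ)⟧} (H1 : Dist f p p')
    {q : c ⟶ y} {q' : y ⟶ b⟦(1 : ℤ)⟧} (H2 : Dist g q q')
    {r : c ⟶ z} {r' : z ⟶ a⟦(1 : ℤ)⟧} (H3 : Dist (f ≫ g) r r') :
    ∃ (m : x ⟶ z) (n : z ⟶ y) (l : y ⟶ x⟦(1 : ℤ)⟧), Dist m n l :=
  ⟨_, _, _, (Triangulated.someOctahedron rfl H1 H2 H3).mem⟩

lemma Dist.iso3 {a b c a' b' c' : T} {f : a ⟶ b} {g : b ⟶ c} {h : c ⟶ a⟦(1 : ℤ)⟧}
    {f' : a' ⟶ b'} {g' : b' ⟶ c'} {h' : c' ⟶ a'⟦(1 : ℤ)⟧} (H : Dist f g h) (H' : Dist f' g' h')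
    (p : a ≅ a') (q : b ≅ b') (comm : f ≫ q.hom = p.hom ≫ f') : Nonempty (c ≅ c') :=
  ⟨Triangle.π₃.mapIso (isoTriangleOfIso₁₂ _ _ H H' p q comm)⟩

/-- A functor sending the first two maps of a distinguished triangle to the first two maps of a
distinguished triangle. -/
def WeakExact (Φ : T ⥤ T) : Prop :=
  ∀ {a b c : T} {f : a ⟶ b} {g : b ⟶ c} {h : c ⟶ a⟦(1 : ℤ)⟧}, Dist f g h →
    ∃ h', Dist (Φ.map f) (Φ.map g) h'

section Q

variable (K : Set T) (Φ : T ⥤ T) (y : T)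

/-- The element `e` comes from an object of `K`. -/
def Fac {F : T} (e : y ⟶ Φ.obj F) : Prop :=
  ∃ x ∈ K, ∃ (r : x ⟶ F) (e' : y ⟶ Φ.obj x), e = e' ≫ Φ.map r

/-- All elements come from objects of `K`. -/
def Q1 (F : T) : Prop := ∀ e : y ⟶ Φ.obj F, Fac K Φ y e

/-- All cones of maps out of objects of `K` satisfy `Q1`. -/
def PP (F : T) : Prop :=
  ∀ x ∈ K, ∀ (f : x ⟶ F) (D : T) (g : F ⟶ D) (h : D ⟶ x⟦(1 : ℤ)⟧), Dist f g h → Q1 K Φ y D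

variable {K Φ y} [Φ.Additive]

lemma Fac.add (hK : IsTriangSub K) {F : T} {e1 e2 : y ⟶ Φ.obj F} (h1 : Fac K Φ y e1)
    (h2 : Fac K Φ y e2) : Fac K Φ y (e1 + e2) := by
  obtain ⟨x1, hx1, r1, e1, rfl⟩ := h1
  obtain ⟨x2, hx2, r2, e2, rfl⟩ := h2
  refine ⟨x1 ⊞ x2, hK.biprod hx1 hx2, biprod.desc r1 r2,
    e1 ≫ Φ.map biprod.inl + e2 ≫ Φ.map biprod.inr, ?_⟩
  simp [← Φ.map_comp]

lemma Fac.comp {F G : T} {e : y ⟶ Φ.obj F} (h : Fac K Φ y e) (q : F ⟶ G) :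
    Fac K Φ y (e ≫ Φ.map q) := by
  obtain ⟨x, hx, r, e, rfl⟩ := h
  exact ⟨x, hx, r ≫ q, e, by simp⟩

lemma Fac.zero (hK : IsTriangSub K) (F : T) : Fac K Φ y (0 : y ⟶ Φ.obj F) :=
  ⟨0, hK.zero, 0, 0, by simp⟩

lemma Q1.of_mem {F : T} (h : F ∈ K) : Q1 K Φ y F := fun e => ⟨F, h, 𝟙 _, e, by simp⟩

lemma PP.of_mem (hK : IsTriangSub K) {F : T} (h : F ∈ K) : PP K Φ y F :=
  fun _ hx _ _ _ _ H => Q1.of_mem (hK.third H hx h)

lemma PP.q1 (hK : IsTriangSub K) {F : T} (h : PP K Φ y F) : Q1 K Φ y F :=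
  h 0 hK.zero 0 F (𝟙 F) 0 (contractible_distinguished₁ F)

lemma PP.iso {F G : T} (e : F ≅ G) (h : PP K Φ y F) : PP K Φ y G :=
  fun x hx _ D _ _ H => h x hx _ D _ _ (H.iso2 e.symm)

lemma Q1.ext (hK : IsTriangSub K) (hΦ : WeakExact Φ) {a b c : T} {f : a ⟶ b} {g : b ⟶ c}
    {h : c ⟶ a⟦(1 : ℤ)⟧} (H : Dist f g h) (ha : PP K Φ y a) (hc : Q1 K Φ y c) :
    Q1 K Φ y b := by
  intro e
  obtain ⟨x, hx, p, e', he'⟩ := hc (e ≫ Φ.map g)
  obtain ⟨G, s, t, HG⟩ := exists_mid (p ≫ h)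
  obtain ⟨q, hq1, hq2⟩ := HG.tr2 H (𝟙 a) p (by simp)
  obtain ⟨_, HG'⟩ := hΦ HG.rot
  obtain ⟨eG, heG⟩ := HG'.lift2 e' (by
    rw [Φ.map_comp, ← Category.assoc, ← he', Category.assoc, ← Φ.map_comp, H.z23]; simp)
  obtain ⟨_, H'⟩ := hΦ H
  obtain ⟨e1, he1⟩ := H'.lift2 (e - eG ≫ Φ.map q) (by
    rw [sub_comp, Category.assoc, ← Φ.map_comp, ← hq2, Φ.map_comp, ← Category.assoc, ← heG,
      he', sub_self])
  obtain ⟨k, l, HI⟩ := HG.invRot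
  have hG : Q1 K Φ y G := ha _ (hK.unshift _ hx) k G s l HI
  have : e = (eG + e1 ≫ Φ.map s) ≫ Φ.map q := by
    rw [add_comp, Category.assoc, ← Φ.map_comp, hq1, Category.id_comp, ← he1]; simp
  rw [this]
  exact (hG _).comp q

lemma PP.ext [IsTriangulated T] (hK : IsTriangSub K) (hΦ : WeakExact Φ) {a b c : T} {f : a ⟶ b}
    {g : b ⟶ c} {h : c ⟶ a⟦(1 : ℤ)⟧} (H : Dist f g h) (ha : PP K Φ y a) (hc : PP K Φ y c) :
    PP K Φ y b := by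
  intro x hx p D q r HD
  obtain ⟨D'', q'', r'', HD''⟩ := exists_cone (p ≫ g)
  obtain ⟨m, n, l, HO⟩ := HD.oct H.rot HD''
  obtain ⟨k, l', HI⟩ := HO.invRot
  exact Q1.ext hK hΦ HI (ha.iso (snIso a).symm) (hc x hx _ _ _ _ HD'')

variable [∀ J : Type v, PreservesColimitsOfShape (Discrete J) Φ]

lemma Q1.coprod (hK : IsTriangSub K) (hy : IsCompactObj y) {J : Type v} (t : J → T)
    (ht : ∀ j, Q1 K Φ y (t j)) : Q1 K Φ y (∐ t) := by
  classical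
  intro e
  obtain ⟨s, a, ha⟩ := hy J (fun j => Φ.obj (t j)) (e ≫ inv (sigmaComparison Φ t))
  have h1 : e = ∑ j ∈ s, a j ≫ Φ.map (Sigma.ι t j) := by
    rw [← cancel_mono (inv (sigmaComparison Φ t)), ha, sum_comp]
    refine Finset.sum_congr rfl fun j _ => ?_
    rw [Category.assoc, map_ι_comp_inv_sigmaComparison]
  rw [h1]
  clear h1 ha
  induction s using Finset.induction_on with
  | empty => simpa using Fac.zero hK _
  | insert j s hj ih =>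
    rw [Finset.sum_insert hj]
    exact Fac.add hK ((ht j (a j)).comp _) ih

lemma PP.coprod [IsTriangulated T] (hK : IsTriangSub K) (hKc : ∀ x ∈ K, IsCompactObj x)
    (hΦ : WeakExact Φ) (hy : IsCompactObj y) {J : Type v} (t : J → T)
    (ht : ∀ j, PP K Φ y (t j)) : PP K Φ y (∐ t) := by
  classical
  intro x hx f D g h H
  obtain ⟨s, a, ha⟩ := hKc x hx J t f
  have key : ∃ (G : T) (m : G ⟶ ∐ t) (r : ∐ t ⟶ G) (f0 : x ⟶ G), PP K Φ y G ∧ m ≫ r = 𝟙 G ∧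
      f0 ≫ m = ∑ j ∈ s, a j ≫ Sigma.ι t j ∧
      ∀ j ∉ s, Sigma.ι t j ≫ r = 0 ∧ m ≫ prj t j = 0 := by
    clear ha
    induction s using Finset.induction_on with
    | empty =>
      exact ⟨0, 0, 0, 0, PP.of_mem hK hK.zero, (isZero_zero T).eq_of_src _ _, by simp, by simp⟩
    | insert j s hj ih =>
      obtain ⟨G, m, r, f0, hG, hmr, hf0, hs⟩ := ih
      refine ⟨G ⊞ t j, biprod.desc m (Sigma.ι t j), biprod.lift r (prj t j),
        biprod.lift f0 (a j), PP.ext hK hΦ (dist_biprod _ _) hG (ht j), ?_, ?_, ?_⟩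
      · ext <;> simp [hmr, (hs j hj).1, (hs j hj).2, ι_prj_self]
      · rw [Finset.sum_insert hj, biprod.lift_desc, hf0, add_comm]
      · intro i hi
        rw [Finset.mem_insert, not_or] at hi
        constructor
        · ext <;> simp [(hs i hi.2).1, ι_prj_ne t hi.1]
        · ext <;> simp [(hs i hi.2).2, ι_prj_ne t (Ne.symm hi.1)]
  obtain ⟨G, m, r, f0, hG, hmr, hf0, -⟩ := key
  rw [← ha] at hf0
  obtain ⟨D0, g0, h0, H0⟩ := exists_cone f0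
  obtain ⟨q, hq1, hq2⟩ := H0.tr3 H (𝟙 x) m (by simp [hf0])
  have hf0' : f0 = f ≫ r := by rw [← hf0, Category.assoc, hmr, Category.comp_id]
  obtain ⟨l, hl⟩ := H0.lift1 h (by
    rw [hf0', Functor.map_comp, ← Category.assoc, H.z31, zero_comp])
  obtain ⟨k, hk⟩ := H.lift3 (𝟙 D - l ≫ q) (by
    rw [sub_comp, Category.assoc, ← hq2, Category.id_comp]; simp [← hl])
  intro e
  have : e = (e ≫ Φ.map l) ≫ Φ.map q + (e ≫ Φ.map k) ≫ Φ.map g := by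
    rw [Category.assoc, Category.assoc, ← Φ.map_comp, ← Φ.map_comp, ← hk, ← comp_add,
      ← Φ.map_add]; simp
  rw [this]
  exact Fac.add hK ((hG x hx f0 D0 g0 h0 H0 _).comp _)
    ((Q1.coprod hK hy t (fun j => (ht j).q1 hK) _).comp _)

theorem q1_of_loc [IsTriangulated T] (hK : IsTriangSub K) (hKc : ∀ x ∈ K, IsCompactObj x)
    (hΦ : WeakExact Φ) (hy : IsCompactObj y) {F : T} (hF : F ∈ Loc K) : Q1 K Φ y F := by
  have hR : ExtClosed {F | PP K Φ y F} :=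
    { zero := fun a ha => PP.of_mem hK (hK.isZero ha)
      iso := fun e h => PP.iso e h
      ext := fun H h1 h2 => PP.ext hK hΦ H h1 h2
      coprod := fun J t ht => PP.coprod hK hKc hΦ hy t ht }
  exact PP.q1 hK (hR.loc_subset (fun x hx n => PP.of_mem hK (hK.shiftZ hx n)) hF)

end Q

section Small

/-- One step of the closure of a small family under shifts and cones. -/
noncomputable def famNext (p : Σ ι : Type v, ι → T) : Σ ι : Type v, ι → T :=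
  ⟨p.1 ⊕ PUnit.{v + 1} ⊕ p.1 ⊕ p.1 ⊕ (Σ (i : p.1) (j : p.1), (p.2 i ⟶ p.2 j)),
    Sum.elim p.2 (Sum.elim (fun _ => 0) (Sum.elim (fun i => (p.2 i)⟦(1 : ℤ)⟧)
      (Sum.elim (fun i => (p.2 i)⟦(-1 : ℤ)⟧) fun q => (exists_cone q.2.2).choose)))⟩

lemma exists_small_triang {ι : Type v} (G : ι → T) :
    ∃ (κ : Type v) (K : κ → T), (∀ i, ∃ k, K k = G i) ∧
      IsTriangSub {x | ∃ k, Nonempty (x ≅ K k)} ∧
      ∀ L : Set T, IsTriangSub L → (∀ i, G i ∈ L) → ∀ k, K k ∈ L := by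
  let sq : ℕ → Σ ι : Type v, ι → T := fun n => Nat.rec ⟨ι, G⟩ (fun _ p => famNext p) n
  let M : ℕ → T → Prop := fun n x => ∃ i : (sq n).1, Nonempty (x ≅ (sq n).2 i)
  have mono : ∀ n m, n ≤ m → ∀ x, M n x → M m x := by
    intro n m h x hx
    induction m, h using Nat.le_induction with
    | base => exact hx
    | succ m _ ih =>
      obtain ⟨i, e⟩ := ih
      exact ⟨Sum.inl i, e⟩
  refine ⟨Σ n : ℕ, (sq n).1, fun q => (sq q.1).2 q.2, fun i => ⟨⟨0, i⟩, rfl⟩, ?_, ?_⟩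
  · refine ⟨⟨⟨1, Sum.inr (Sum.inl PUnit.unit)⟩, ⟨Iso.refl _⟩⟩, ?_, ?_, ?_, ?_⟩
    · rintro a b ⟨e⟩ ⟨k, ⟨e'⟩⟩
      exact ⟨k, ⟨e.symm ≪≫ e'⟩⟩
    · rintro a ⟨⟨n, i⟩, ⟨e⟩⟩
      exact ⟨⟨n + 1, Sum.inr (Sum.inr (Sum.inl i))⟩, ⟨(shiftFunctor T (1 : ℤ)).mapIso e⟩⟩
    · rintro a ⟨⟨n, i⟩, ⟨e⟩⟩
      exact ⟨⟨n + 1, Sum.inr (Sum.inr (Sum.inr (Sum.inl i)))⟩,
        ⟨(shiftFunctor T (-1 : ℤ)).mapIso e⟩⟩
    · rintro D hD ⟨⟨n, i⟩, e1⟩ ⟨⟨m, j⟩, e2⟩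
      obtain ⟨i', ⟨e1'⟩⟩ := mono n (max n m) (le_max_left _ _) _ ⟨i, e1⟩
      obtain ⟨j', ⟨e2'⟩⟩ := mono m (max n m) (le_max_right _ _) _ ⟨j, e2⟩
      let φ := e1'.inv ≫ D.mor₁ ≫ e2'.hom
      obtain ⟨g, h, H⟩ := (exists_cone φ).choose_spec
      exact ⟨⟨max n m + 1, Sum.inr (Sum.inr (Sum.inr (Sum.inr ⟨i', j', φ⟩)))⟩,
        (dist_of_mem hD).iso3 H e1' e2' (by simp [φ])⟩
  · rintro L hL hG ⟨n, i⟩
    induction n with
    | zero => exact hG i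
    | succ n ih =>
      rcases i with i | _ | i | i | ⟨i, j, φ⟩
      · exact ih i
      · exact hL.zero
      · exact hL.shift _ (ih i)
      · exact hL.unshift _ (ih i)
      · obtain ⟨g, h, H⟩ := (exists_cone φ).choose_spec
        exact hL.third H (ih i) (ih j)

/-- A small family containing every compact object up to isomorphism, which generates. -/
structure IsCptFam {ι : Type v} (S : ι → T) : Prop where
  gen : IsGenFam S
  all : ∀ x : T, IsCompactObj x → ∃ i, Nonempty (x ≅ S i)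

lemma weakExact_id : WeakExact (𝟭 T) := fun H => ⟨_, H⟩

theorem exists_cptFam [IsTriangulated T] (hT : IsCompactlyGenerated T) :
    ∃ (ι : Type v) (S : ι → T), IsCptFam S := by
  obtain ⟨ι, G, hG, hdet⟩ := hT
  obtain ⟨κ, K, hK1, hK2, hK3⟩ := exists_small_triang (fun q : ι × ℤ => (G q.1)⟦q.2⟧)
  have hKc : ∀ k, IsCompactObj (K k) := hK3 _ compact_triangSub fun q => (hG q.1).shiftZ q.2
  have hKdet : ∀ t : T, (∀ (k : κ) (f : K k ⟶ t), f = 0) → IsZero t := by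
    intro t ht
    refine hdet t fun i n f => ?_
    obtain ⟨k, hk⟩ := hK1 (i, n)
    have := ht k (eqToHom hk ≫ f)
    simpa using this
  have hKgen : IsGenFam K :=
    { compact := hKc
      unshift := fun k => by
        obtain ⟨j, ⟨e⟩⟩ := hK2.unshift _ ⟨k, ⟨Iso.refl _⟩⟩
        exact ⟨j, ⟨e.symm⟩⟩
      detect := hKdet }
  have ret : ∀ x : T, IsCompactObj x → ∃ (k : κ) (i : x ⟶ K k) (r : K k ⟶ x), i ≫ r = 𝟙 x := by
    intro x hx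
    have hx' : x ∈ Loc {x | ∃ k, Nonempty (x ≅ K k)} :=
      hKgen.loc_eq (loc_isLocalizing _) (fun k => subset_loc _
        (show ∃ k', Nonempty (K k ≅ K k') from ⟨k, ⟨Iso.refl _⟩⟩)) x
    obtain ⟨x', ⟨k, ⟨e⟩⟩, r, i, h⟩ := q1_of_loc (Φ := 𝟭 T) hK2
      (fun _ ⟨k, ⟨e⟩⟩ => (hKc k).of_iso e.symm) weakExact_id hx hx' (𝟙 x)
    exact ⟨k, i ≫ e.hom, e.inv ≫ r, by simpa using h.symm⟩
  let ι' := Σ k : κ, {ε : K k ⟶ K k // ∃ (x : T) (i : x ⟶ K k) (r : K k ⟶ x),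
    i ≫ r = 𝟙 x ∧ r ≫ i = ε}
  let S : ι' → T := fun q => q.2.2.choose
  have hSc : ∀ q, IsCompactObj (S q) := fun q => by
    obtain ⟨i, r, h, -⟩ := q.2.2.choose_spec
    exact (hKc q.1).retract i r h
  have hall : ∀ x : T, IsCompactObj x → ∃ q, Nonempty (x ≅ S q) := by
    intro x hx
    obtain ⟨k, i, r, h⟩ := ret x hx
    let q : ι' := ⟨k, r ≫ i, x, i, r, h, rfl⟩
    obtain ⟨i', r', h', h''⟩ := q.2.2.choose_spec
    change r' ≫ i' = r ≫ i at h''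
    refine ⟨q, ⟨⟨i ≫ r', i' ≫ r, ?_, ?_⟩⟩⟩
    · rw [Category.assoc, ← Category.assoc r', h'', Category.assoc, h, Category.comp_id, h]
    · rw [Category.assoc, ← Category.assoc r, ← h'', Category.assoc, h', Category.comp_id, h']
  refine ⟨ι', S, ⟨hSc, fun q => ?_, fun t ht => hKdet t fun k f => ?_⟩, hall⟩
  · obtain ⟨j, ⟨e⟩⟩ := hall _ ((hSc q).shiftZ (-1))
    exact ⟨j, ⟨e.symm⟩⟩
  · obtain ⟨j, ⟨e⟩⟩ := hall _ (hKc k)
    have := ht j (e.inv ≫ f)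
    simpa using this

variable {ι : Type v} {S : ι → T}

lemma IsCptFam.loc_eq (hS : IsCptFam S) {P : Set T} (hP : IsLocalizing P)
    (h : ∀ x, IsCompactObj x → x ∈ P) (t : T) : t ∈ P :=
  hS.gen.loc_eq hP (fun i => h _ (hS.gen.compact i)) t

lemma IsCptFam.ext_eq (hS : IsCptFam S) {P : Set T} (hP : ExtClosed P)
    (h : ∀ x, IsCompactObj x → x ∈ P) (t : T) : t ∈ P :=
  hP.loc_subset (S := {x | IsCompactObj x}) (fun _ hx n => h _ (IsCompactObj.shiftZ hx n))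
    (hS.loc_eq (loc_isLocalizing _) (fun _ hx => subset_loc _ hx) t)

lemma IsCptFam.isZero (hS : IsCptFam S) {t : T}
    (h : ∀ x, IsCompactObj x → ∀ f : x ⟶ t, f = 0) : IsZero t :=
  hS.gen.detect t fun i f => h _ (hS.gen.compact i) f

theorem IsCptFam.fac [IsTriangulated T] (hS : IsCptFam S) (Φ : T ⥤ T) [Φ.Additive]
    [∀ J : Type v, PreservesColimitsOfShape (Discrete J) Φ] (hΦ : WeakExact Φ) {y : T}
    (hy : IsCompactObj y) {F : T} (e : y ⟶ Φ.obj F) :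
    ∃ x : T, IsCompactObj x ∧ ∃ (r : x ⟶ F) (e' : y ⟶ Φ.obj x), e = e' ≫ Φ.map r :=
  q1_of_loc compact_triangSub (fun _ h => h) hΦ hy
    (hS.loc_eq (loc_isLocalizing _) (fun _ hx => subset_loc _ hx) F) e

end Small

section Tower

variable {ι : Type v} {S : ι → T}

/-- A pure monomorphism. -/
def PureMono {a b : T} (j : a ⟶ b) : Prop :=
  ∀ x : T, IsCompactObj x → ∀ p : x ⟶ a, p ≫ j = 0 → p = 0

theorem IsCptFam.tower (hS : IsCptFam S) {C D : Set T} (hC : IsTriangSub C)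
    (hCp : ∀ (J : Type v) (t : J → T) (c : Fan t), Nonempty (IsLimit c) → (∀ j, t j ∈ C) →
      c.pt ∈ C) (hD : IsTriangSub D) (hCD : C ⊆ D)
    (pm : ∀ t ∈ D, ∃ c ∈ C, ∃ j : t ⟶ c, PureMono j) : D ⊆ C := by
  intro Z hZ
  let St := Σ c : T, {j : Z ⟶ c // c ∈ C ∧ PureMono j}
  have step : ∀ s : St, ∃ (s' : St) (p : s'.1 ⟶ s.1), s'.2.1 ≫ p = s.2.1 ∧
      ∀ x : T, IsCompactObj x → ∀ a : x ⟶ s'.1, ∃ z : x ⟶ Z, a ≫ p = z ≫ s.2.1 := by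
    rintro ⟨c, j, hc, hj⟩
    obtain ⟨Q, g, h, H⟩ := exists_cone j
    obtain ⟨Y, hY, φ, hφ⟩ := pm Q (hD.third H hZ (hCD hc))
    obtain ⟨c', p, l, H'⟩ := exists_fib (g ≫ φ)
    obtain ⟨j', hj'⟩ := H'.lift2 j (by rw [← Category.assoc, H.z12, zero_comp])
    refine ⟨⟨c', j', hC.first H' hc hY, fun x hx a ha => hj x hx a ?_⟩, p, hj'.symm,
      fun x hx a => H.lift2 _ (hφ x hx _ ?_)⟩
    · rw [hj', ← Category.assoc, ha, zero_comp]
    · rw [Category.assoc, Category.assoc, H'.z12, comp_zero]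
  choose nxt pp hp1 hp2 using step
  obtain ⟨c0, hc0, j0, hj0⟩ := pm Z hZ
  let s : ℕ → St := fun n => Nat.rec ⟨c0, j0, hc0, hj0⟩ (fun _ s => nxt s) n
  let c : ℕ → T := fun n => (s n).1
  let j : ∀ n, Z ⟶ c n := fun n => (s n).2.1
  let p : ∀ n, c (n + 1) ⟶ c n := fun n => pp (s n)
  have hc : ∀ n, c n ∈ C := fun n => (s n).2.2.1
  have hj : ∀ n, PureMono (j n) := fun n => (s n).2.2.2
  have hjp : ∀ n, j (n + 1) ≫ p n = j n := fun n => hp1 (s n)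
  have hp : ∀ n (x : T), IsCompactObj x → ∀ a : x ⟶ c (n + 1), ∃ z : x ⟶ Z,
      a ≫ p n = z ≫ j n := fun n => hp2 (s n)
  clear_value c j p
  clear hp1 hp2
  obtain ⟨A, ⟨hA⟩⟩ := hS.gen.exists_prod (fun n : ULift.{v} ℕ => c n.down)
  have hAC : A.pt ∈ C := hCp _ _ A ⟨hA⟩ fun n => hc n.down
  let π : ∀ n : ℕ, A.pt ⟶ c n := fun n => A.proj ⟨n⟩
  have ex : ∀ {x : T} (a : ∀ n, x ⟶ c n), ∃ l : x ⟶ A.pt, ∀ n, l ≫ π n = a n := fun a =>
    ⟨Fan.IsLimit.lift hA fun n => a n.down, fun n => Fan.IsLimit.fac hA _ _⟩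
  have ext : ∀ {x : T} (l l' : x ⟶ A.pt), (∀ n, l ≫ π n = l' ≫ π n) → l = l' :=
    fun l l' h => Fan.IsLimit.hom_ext hA _ _ fun n => h n.down
  obtain ⟨d, hd⟩ := ex fun n => π n - π (n + 1) ≫ p n
  obtain ⟨J, hJ⟩ := ex j
  obtain ⟨F, f, h, H⟩ := exists_fib d
  obtain ⟨θ, hθ⟩ := H.lift2 J (ext _ _ fun n => by
    rw [Category.assoc, hd, comp_sub, ← Category.assoc, hJ, hJ, hjp, sub_self, zero_comp])
  have dsurj : ∀ x : T, IsCompactObj x → ∀ b : x ⟶ A.pt, ∃ a : x ⟶ A.pt, b = a ≫ d := by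
    intro x hx b
    choose z hz using fun n => hp n x hx (b ≫ π (n + 1))
    let w : ℕ → (x ⟶ Z) := fun n => Nat.rec 0 (fun n y => y - z n) n
    have hw : ∀ n, w (n + 1) = w n - z n := fun n => rfl
    obtain ⟨a, ha⟩ := ex fun n => b ≫ π n + w n ≫ j n
    refine ⟨a, ext _ _ fun n => ?_⟩
    rw [Category.assoc, hd, comp_sub, ← Category.assoc, ha, ha, add_comp, hz, Category.assoc,
      hjp, hw, sub_comp]
    abel
  have finj : ∀ x : T, IsCompactObj x → ∀ b : x ⟶ F, b ≫ f = 0 → b = 0 := by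
    intro x hx b hb
    obtain ⟨q, hq⟩ := H.lift1 (b⟦(1 : ℤ)⟧') (by rw [← Functor.map_comp, hb, Functor.map_zero])
    obtain ⟨q', rfl⟩ := dsurj _ (hx.shiftZ 1) q
    rw [Category.assoc, H.z23, comp_zero] at hq
    exact (shiftFunctor T (1 : ℤ)).map_injective (by simpa using hq)
  have : IsIso θ := by
    refine hS.gen.isIso θ (fun i a ha => hj 0 _ (hS.gen.compact i) a ?_) fun i b => ?_
    · rw [← hJ, hθ, Category.assoc, ← Category.assoc a, ha, zero_comp]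
    · have hx := hS.gen.compact i
      have hb : ∀ n, (b ≫ f) ≫ π n = ((b ≫ f) ≫ π (n + 1)) ≫ p n := fun n => by
        have : (b ≫ f) ≫ d ≫ π n = 0 := by
          rw [Category.assoc, ← Category.assoc f, H.z12]; simp
        rw [hd, comp_sub, sub_eq_zero] at this
        rw [this, Category.assoc (b ≫ f)]
      choose z hz using fun n => hp n _ hx ((b ≫ f) ≫ π (n + 1))
      have hz' : ∀ n, (b ≫ f) ≫ π n = z n ≫ j n := fun n => (hb n).trans (hz n)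
      have hzz : ∀ n, z n = z 0 := by
        intro n
        induction n with
        | zero => rfl
        | succ n ih =>
          rw [← ih, ← sub_eq_zero]
          refine hj n _ hx _ ?_
          rw [sub_comp, ← hz n, hz' (n + 1), Category.assoc, hjp, sub_self]
      refine ⟨z 0, ?_⟩
      rw [← sub_eq_zero]
      refine finj _ hx _ ?_
      rw [sub_comp, Category.assoc, ← hθ, sub_eq_zero]
      exact ext _ _ fun n => by rw [Category.assoc, hJ, hz', hzz n]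
  exact hC.of_iso (asIso θ).symm (hC.first H hAC hAC)

end Tower

end Pool.Agent.Lib.MP_320227_al
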