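import Pool.Agent.Lib.MP_320227_al.Defs

set_option autoImplicit false
set_option linter.unusedSectionVars false

open CategoryTheory CategoryTheory.Limits CategoryTheory.Pretriangulated
open CategoryTheory.Preadditive ZeroObject

universe v u

namespace Pool.Agent.Lib.MP_320227_al

variable {T : Type u} [Category.{v} T] [Preadditive T] [HasZeroObject T] [HasShift T ℤ]
  [∀ n : ℤ, (shiftFunctor T n).Additive] [Pretriangulated T] [HasCoproducts.{v} T]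

/-- Shorthand for a distinguished triangle given by three maps. -/
abbrev Dist {a b c : T} (f : a ⟶ b) (g : b ⟶ c) (h : c ⟶ a⟦(1 : ℤ)⟧) : Prop :=
  Triangle.mk f g h ∈ distTriang T

section Dist

variable {a b c : T} {f : a ⟶ b} {g : b ⟶ c} {h : c ⟶ a⟦(1 : ℤ)⟧}

lemma Dist.z12 (H : Dist f g h) : f ≫ g = 0 := comp_distTriang_mor_zero₁₂ _ H
lemma Dist.z23 (H : Dist f g h) : g ≫ h = 0 := comp_distTriang_mor_zero₂₃ _ H
lemma Dist.z31 (H : Dist f g h) : h ≫ f⟦(1 : ℤ)⟧' = 0 := comp_distTriang_mor_zero₃₁ _ H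

lemma Dist.lift2 (H : Dist f g h) {x : T} (p : x ⟶ b) (hp : p ≫ g = 0) :
    ∃ q : x ⟶ a, p = q ≫ f := Triangle.coyoneda_exact₂ _ H p hp
lemma Dist.lift3 (H : Dist f g h) {x : T} (p : x ⟶ c) (hp : p ≫ h = 0) :
    ∃ q : x ⟶ b, p = q ≫ g := Triangle.coyoneda_exact₃ _ H p hp
lemma Dist.lift1 (H : Dist f g h) {x : T} (p : x ⟶ a⟦(1 : ℤ)⟧) (hp : p ≫ f⟦(1 : ℤ)⟧' = 0) :
    ∃ q : x ⟶ c, p = q ≫ h := Triangle.coyoneda_exact₁ _ H p hp
lemma Dist.desc2 (H : Dist f g h) {x : T} (p : b ⟶ x) (hp : f ≫ p = 0) :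
    ∃ q : c ⟶ x, p = g ≫ q := Triangle.yoneda_exact₂ _ H p hp
lemma Dist.desc3 (H : Dist f g h) {x : T} (p : c ⟶ x) (hp : g ≫ p = 0) :
    ∃ q : a⟦(1 : ℤ)⟧ ⟶ x, p = h ≫ q := Triangle.yoneda_exact₃ _ H p hp

lemma Dist.rot (H : Dist f g h) : Dist g h (-f⟦(1 : ℤ)⟧') := rot_of_distTriang _ H

lemma Dist.invRot (H : Dist f g h) :
    ∃ (k : c⟦(-1 : ℤ)⟧ ⟶ a) (l : b ⟶ (c⟦(-1 : ℤ)⟧)⟦(1 : ℤ)⟧), Dist k f l :=
  ⟨_, _, inv_rot_of_distTriang _ H⟩

lemma Dist.shift (H : Dist f g h) (n : ℤ) :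
    ∃ (f' : a⟦n⟧ ⟶ b⟦n⟧) (g' : b⟦n⟧ ⟶ c⟦n⟧) (h' : c⟦n⟧ ⟶ (a⟦n⟧)⟦(1 : ℤ)⟧), Dist f' g' h' :=
  ⟨_, _, _, Triangle.shift_distinguished _ H n⟩

end Dist

lemma dist_of_mem {D : Triangle T} (H : D ∈ distTriang T) : Dist D.mor₁ D.mor₂ D.mor₃ := H

lemma exists_cone {a b : T} (f : a ⟶ b) :
    ∃ (c : T) (g : b ⟶ c) (h : c ⟶ a⟦(1 : ℤ)⟧), Dist f g h := distinguished_cocone_triangle f

lemma exists_fib {b c : T} (g : b ⟶ c) :
    ∃ (a : T) (f : a ⟶ b) (h : c ⟶ a⟦(1 : ℤ)⟧), Dist f g h := distinguished_cocone_triangle₁ g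

lemma exists_mid {a c : T} (h : c ⟶ a⟦(1 : ℤ)⟧) :
    ∃ (b : T) (f : a ⟶ b) (g : b ⟶ c), Dist f g h := distinguished_cocone_triangle₂ h

lemma dist_biprod (a b : T) : Dist (biprod.inl : a ⟶ a ⊞ b) biprod.snd 0 :=
  binaryBiproductTriangle_distinguished a b

/-- `y` is isomorphic to the shift of its negative shift. -/
noncomputable def nsIso (y : T) : (y⟦(-1 : ℤ)⟧)⟦(1 : ℤ)⟧ ≅ y :=
  (shiftFunctorCompIsoId T (-1 : ℤ) 1 (by simp)).app y

/-- `y` is isomorphic to the negative shift of its shift. -/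
noncomputable def snIso (y : T) : (y⟦(1 : ℤ)⟧)⟦(-1 : ℤ)⟧ ≅ y :=
  (shiftFunctorCompIsoId T (1 : ℤ) (-1) (by simp)).app y

/-- Iterated shifts. -/
noncomputable def ssIso (y : T) (i j k : ℤ) (h : i + j = k) : (y⟦i⟧)⟦j⟧ ≅ y⟦k⟧ :=
  ((shiftFunctorAdd' T i j k h).app y).symm

lemma exists_unshift {y A : T} (g : y ⟶ A⟦(1 : ℤ)⟧) :
    ∃ g' : y⟦(-1 : ℤ)⟧ ⟶ A, g = (nsIso y).inv ≫ g'⟦(1 : ℤ)⟧' := by
  refine ⟨(shiftFunctor T (1 : ℤ)).preimage ((nsIso y).hom ≫ g), ?_⟩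
  simp

lemma shift_inj {y A B : T} (d : A ⟶ B)
    (hd : ∀ g : y⟦(-1 : ℤ)⟧ ⟶ A, g ≫ d = 0 → g = 0) (g : y ⟶ A⟦(1 : ℤ)⟧)
    (hg : g ≫ d⟦(1 : ℤ)⟧' = 0) : g = 0 := by
  obtain ⟨g', rfl⟩ := exists_unshift g
  have h1 : (g' ≫ d)⟦(1 : ℤ)⟧' = 0 := by
    rw [Category.assoc, ← Functor.map_comp] at hg
    simpa using hg
  have h2 : g' ≫ d = 0 := (shiftFunctor T (1 : ℤ)).map_injective (by simpa using h1)
  rw [hd g' h2]; simp

section TriangSub

variable {L : Set T}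

lemma IsTriangSub.of_iso (hL : IsTriangSub L) {a b : T} (e : a ≅ b) (ha : a ∈ L) : b ∈ L :=
  hL.iso a b ⟨e⟩ ha

lemma IsTriangSub.isZero (hL : IsTriangSub L) {a : T} (ha : IsZero a) : a ∈ L :=
  hL.of_iso ha.isoZero.symm hL.zero

variable {a b c : T} {f : a ⟶ b} {g : b ⟶ c} {h : c ⟶ a⟦(1 : ℤ)⟧}

lemma IsTriangSub.third (hL : IsTriangSub L) (H : Dist f g h) (ha : a ∈ L) (hb : b ∈ L) :
    c ∈ L := hL.cone _ H ha hb

lemma IsTriangSub.first (hL : IsTriangSub L) (H : Dist f g h) (hb : b ∈ L) (hc : c ∈ L) :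
    a ∈ L := hL.of_iso (snIso a) (hL.unshift _ (hL.third H.rot hb hc))

lemma IsTriangSub.second (hL : IsTriangSub L) (H : Dist f g h) (ha : a ∈ L) (hc : c ∈ L) :
    b ∈ L := hL.first H.rot hc (hL.shift _ ha)

lemma IsTriangSub.biprod (hL : IsTriangSub L) (ha : a ∈ L) (hb : b ∈ L) : (a ⊞ b) ∈ L :=
  hL.second (dist_biprod a b) ha hb

lemma IsTriangSub.shiftZ (hL : IsTriangSub L) (ha : a ∈ L) (n : ℤ) : a⟦n⟧ ∈ L := by
  induction n using Int.induction_on with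
  | zero => exact hL.of_iso ((shiftFunctorZero T ℤ).app a).symm ha
  | succ n ih => exact hL.of_iso (ssIso a n 1 _ rfl) (hL.shift _ ih)
  | pred n ih => exact hL.of_iso (ssIso a (-n) (-1) _ (by ring)) (hL.unshift _ ih)

/-- A class containing the zero objects and closed under cones and fibres is triangulated. -/
lemma IsTriangSub.mk' (h0 : ∀ a : T, IsZero a → a ∈ L)
    (h3 : ∀ {a b c : T} {f : a ⟶ b} {g : b ⟶ c} {h : c ⟶ a⟦(1 : ℤ)⟧}, Dist f g h →
      a ∈ L → b ∈ L → c ∈ L)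
    (h1 : ∀ {a b c : T} {f : a ⟶ b} {g : b ⟶ c} {h : c ⟶ a⟦(1 : ℤ)⟧}, Dist f g h →
      b ∈ L → c ∈ L → a ∈ L) : IsTriangSub L where
  zero := h0 _ (isZero_zero T)
  iso a b := by
    rintro ⟨e⟩ ha
    have H : Dist (0 : (0 : T) ⟶ a) e.hom 0 := by
      exact (Triangle.distinguished_iff_of_isZero₁ _ (isZero_zero T)).2
        (inferInstanceAs (IsIso e.hom))
    exact h3 H (h0 _ (isZero_zero T)) ha
  shift a ha := h3 (contractible_distinguished₂ a) ha (h0 _ (isZero_zero T))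
  unshift a ha := by
    have H : Dist (0 : a⟦(-1 : ℤ)⟧ ⟶ (0 : T)) (0 : (0 : T) ⟶ a) (nsIso a).inv := by
      exact (Triangle.distinguished_iff_of_isZero₂ _ (isZero_zero T)).2
        (inferInstanceAs (IsIso (nsIso a).inv))
    exact h1 H (h0 _ (isZero_zero T)) ha
  cone D hD := h3 (dist_of_mem hD)

end TriangSub

section Proj

open Classical in
/-- The projection from a coproduct to one of its summands. -/
noncomputable def prj {J : Type v} (t : J → T) (j : J) : ∐ t ⟶ t j :=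
  Sigma.desc fun i => if h : i = j then eqToHom (congrArg t h) else 0

@[reassoc]
lemma ι_prj_self {J : Type v} (t : J → T) (j : J) : Sigma.ι t j ≫ prj t j = 𝟙 _ := by
  simp [prj]

@[reassoc]
lemma ι_prj_ne {J : Type v} (t : J → T) {i j : J} (h : i ≠ j) :
    Sigma.ι t i ≫ prj t j = 0 := by
  simp [prj, h]

lemma sum_ι_prj {J : Type v} (t : J → T) {x : T} (s : Finset J) (a : ∀ j, x ⟶ t j) {j : J}
    (hj : j ∈ s) : (∑ i ∈ s, a i ≫ Sigma.ι t i) ≫ prj t j = a j := by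
  rw [sum_comp, Finset.sum_eq_single j]
  · simp [ι_prj_self]
  · intro i _ hij; simp [ι_prj_ne t hij]
  · intro h; exact absurd hj h

lemma sum_ι_prj_not {J : Type v} (t : J → T) {x : T} (s : Finset J) (a : ∀ j, x ⟶ t j) {j : J}
    (hj : j ∉ s) : (∑ i ∈ s, a i ≫ Sigma.ι t i) ≫ prj t j = 0 := by
  rw [sum_comp]
  refine Finset.sum_eq_zero fun i hi => ?_
  have : i ≠ j := fun h => hj (h ▸ hi)
  simp [ι_prj_ne t this]

lemma IsCompactObj.exists_sum {x : T} (hx : IsCompactObj x) {J : Type v} {t : J → T}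
    (f : x ⟶ ∐ t) : ∃ s : Finset J, f = ∑ j ∈ s, (f ≫ prj t j) ≫ Sigma.ι t j ∧
      ∀ j ∉ s, f ≫ prj t j = 0 := by
  obtain ⟨s, a, rfl⟩ := hx J t f
  refine ⟨s, Finset.sum_congr rfl fun j hj => ?_, fun j hj => sum_ι_prj_not t s a hj⟩
  rw [sum_ι_prj t s a hj]

lemma IsCompactObj.eq_zero {x : T} (hx : IsCompactObj x) {J : Type v} {t : J → T}
    (f : x ⟶ ∐ t) (hf : ∀ j, f ≫ prj t j = 0) : f = 0 := by
  obtain ⟨s, hs, -⟩ := hx.exists_sum f
  rw [hs]; simp [hf]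

end Proj

section Compact

lemma IsCompactObj.retract {x y : T} (hy : IsCompactObj y) (i : x ⟶ y) (r : y ⟶ x)
    (h : i ≫ r = 𝟙 x) : IsCompactObj x := by
  intro J t f
  obtain ⟨s, a, ha⟩ := hy J t (r ≫ f)
  refine ⟨s, fun j => i ≫ a j, ?_⟩
  have : f = i ≫ r ≫ f := by rw [← Category.assoc, h, Category.id_comp]
  rw [this, ha, comp_sum]; simp

lemma IsCompactObj.of_iso {x y : T} (hx : IsCompactObj x) (e : x ≅ y) : IsCompactObj y :=
  hx.retract e.inv e.hom (by simp)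

lemma isCompactObj_of_isZero {x : T} (hx : IsZero x) : IsCompactObj x := by
  intro J t f
  exact ⟨∅, fun _ => 0, hx.eq_of_src _ _⟩

lemma IsCompactObj.adj {F G : T ⥤ T} (adj : F ⊣ G) [F.Additive]
    [∀ J : Type v, PreservesColimitsOfShape (Discrete J) G] {x : T} (hx : IsCompactObj x) :
    IsCompactObj (F.obj x) := by
  intro J t f
  obtain ⟨s, a, ha⟩ := hx J (fun j => G.obj (t j))
    (adj.homEquiv _ _ f ≫ inv (sigmaComparison G t))
  refine ⟨s, fun j => F.map (a j) ≫ adj.counit.app (t j), ?_⟩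
  have h1 : adj.homEquiv _ _ f = ∑ j ∈ s, a j ≫ G.map (Sigma.ι t j) := by
    rw [← cancel_mono (inv (sigmaComparison G t)), ha, sum_comp]
    refine Finset.sum_congr rfl fun j _ => ?_
    rw [Category.assoc, map_ι_comp_inv_sigmaComparison]
  have h2 : f = F.map (adj.homEquiv _ _ f) ≫ adj.counit.app _ := by
    exact ((adj.homEquiv _ _).symm_apply_apply f).symm.trans (adj.homEquiv_counit _ _ _)
  rw [h2, h1, F.map_sum, sum_comp]
  refine Finset.sum_congr rfl fun j _ => ?_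
  have := adj.counit.naturality (Sigma.ι t j)
  dsimp at this
  simp [this]

lemma IsCompactObj.shiftZ {x : T} (hx : IsCompactObj x) (n : ℤ) : IsCompactObj (x⟦n⟧) :=
  hx.adj (F := shiftFunctor T n) (G := shiftFunctor T (-n)) (shiftEquiv T n).toAdjunction

lemma IsCompactObj.third {a b c : T} {f : a ⟶ b} {g : b ⟶ c} {h : c ⟶ a⟦(1 : ℤ)⟧}
    (H : Dist f g h) (ha : IsCompactObj a) (hb : IsCompactObj b) : IsCompactObj c := by
  classical
  intro J t p
  obtain ⟨s, hs, -⟩ := hb.exists_sum (g ≫ p)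
  have h1 : g ≫ (p - ∑ j ∈ s, (p ≫ prj t j) ≫ Sigma.ι t j) = 0 := by
    rw [comp_sub, comp_sum, sub_eq_zero]
    conv_lhs => rw [hs]
    simp
  obtain ⟨q, hq⟩ := H.desc3 _ h1
  obtain ⟨s', a', ha'⟩ := ha.shiftZ 1 J t q
  refine ⟨s ∪ s', fun j => (if j ∈ s then p ≫ prj t j else 0) +
    (if j ∈ s' then h ≫ a' j else 0), ?_⟩
  simp only [add_comp, Finset.sum_add_distrib, ite_comp, zero_comp]
  rw [← Finset.sum_filter, ← Finset.sum_filter]
  have e1 : (s ∪ s').filter (· ∈ s) = s := by ext; simp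
  have e2 : (s ∪ s').filter (· ∈ s') = s' := by ext; simp
  rw [e1, e2, ← sub_eq_iff_eq_add', hq, ha', comp_sum]
  simp

lemma compact_triangSub : IsTriangSub {x : T | IsCompactObj x} where
  zero := isCompactObj_of_isZero (isZero_zero T)
  iso _ _ := fun ⟨e⟩ h => IsCompactObj.of_iso h e
  shift _ h := IsCompactObj.shiftZ h 1
  unshift _ h := IsCompactObj.shiftZ h (-1)
  cone _ hD := IsCompactObj.third (dist_of_mem hD)

lemma IsCompactObj.first {a b c : T} {f : a ⟶ b} {g : b ⟶ c} {h : c ⟶ a⟦(1 : ℤ)⟧}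
    (H : Dist f g h) (hb : IsCompactObj b) (hc : IsCompactObj c) : IsCompactObj a :=
  compact_triangSub.first H hb hc

lemma IsCompactObj.biprod {a b : T} (ha : IsCompactObj a) (hb : IsCompactObj b) :
    IsCompactObj (a ⊞ b) := compact_triangSub.biprod ha hb

end Compact

section Loc

lemma subset_loc (S : Set T) : S ⊆ Loc S := fun _ hx _ hL => hL.2 hx

lemma loc_subset {S L : Set T} (hL : IsLocalizing L) (h : S ⊆ L) : Loc S ⊆ L :=
  fun _ hx => hx L ⟨hL, h⟩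

lemma loc_isLocalizing (S : Set T) : IsLocalizing (Loc S) where
  triang :=
    { zero := fun _ hL => hL.1.triang.zero
      iso := fun a b e ha L hL => hL.1.triang.iso a b e (ha L hL)
      shift := fun a ha L hL => hL.1.triang.shift a (ha L hL)
      unshift := fun a ha L hL => hL.1.triang.unshift a (ha L hL)
      cone := fun D hD h1 h2 L hL => hL.1.triang.cone D hD (h1 L hL) (h2 L hL) }
  coprod J t ht L hL := hL.1.coprod J t fun j => ht j L hL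

/-- A class closed under isomorphisms, extensions and coproducts. -/
structure ExtClosed (R : Set T) : Prop where
  zero : ∀ a : T, IsZero a → a ∈ R
  iso : ∀ {a b : T}, (a ≅ b) → a ∈ R → b ∈ R
  ext : ∀ {a b c : T} {f : a ⟶ b} {g : b ⟶ c} {h : c ⟶ a⟦(1 : ℤ)⟧}, Dist f g h →
    a ∈ R → c ∈ R → b ∈ R
  coprod : ∀ (J : Type v) (t : J → T), (∀ j, t j ∈ R) → ∐ t ∈ R

lemma IsLocalizing.extClosed {L : Set T} (hL : IsLocalizing L) : ExtClosed L where
  zero _ h := hL.triang.isZero h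
  iso e h := hL.triang.of_iso e h
  ext H := hL.triang.second H
  coprod := hL.coprod

lemma ExtClosed.shiftCore {R : Set T} (hR : ExtClosed R) :
    IsLocalizing {x : T | ∀ n : ℤ, x⟦n⟧ ∈ R} where
  triang :=
    { zero := fun n => hR.zero _ ((shiftFunctor T n).map_isZero (isZero_zero T))
      iso := fun _ _ ⟨e⟩ ha n => hR.iso ((shiftFunctor T n).mapIso e) (ha n)
      shift := fun a ha n => hR.iso (ssIso a 1 n _ rfl).symm (ha _)
      unshift := fun a ha n => hR.iso (ssIso a (-1) n _ rfl).symm (ha _)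
      cone := fun D hD h1 h2 n => by
        obtain ⟨f', g', h', H⟩ := (dist_of_mem hD).shift n
        exact hR.ext H.rot (h2 n) (hR.iso (ssIso D.obj₁ n 1 _ rfl).symm (h1 _)) }
  coprod J t ht n :=
    hR.iso (asIso (sigmaComparison (shiftFunctor T n) t)) (hR.coprod J _ fun j => ht j n)

lemma ExtClosed.loc_subset {R S : Set T} (hR : ExtClosed R)
    (hS : ∀ x ∈ S, ∀ n : ℤ, x⟦n⟧ ∈ R) : Loc S ⊆ R := fun x hx =>
  hR.iso ((shiftFunctorZero T ℤ).app x) (Lib.MP_320227_al.loc_subset hR.shiftCore hS hx 0)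

end Loc

end Pool.Agent.Lib.MP_320227_al
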