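import Pool.Agent.Lib.MP_320227_al.Basic

set_option autoImplicit false
set_option linter.unusedSectionVars false

open CategoryTheory CategoryTheory.Limits CategoryTheory.Pretriangulated
open CategoryTheory.Preadditive ZeroObject

universe v u

namespace Pool.Agent.Lib.MP_320227_al

variable {T : Type u} [Category.{v} T] [Preadditive T] [HasZeroObject T] [HasShift T ℤ]
  [∀ n : ℤ, (shiftFunctor T n).Additive] [Pretriangulated T] [HasCoproducts.{v} T]

variable (T) in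
/-- A cohomological functor to abelian groups sending coproducts to products. -/
structure Cohom where
  obj : T → Type v
  [grp : ∀ X, AddCommGroup (obj X)]
  map : ∀ {X Y : T}, (X ⟶ Y) → (obj Y →+ obj X)
  map_id : ∀ (X : T) (ξ : obj X), map (𝟙 X) ξ = ξ
  map_comp : ∀ {X Y Z : T} (f : X ⟶ Y) (g : Y ⟶ Z) (ξ : obj Z),
    map (f ≫ g) ξ = map f (map g ξ)
  map_add : ∀ {X Y : T} (f g : X ⟶ Y) (ξ : obj Y), map (f + g) ξ = map f ξ + map g ξ
  exact : ∀ {a b c : T} {f : a ⟶ b} {g : b ⟶ c} {h : c ⟶ a⟦(1 : ℤ)⟧}, Dist f g h →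
    ∀ ξ : obj b, map f ξ = 0 → ∃ ζ, map g ζ = ξ
  prod_ex : ∀ (J : Type v) (t : J → T) (ξ : ∀ j, obj (t j)),
    ∃ ζ : obj (∐ t), ∀ j, map (Sigma.ι t j) ζ = ξ j
  prod_ext : ∀ (J : Type v) (t : J → T) (ζ : obj (∐ t)),
    (∀ j, map (Sigma.ι t j) ζ = 0) → ζ = 0

attribute [instance] Cohom.grp

lemma Cohom.map_zero' (H : Cohom T) {X Y : T} (ξ : H.obj Y) : H.map (0 : X ⟶ Y) ξ = 0 := by
  have := H.map_add (0 : X ⟶ Y) 0 ξ
  rw [add_zero] at this
  simpa using this

lemma Cohom.map_sub' (H : Cohom T) {X Y : T} (f g : X ⟶ Y) (ξ : H.obj Y) :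
    H.map (f - g) ξ = H.map f ξ - H.map g ξ := by
  have := H.map_add (f - g) g ξ
  rw [sub_add_cancel] at this
  rw [this]; simp

/-- The representable cohomological functor. -/
def Cohom.hom (Z : T) : Cohom T where
  obj X := X ⟶ Z
  map f := leftComp Z f
  map_id := by intros; simp [leftComp]
  map_comp := by intros; simp [leftComp]
  map_add := by intros; simp [leftComp]
  exact H ξ hξ := by
    obtain ⟨q, hq⟩ := H.desc2 ξ hξ
    exact ⟨q, hq.symm⟩
  prod_ex J t ξ := ⟨Sigma.desc ξ, fun j => by simp [leftComp]⟩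
  prod_ext J t ζ h := Sigma.hom_ext _ _ fun j => by simpa [leftComp] using h j

@[simp] lemma Cohom.hom_map (Z : T) {X Y : T} (f : X ⟶ Y) (ξ : Y ⟶ Z) :
    (Cohom.hom Z).map f ξ = f ≫ ξ := rfl

section Hocolim

/-- The properties of a homotopy colimit of a sequence. -/
structure IsHocolim (X : ℕ → T) (t : ∀ n, X n ⟶ X (n + 1)) (L : T) (ι : ∀ n, X n ⟶ L) :
    Prop where
  comm : ∀ n, t n ≫ ι (n + 1) = ι n
  mem : ∀ P : Set T, IsLocalizing P → (∀ n, X n ∈ P) → L ∈ P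
  lift : ∀ (H : Cohom T) (ξ : ∀ n, H.obj (X n)), (∀ n, H.map (t n) (ξ (n + 1)) = ξ n) →
    ∃ ζ, ∀ n, H.map (ι n) ζ = ξ n
  fac : ∀ y : T, IsCompactObj y → ∀ f : y ⟶ L, ∃ (n : ℕ) (a : y ⟶ X n), f = a ≫ ι n
  ker : ∀ y : T, IsCompactObj y → ∀ a : y ⟶ X 0, a ≫ ι 0 = 0 →
    ∃ b : ∀ n, y ⟶ X n, b 0 = a ∧ (∀ n, b (n + 1) = b n ≫ t n) ∧ ∃ N, b N = 0

lemma exists_hocolim (X : ℕ → T) (t : ∀ n, X n ⟶ X (n + 1)) :
    ∃ (L : T) (ι : ∀ n, X n ⟶ L), IsHocolim X t L ι := by
  classical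
  let Xs : ULift.{v} ℕ → T := fun n => X n.down
  let i : ∀ n : ℕ, X n ⟶ ∐ Xs := fun n => Sigma.ι Xs ⟨n⟩
  let π : ∀ n : ℕ, ∐ Xs ⟶ X n := fun n => prj Xs ⟨n⟩
  have iπ : ∀ n, i n ≫ π n = 𝟙 _ := fun n => ι_prj_self Xs ⟨n⟩
  have iπ' : ∀ n m, n ≠ m → i n ≫ π m = 0 := fun n m h =>
    ι_prj_ne Xs (fun h' => h (congrArg ULift.down h'))
  let sh : ∐ Xs ⟶ ∐ Xs := Sigma.desc fun n => t n.down ≫ i (n.down + 1)
  have ish : ∀ n, i n ≫ sh = t n ≫ i (n + 1) := fun n => by simp [i, sh]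
  let d : ∐ Xs ⟶ ∐ Xs := 𝟙 _ - sh
  have id' : ∀ n, i n ≫ d = i n - t n ≫ i (n + 1) := fun n => by simp [d, ish]
  have ext : ∀ {Z : T} (f g : ∐ Xs ⟶ Z), (∀ n, i n ≫ f = i n ≫ g) → f = g :=
    fun f g h => Sigma.hom_ext _ _ fun n => h n.down
  have d0 : d ≫ π 0 = π 0 := ext _ _ fun n => by
    rw [← Category.assoc, id', sub_comp, Category.assoc, iπ' (n + 1) 0 (by omega)]; simp
  have ds : ∀ m, d ≫ π (m + 1) = π (m + 1) - π m ≫ t m := fun m => ext _ _ fun n => by
    rw [← Category.assoc, id', sub_comp, comp_sub, Category.assoc]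
    congr 1
    by_cases h : n = m
    · subst h; rw [iπ, ← Category.assoc, iπ]; simp
    · rw [iπ' (n + 1) (m + 1) (by omega), ← Category.assoc, iπ' n m h]; simp
  obtain ⟨L, p, δ, H⟩ := exists_cone d
  have dinj : ∀ y : T, IsCompactObj y → ∀ g : y ⟶ ∐ Xs, g ≫ d = 0 → g = 0 := by
    intro y hy g hg
    have h : ∀ n, g ≫ π n = 0 := by
      intro n
      induction n with
      | zero => rw [← d0, ← Category.assoc, hg, zero_comp]
      | succ n ih =>
        have := ds n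
        have h2 : g ≫ d ≫ π (n + 1) = 0 := by rw [← Category.assoc, hg, zero_comp]
        rw [this, comp_sub, ← Category.assoc, ih] at h2
        simpa using h2
    exact hy.eq_zero g fun j => h j.down
  have comm : ∀ n, t n ≫ i (n + 1) ≫ p = i n ≫ p := fun n => by
    have h1 : i n ≫ d ≫ p = 0 := by rw [H.z12, comp_zero]
    rw [← Category.assoc, id', sub_comp, sub_eq_zero] at h1
    rw [h1, Category.assoc]
  refine ⟨L, fun n => i n ≫ p, comm, ?_, ?_, ?_, ?_⟩
  · intro P hP hX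
    have := hP.coprod _ Xs fun n => hX n.down
    exact hP.triang.third H this this
  · intro G ξ hξ
    obtain ⟨ζ, hζ⟩ := G.prod_ex _ Xs fun n => ξ n.down
    have hζ' : ∀ n, G.map (i n) ζ = ξ n := fun n => hζ ⟨n⟩
    have h0 : G.map d ζ = 0 := G.prod_ext _ Xs _ fun n => by
      change G.map (i n.down) _ = 0
      rw [← G.map_comp, id', G.map_sub', G.map_comp, hζ', hζ', hξ, sub_self]
    obtain ⟨ζ', hζ''⟩ := G.exact H ζ h0
    exact ⟨ζ', fun n => by rw [G.map_comp, hζ'', hζ']⟩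
  · intro y hy f
    have h1 : f ≫ δ = 0 := by
      refine shift_inj d (dinj _ (hy.shiftZ _)) _ ?_
      rw [Category.assoc, H.z31, comp_zero]
    obtain ⟨g, rfl⟩ := H.lift3 f h1
    clear h1
    obtain ⟨s, a, rfl⟩ := hy _ Xs g
    have up : ∀ (n : ℕ) (a : y ⟶ X n) (N : ℕ), n ≤ N →
        ∃ a' : y ⟶ X N, a ≫ i n ≫ p = a' ≫ i N ≫ p := by
      intro n a N hN
      induction N, hN using Nat.le_induction with
      | base => exact ⟨a, rfl⟩
      | succ N _ ih =>
        obtain ⟨a', ha'⟩ := ih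
        exact ⟨a' ≫ t N, by rw [ha', Category.assoc, comm]⟩
    induction s using Finset.induction_on with
    | empty => exact ⟨0, 0, by simp⟩
    | insert j s hj ih =>
      obtain ⟨n, b, hb⟩ := ih
      obtain ⟨b', hb'⟩ := up n b (max n j.down) (le_max_left _ _)
      obtain ⟨a', ha'⟩ := up j.down (a j) (max n j.down) (le_max_right _ _)
      refine ⟨max n j.down, a' + b', ?_⟩
      rw [Finset.sum_insert hj, add_comp, hb, hb', add_comp, ← ha', Category.assoc]
  · intro y hy a ha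
    obtain ⟨g, hg⟩ := H.lift2 (a ≫ i 0) (by rw [Category.assoc]; exact ha)
    refine ⟨fun n => g ≫ π n, ?_, fun n => ?_, ?_⟩
    · change g ≫ π 0 = a
      rw [← d0, ← Category.assoc, ← hg, Category.assoc, iπ, Category.comp_id]
    · have h2 : g ≫ d ≫ π (n + 1) = 0 := by
        rw [← Category.assoc, ← hg, Category.assoc, iπ' 0 (n + 1) (by omega), comp_zero]
      rw [ds, comp_sub, sub_eq_zero] at h2
      change g ≫ π (n + 1) = (g ≫ π n) ≫ t n
      rw [h2, Category.assoc]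
    · obtain ⟨s, -, hs⟩ := hy.exists_sum g
      obtain ⟨N, hN⟩ := Infinite.exists_notMem_finset s
      exact ⟨N.down, hs N hN⟩

end Hocolim

/-- Dependent choice for sequences of objects with structure. -/
lemma exists_seq {St : Type*} (ob : St → T) (R : ∀ s s' : St, (ob s ⟶ ob s') → Prop)
    (step : ∀ s, ∃ (s' : St) (t : ob s ⟶ ob s'), R s s' t) (s0 : St) :
    ∃ (s : ℕ → St) (t : ∀ n, ob (s n) ⟶ ob (s (n + 1))), s 0 = s0 ∧
      ∀ n, R (s n) (s (n + 1)) (t n) := by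
  choose nxt tt hR using step
  exact ⟨fun n => Nat.rec s0 (fun _ s => nxt s) n, fun n => tt _, rfl, fun n => hR _⟩

section Brown

variable {ι : Type v} (S : ι → T)

lemma brown_core (hS : ∀ i, IsCompactObj (S i)) (H : Cohom T) (Y : T) (υ : H.obj Y) :
    ∃ (X : T) (k : Y ⟶ X) (ξ : H.obj X), H.map k ξ = υ ∧
      (∀ (i : ι) (σ : H.obj (S i)), ∃ a : S i ⟶ X, H.map a ξ = σ) ∧
      (∀ (i : ι) (a : S i ⟶ X), H.map a ξ = 0 → a = 0) ∧
      ∀ P : Set T, IsLocalizing P → Y ∈ P → (∀ i, S i ∈ P) → X ∈ P := by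
  let t0 : Option (Σ i, H.obj (S i)) → T := fun o => o.elim Y fun q => S q.1
  obtain ⟨ξ0, hξ0⟩ := H.prod_ex _ t0 fun o => match o with
    | none => υ
    | some q => q.2
  have step : ∀ s : Σ X, H.obj X, ∃ (s' : Σ X, H.obj X) (t : s.1 ⟶ s'.1),
      H.map t s'.2 = s.2 ∧ (∀ (i : ι) (a : S i ⟶ s.1), H.map a s.2 = 0 → a ≫ t = 0) ∧
      ∀ P : Set T, IsLocalizing P → s.1 ∈ P → (∀ i, S i ∈ P) → s'.1 ∈ P := by
    rintro ⟨X, ξ⟩
    let J := Σ i, {a : S i ⟶ X // H.map a ξ = 0}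
    let t1 : J → T := fun q => S q.1
    let k : ∐ t1 ⟶ X := Sigma.desc fun q => q.2.1
    obtain ⟨X', t, δ, D⟩ := exists_cone k
    have h0 : H.map k ξ = 0 := H.prod_ext _ t1 _ fun q => by
      rw [← H.map_comp]; simpa [k] using q.2.2
    obtain ⟨ξ', hξ'⟩ := H.exact D ξ h0
    refine ⟨⟨X', ξ'⟩, t, hξ', fun i a ha => ?_, fun P hP hX hSP => ?_⟩
    · have : a = Sigma.ι t1 ⟨i, a, ha⟩ ≫ k := by simp [k]
      rw [this, Category.assoc, D.z12, comp_zero]
    · exact hP.triang.third D (hP.coprod _ t1 fun q => hSP _) hX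
  obtain ⟨s, t, hs0, hs⟩ := exists_seq (St := Σ X, H.obj X) (fun s => s.1) _ step ⟨∐ t0, ξ0⟩
  obtain ⟨L, j, hL⟩ := exists_hocolim (fun n => (s n).1) t
  obtain ⟨ξ, hξ⟩ := hL.lift H (fun n => (s n).2) fun n => (hs n).1
  have key : ∃ j0 : ∐ t0 ⟶ L, H.map j0 ξ = ξ0 := by
    have h1 := hξ 0
    have h2 : ∃ j0 : (s 0).1 ⟶ L, H.map j0 ξ = (s 0).2 := ⟨_, h1⟩
    rw [hs0] at h2
    exact h2
  obtain ⟨j0, hj0⟩ := key
  refine ⟨L, Sigma.ι t0 none ≫ j0, ξ, ?_, fun i σ => ?_, fun i a ha => ?_, fun P hP hY hSP => ?_⟩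
  · rw [H.map_comp, hj0]; exact hξ0 none
  · refine ⟨Sigma.ι t0 (some ⟨i, σ⟩) ≫ j0, ?_⟩
    rw [H.map_comp, hj0]; exact hξ0 (some ⟨i, σ⟩)
  · obtain ⟨n, b, rfl⟩ := hL.fac _ (hS i) a
    rw [H.map_comp, hξ] at ha
    rw [← hL.comm, ← Category.assoc, (hs n).2.1 i b ha, zero_comp]
  · refine hL.mem P hP fun n => ?_
    induction n with
    | zero =>
      rw [hs0]
      refine hP.coprod _ t0 fun o => ?_
      cases o with
      | none => exact hY
      | some q => exact hSP _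
    | succ n ih => exact (hs n).2.2 P hP ih hSP

/-- A small generating family of compact objects which is closed under negative shifts. -/
structure IsGenFam : Prop where
  compact : ∀ i, IsCompactObj (S i)
  unshift : ∀ i, ∃ j, Nonempty (S j ≅ (S i)⟦(-1 : ℤ)⟧)
  detect : ∀ t : T, (∀ (i : ι) (f : S i ⟶ t), f = 0) → IsZero t

variable {S}

lemma IsGenFam.isIso (hS : IsGenFam S) {A B : T} (f : A ⟶ B)
    (hinj : ∀ (i : ι) (a : S i ⟶ A), a ≫ f = 0 → a = 0)
    (hsurj : ∀ (i : ι) (b : S i ⟶ B), ∃ a : S i ⟶ A, a ≫ f = b) : IsIso f := by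
  obtain ⟨C, g, h, D⟩ := exists_cone f
  refine (Triangle.isZero₃_iff_isIso₁ _ D).1 (hS.detect C fun i c => ?_)
  have h1 : c ≫ h = 0 := by
    refine shift_inj f (fun a ha => ?_) _ (by rw [Category.assoc, D.z31, comp_zero])
    obtain ⟨j, ⟨e⟩⟩ := hS.unshift i
    have := hinj j (e.hom ≫ a) (by rw [Category.assoc, ha, comp_zero])
    simpa using this
  obtain ⟨b, rfl⟩ := D.lift3 c h1
  obtain ⟨a, rfl⟩ := hsurj i b
  rw [Category.assoc, D.z12, comp_zero]

lemma IsGenFam.loc_eq (hS : IsGenFam S) {P : Set T} (hP : IsLocalizing P) (h : ∀ i, S i ∈ P)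
    (t : T) : t ∈ P := by
  obtain ⟨X, -, ξ, -, h1, h2, h3⟩ := brown_core S hS.compact (Cohom.hom t) 0 (0 : (0 : T) ⟶ t)
  have : IsIso (show X ⟶ t from ξ) := hS.isIso _ h2 h1
  exact hP.triang.of_iso (asIso (show X ⟶ t from ξ)) (h3 P hP hP.triang.zero h)

/-- Brown representability. -/
theorem IsGenFam.brown (hS : IsGenFam S) (H : Cohom T) :
    ∃ (X : T) (ξ : H.obj X), (∀ (t : T) (τ : H.obj t), ∃ a : t ⟶ X, H.map a ξ = τ) ∧
      ∀ (t : T) (a : t ⟶ X), H.map a ξ = 0 → a = 0 := by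
  obtain ⟨X, -, ξ, -, h1, h2, -⟩ := brown_core S hS.compact H 0 0
  have surj : ∀ (t : T) (τ : H.obj t), ∃ a : t ⟶ X, H.map a ξ = τ := by
    intro t τ
    obtain ⟨X', k, ξ', hk, h1', h2', -⟩ := brown_core S hS.compact H (X ⊞ t)
      (H.map biprod.fst ξ + H.map biprod.snd τ)
    have e1 : H.map (biprod.inl ≫ k) ξ' = ξ := by
      rw [H.map_comp, hk, map_add, ← H.map_comp, ← H.map_comp]
      simp [H.map_id, H.map_zero']
    have e2 : H.map (biprod.inr ≫ k) ξ' = τ := by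
      rw [H.map_comp, hk, map_add, ← H.map_comp, ← H.map_comp]
      simp [H.map_id, H.map_zero']
    have : IsIso (biprod.inl ≫ k) := by
      refine hS.isIso _ (fun i a ha => h2 i a ?_) fun i b => ?_
      · rw [← e1, ← H.map_comp, ha, H.map_zero']
      · obtain ⟨a, ha⟩ := h1 i (H.map b ξ')
        refine ⟨a, ?_⟩
        rw [← sub_eq_zero]
        refine h2' i _ ?_
        rw [H.map_sub', H.map_comp, e1, ha, sub_self]
    refine ⟨(biprod.inr ≫ k) ≫ inv (biprod.inl ≫ k), ?_⟩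
    rw [← e1, ← H.map_comp, Category.assoc, IsIso.inv_hom_id, Category.comp_id, e2]
  refine ⟨X, ξ, surj, fun t a ha => ?_⟩
  obtain ⟨C, j, δ, D⟩ := exists_cone a
  obtain ⟨ζ, hζ⟩ := H.exact D ξ ha
  obtain ⟨r, hr⟩ := surj C ζ
  have e : H.map (j ≫ r) ξ = ξ := by rw [H.map_comp, hr, hζ]
  have : IsIso (j ≫ r) := by
    refine hS.isIso _ (fun i b hb => h2 i b ?_) fun i b => ⟨b, ?_⟩
    · rw [← e, ← H.map_comp, hb, H.map_zero']
    · rw [← sub_eq_zero]
      refine h2 i _ ?_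
      rw [H.map_sub', H.map_comp, e, sub_self]
  rw [← cancel_mono (j ≫ r), ← Category.assoc, D.z12]; simp

/-- The product of representable functors. -/
def Cohom.pi {J : Type v} (t : J → T) : Cohom T where
  obj X := ∀ j, X ⟶ t j
  map f := { toFun := fun ξ j => f ≫ ξ j
             map_zero' := by ext; simp
             map_add' := by intros; ext; simp }
  map_id := by intros; ext; simp
  map_comp := by intros; ext; simp
  map_add := by intros; ext; simp
  exact H ξ hξ := by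
    have := fun j => H.desc2 (ξ j) (congrFun hξ j)
    choose q hq using this
    exact ⟨q, funext fun j => (hq j).symm⟩
  prod_ex K s ξ := ⟨fun j => Sigma.desc fun k => ξ k j, fun k => by ext; simp⟩
  prod_ext K s ζ h := funext fun j => Sigma.hom_ext _ _ fun k => by
    simpa using congrFun (h k) j

lemma IsGenFam.exists_prod (hS : IsGenFam S) {J : Type v} (t : J → T) :
    ∃ c : Fan t, Nonempty (IsLimit c) := by
  obtain ⟨X, ξ, h1, h2⟩ := hS.brown (Cohom.pi t)
  choose l hl using h1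
  refine ⟨Fan.mk X ξ, ⟨Fan.IsLimit.mk _ (fun s => l s.pt s.proj) (fun s j => congrFun (hl _ _) j)
    fun s m hm => ?_⟩⟩
  rw [← sub_eq_zero]
  refine h2 _ _ ?_
  rw [Cohom.map_sub', hl, sub_eq_zero]
  exact funext hm

/-- The character dual of a corepresentable functor. -/
noncomputable def Cohom.char {x : T} (hx : IsCompactObj x) : Cohom T where
  obj X := (x ⟶ X) →+ AddCircle (1 : ℚ)
  map f := { toFun := fun χ => χ.comp (rightComp x f)
             map_zero' := by ext; simp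
             map_add' := by intros; ext; simp }
  map_id := by intros; ext; simp [rightComp]
  map_comp := by intros; ext; simp [rightComp]
  map_add := by intros; ext; simp [rightComp]
  exact {a b c f g h} H χ hχ := by
    have hB : Module.Baer ℤ (AddCircle (1 : ℚ)) := Module.Baer.of_divisible _
    let φ : (x ⟶ b) →+ (x ⟶ c) := rightComp x g
    have hker : φ.ker ≤ χ.ker := by
      intro p hp
      obtain ⟨q, rfl⟩ := H.lift2 p hp
      exact DFunLike.congr_fun hχ q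
    let χ' : (x ⟶ b) ⧸ φ.ker →+ AddCircle (1 : ℚ) := QuotientAddGroup.lift _ χ hker
    obtain ⟨ζ, hζ⟩ := hB.extension_property_addMonoidHom (QuotientAddGroup.kerLift φ)
      (QuotientAddGroup.kerLift_injective φ) χ'
    refine ⟨ζ, ?_⟩
    ext p
    exact DFunLike.congr_fun hζ (QuotientAddGroup.mk p)
  prod_ex J t ξ := by
    classical
    have fin : ∀ p : x ⟶ ∐ t, (Function.support fun j => ξ j (p ≫ prj t j)).Finite := by
      intro p
      obtain ⟨s, -, hs⟩ := hx.exists_sum p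
      refine s.finite_toSet.subset fun j hj => ?_
      by_contra h
      exact hj (by simp [hs j h])
    refine ⟨{ toFun := fun p => ∑ᶠ j, ξ j (p ≫ prj t j)
              map_zero' := by simp
              map_add' := fun p q => by
                rw [← finsum_add_distrib (fin p) (fin q)]
                exact finsum_congr fun j => by rw [add_comp]; exact AddMonoidHom.map_add _ _ _ }, fun j => ?_⟩
    ext a
    change ∑ᶠ i, ξ i ((a ≫ Sigma.ι t j) ≫ prj t i) = ξ j a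
    rw [finsum_eq_single _ j]
    · simp [ι_prj_self]
    · intro i hi; simp [ι_prj_ne t hi.symm]
  prod_ext J t ζ h := by
    ext p
    obtain ⟨s, a, rfl⟩ := hx J t p
    rw [map_sum]
    exact Finset.sum_eq_zero fun j _ => DFunLike.congr_fun (h j) (a j)

/-- The Brown-Comenetz dual of a compact object. -/
lemma IsGenFam.exists_dual (hS : IsGenFam S) {x : T} (hx : IsCompactObj x) :
    ∃ I : T, (∀ (A : T) (f : A ⟶ I), (∀ e : x ⟶ A, e ≫ f = 0) → f = 0) ∧
      ∀ (A : T) (e : x ⟶ A), e ≠ 0 → ∃ f : A ⟶ I, f ≠ 0 := by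
  obtain ⟨I, ξ, h1, h2⟩ := hS.brown (Cohom.char hx)
  refine ⟨I, fun A f hf => h2 _ _ ?_, fun A e he => ?_⟩
  · refine AddMonoidHom.ext fun e => ?_
    change (show (x ⟶ I) →+ AddCircle (1 : ℚ) from ξ) (e ≫ f) = 0
    rw [hf, map_zero]
  · obtain ⟨χ, hχ⟩ := CharacterModule.exists_character_apply_ne_zero_of_ne_zero he
    obtain ⟨f, hf⟩ := h1 A χ
    refine ⟨f, fun h0 => hχ ?_⟩
    rw [h0, Cohom.map_zero'] at hf
    rw [← hf]; rfl

end Brown

end Pool.Agent.Lib.MP_320227_al
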