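import Mathlib

set_option autoImplicit false

open CategoryTheory CategoryTheory.Limits CategoryTheory.Pretriangulated
open CategoryTheory.MonoidalCategory ZeroObject

universe v u

namespace Pool.Agent.Lib.MP_320227_al

variable {T : Type u} [Category.{v} T] [Preadditive T] [HasZeroObject T] [HasShift T ℤ]
  [∀ n : ℤ, (shiftFunctor T n).Additive] [Pretriangulated T] [HasCoproducts.{v} T]

/-- An object `x` is compact if `Hom(x, -)` preserves small coproducts, that is, if the (always
injective) canonical map from the direct sum of the groups `Hom(x, t j)` to `Hom(x, ∐ t)` is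
surjective. -/
def IsCompactObj (x : T) : Prop :=
  ∀ (J : Type v) (t : J → T) (f : x ⟶ ∐ t),
    ∃ (s : Finset J) (a : ∀ j, x ⟶ t j), f = ∑ j ∈ s, a j ≫ Sigma.ι t j

variable (T) in
/-- `T` is compactly generated: there is a small family of compact objects such that an object
receiving no nonzero map from a shift of a member of the family is zero. -/
def IsCompactlyGenerated : Prop :=
  ∃ (ι : Type v) (G : ι → T), (∀ i, IsCompactObj (G i)) ∧
    ∀ t : T, (∀ (i : ι) (n : ℤ) (f : (G i)⟦n⟧ ⟶ t), f = 0) → IsZero t

/-- A (strictly full) triangulated subcategory, given by its class of objects. -/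
structure IsTriangSub (L : Set T) : Prop where
  zero : (0 : T) ∈ L
  iso : ∀ a b : T, Nonempty (a ≅ b) → a ∈ L → b ∈ L
  shift : ∀ a ∈ L, a⟦(1 : ℤ)⟧ ∈ L
  unshift : ∀ a ∈ L, a⟦(-1 : ℤ)⟧ ∈ L
  cone : ∀ D ∈ distTriang T, D.obj₁ ∈ L → D.obj₂ ∈ L → D.obj₃ ∈ L

/-- A localizing subcategory: a triangulated subcategory closed under small coproducts. -/
structure IsLocalizing (L : Set T) : Prop where
  triang : IsTriangSub L
  coprod : ∀ (J : Type v) (t : J → T), (∀ j, t j ∈ L) → ∐ t ∈ L

/-- The localizing subcategory generated by a class of objects. -/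
def Loc (S : Set T) : Set T := ⋂₀ {L | IsLocalizing L ∧ S ⊆ L}

variable [MonoidalCategory T]

/-- An object is rigid (dualizable) if it has a dual, with evaluation and coevaluation maps
satisfying the triangle identities. -/
def IsRigidObj (x : T) : Prop := ∃ y : T, Nonempty (ExactPairing x y)

variable (T) in
/-- `T` is rigidly-compactly generated: compactly generated, the unit is compact, and the compact
objects are exactly the rigid ones. -/
structure IsRigidlyCompactlyGenerated : Prop where
  gen : IsCompactlyGenerated T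
  unit : IsCompactObj (𝟙_ T)
  rigid : ∀ x : T, IsCompactObj x ↔ IsRigidObj x

/-- A localizing ideal: a localizing subcategory closed under tensoring with all objects. -/
structure IsLocalizingIdeal (L : Set T) : Prop where
  loc : IsLocalizing L
  tensor : ∀ s : T, ∀ t ∈ L, s ⊗ t ∈ L

/-- A colocalizing coideal: a triangulated subcategory closed under small products and under the
internal hom functors `[s, -]`. -/
structure IsColocalizingCoideal [MonoidalClosed T] (C : Set T) : Prop where
  triang : IsTriangSub C
  prod : ∀ (J : Type v) (t : J → T) (c : Fan t), Nonempty (IsLimit c) → (∀ j, t j ∈ C) → c.pt ∈ C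
  hom : ∀ s : T, ∀ t ∈ C, (ihom s).obj t ∈ C

/-- A prime of the category of compact objects: a proper thick tensor ideal `P` of the compact
objects such that `a ⊗ b ∈ P` forces `a ∈ P` or `b ∈ P`. -/
structure IsPrimeIdeal (P : Set T) : Prop where
  compact : ∀ a ∈ P, IsCompactObj a
  triang : IsTriangSub P
  thick : ∀ a b : T, (a ⊞ b) ∈ P → a ∈ P
  ideal : ∀ a : T, IsCompactObj a → ∀ b ∈ P, a ⊗ b ∈ P
  proper : ∃ a : T, IsCompactObj a ∧ a ∉ P
  prime : ∀ a b : T, IsCompactObj a → IsCompactObj b → a ⊗ b ∈ P → a ∈ P ∨ b ∈ P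

variable (T) in
/-- The Balmer spectrum of the compact objects of `T`, as a set. -/
def Spc : Type u := {P : Set T // IsPrimeIdeal P}

/-- The Balmer support of an object. -/
def supp (a : T) : Set (Spc T) := {P | a ∉ P.1}

/-- The Balmer topology: the supports of compact objects form a basis of closed sets. -/
instance spcTopology : TopologicalSpace (Spc T) :=
  TopologicalSpace.generateFrom {U | ∃ a : T, IsCompactObj a ∧ U = (supp a)ᶜ}

/-- A Thomason subset: a union of closed sets with quasi-compact complement. -/
def IsThomason (Y : Set (Spc T)) : Prop :=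
  ∃ S : Set (Set (Spc T)), (∀ V ∈ S, IsClosed V ∧ IsCompact Vᶜ) ∧ Y = ⋃₀ S

variable (T) in
/-- The spectrum is weakly noetherian: every point is the intersection of a Thomason subset with
the complement of a Thomason subset. -/
def IsWeaklyNoetherian : Prop :=
  ∀ P : Spc T, ∃ Y Z : Set (Spc T), IsThomason Y ∧ IsThomason Z ∧ {P} = Y ∩ Zᶜ

/-- `e ⟶ 1 ⟶ f ⟶ e[1]` is an idempotent triangle (distinguished, `e ⊗ f = 0`) such that `e ⊗ T` is
the localizing subcategory generated by the compact objects supported in `Y`. -/
def IsIdempotentTriangle (Y : Set (Spc T)) (e f : T) : Prop :=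
  (∃ (a : e ⟶ 𝟙_ T) (b : 𝟙_ T ⟶ f) (c : f ⟶ e⟦(1 : ℤ)⟧), Triangle.mk a b c ∈ distTriang T) ∧
    IsZero (e ⊗ f) ∧
    {t : T | ∃ s : T, Nonempty (t ≅ e ⊗ s)} = Loc {a : T | IsCompactObj a ∧ supp a ⊆ Y}

/-- `g` is the object `e_Y ⊗ f_Z` for some Thomason subsets `Y`, `Z` with `{P} = Y ∩ Zᶜ`. -/
def IsPointObj (P : Spc T) (g : T) : Prop :=
  ∃ (Y Z : Set (Spc T)) (eY fY eZ fZ : T), IsThomason Y ∧ IsThomason Z ∧ {P} = Y ∩ Zᶜ ∧
    IsIdempotentTriangle Y eY fY ∧ IsIdempotentTriangle Z eZ fZ ∧ g = eY ⊗ fZ

/-- The support of a big object, computed with the family `g`. -/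
def Supp (g : Spc T → T) (t : T) : Set (Spc T) := {P | ¬ IsZero (g P ⊗ t)}

/-- The cosupport of a big object, computed with the family `g`. -/
def Cosupp [MonoidalClosed T] (g : Spc T → T) (t : T) : Set (Spc T) :=
  {P | ¬ IsZero ((ihom (g P)).obj t)}

/-- `T` is stratified: support is a bijection from localizing ideals to subsets of the spectrum. -/
def IsStratified (g : Spc T → T) : Prop :=
  Set.BijOn (fun L : Set T => ⋃ t ∈ L, Supp g t) {L | IsLocalizingIdeal L} Set.univ

/-- `T` is costratified: cosupport is a bijection from colocalizing coideals to subsets of the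
spectrum. -/
def IsCostratified [MonoidalClosed T] (g : Spc T → T) : Prop :=
  Set.BijOn (fun C : Set T => ⋃ t ∈ C, Cosupp g t) {C | IsColocalizingCoideal C} Set.univ

end Pool.Agent.Lib.MP_320227_al
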