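import Pool.Agent.Lib.MP_320227_al.Spectrum

set_option autoImplicit false
set_option linter.unusedSectionVars false

open CategoryTheory CategoryTheory.Limits CategoryTheory.Pretriangulated
open CategoryTheory.Preadditive CategoryTheory.MonoidalCategory ZeroObject

universe v u

namespace Pool.Agent.Lib.MP_320227_al

variable {T : Type u} [Category.{v} T] [Preadditive T] [HasZeroObject T] [HasShift T ℤ]
  [∀ n : ℤ, (shiftFunctor T n).Additive] [Pretriangulated T] [HasCoproducts.{v} T]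
  [MonoidalCategory T] [SymmetricCategory T] [MonoidalClosed T] [MonoidalPreadditive T]
  {ι : Type v} {S : ι → T}

lemma swapIso_nat (a b : T) {x x' : T} (φ : x ⟶ x') :
    (swapIso a b x).hom ≫ b ◁ a ◁ φ = a ◁ b ◁ φ ≫ (swapIso a b x').hom := by
  simp only [swapIso, Iso.trans_hom, Iso.symm_hom, whiskerRightIso_hom, Category.assoc]
  rw [← associator_naturality_right, ← whisker_exchange_assoc,
    ← associator_inv_naturality_right_assoc]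

section Ann

variable {x x' V : T} {φ : x ⟶ x'}

lemma wl_iff_wr : V ◁ φ = 0 ↔ φ ▷ V = 0 := by
  constructor
  · intro h
    rw [← cancel_mono (β_ x' V).hom, BraidedCategory.braiding_naturality_left, h]; simp
  · intro h
    rw [← cancel_mono (β_ V x').hom, BraidedCategory.braiding_naturality_right, h]; simp

lemma wl_iso {V' : T} (e : V ≅ V') (h : V ◁ φ = 0) : V' ◁ φ = 0 := by
  rw [← cancel_epi (e.hom ▷ x), ← whisker_exchange, h]; simp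

lemma wl_tensor (h : V ◁ φ = 0) (z : T) : (z ⊗ V) ◁ φ = 0 := by
  rw [tensor_whiskerLeft, h]; simp

lemma wl_wl (h : V ◁ φ = 0) (s : T) : V ◁ s ◁ φ = 0 := by
  have := wl_iso (β_ s V) (wl_tensor h s)
  rw [tensor_whiskerLeft] at this
  simpa using this

lemma TT.ann_iff (hT : TT S) (hx' : IsCompactObj x') :
    V ◁ φ = 0 ↔ ∀ (s : T) (a : s ⊗ x' ⟶ V), s ◁ φ ≫ a = 0 := by
  obtain ⟨z, -, ⟨D⟩, ⟨D'⟩⟩ := hT.dual hx'
  constructor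
  · intro h s a
    have h1 : φ ▷ s ≫ (β_ x' s).hom ≫ a = 0 := by
      rw [D'.eq_left ((β_ x' s).hom ≫ a), ← whisker_exchange_assoc,
        wl_iff_wr.1 (wl_tensor h z)]
      simp
    rw [BraidedCategory.braiding_naturality_left_assoc] at h1
    simpa using h1
  · intro h
    have h1 := h (z ⊗ V) ((α_ _ _ _).hom ≫ z ◁ (β_ V x').hom ≫ D.co V)
    rw [associator_naturality_right_assoc, ← MonoidalCategory.whiskerLeft_comp_assoc,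
      BraidedCategory.braiding_naturality_right, MonoidalCategory.whiskerLeft_comp_assoc] at h1
    have h2 : z ◁ φ ▷ V ≫ D.co V = 0 := by simpa using h1
    rw [wl_iff_wr, D.eq_right (φ ▷ V), h2]; simp

lemma TT.ann_ihom_right (hT : TT S) (hx' : IsCompactObj x') (h : V ◁ φ = 0) (w : T) :
    (ihom w).obj V ◁ φ = 0 := by
  rw [hT.ann_iff hx'] at h ⊢
  intro s a
  rw [← uncurry_eq_zero, MonoidalClosed.uncurry_natural_left, ← cancel_epi (α_ w s x).hom,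
    ← associator_naturality_right_assoc, h, comp_zero]

lemma TT.ann_ihom_left (hT : TT S) (hx' : IsCompactObj x') (h : V ◁ φ = 0) (t : T) :
    (ihom V).obj t ◁ φ = 0 := by
  rw [hT.ann_iff hx']
  intro s a
  rw [← uncurry_eq_zero, MonoidalClosed.uncurry_natural_left, wl_wl h, zero_comp]

end Ann

/-- A saturated tensor ideal of maps between compact objects. -/
structure Sat (𝓙 : Set (Arrow T)) : Prop where
  src : ∀ {x y : T} {φ : x ⟶ y}, Arrow.mk φ ∈ 𝓙 → IsCompactObj x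
  tgt : ∀ {x y : T} {φ : x ⟶ y}, Arrow.mk φ ∈ 𝓙 → IsCompactObj y
  zero : ∀ {x y : T}, IsCompactObj x → IsCompactObj y → Arrow.mk (0 : x ⟶ y) ∈ 𝓙
  add : ∀ {x y : T} {φ ψ : x ⟶ y}, Arrow.mk φ ∈ 𝓙 → Arrow.mk ψ ∈ 𝓙 → Arrow.mk (φ + ψ) ∈ 𝓙
  pre : ∀ {w x y : T} (f : w ⟶ x) {φ : x ⟶ y}, IsCompactObj w → Arrow.mk φ ∈ 𝓙 →
    Arrow.mk (f ≫ φ) ∈ 𝓙
  post : ∀ {x y z : T} {φ : x ⟶ y} (f : y ⟶ z), IsCompactObj z → Arrow.mk φ ∈ 𝓙 →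
    Arrow.mk (φ ≫ f) ∈ 𝓙
  whisk : ∀ (w : T) {x y : T} {φ : x ⟶ y}, IsCompactObj w → Arrow.mk φ ∈ 𝓙 →
    Arrow.mk (w ◁ φ) ∈ 𝓙
  sat : ∀ {a b c d : T} {i : a ⟶ b} {f : b ⟶ c} {h : c ⟶ a⟦(1 : ℤ)⟧} {p : b ⟶ d}, Dist i f h →
    Arrow.mk f ∈ 𝓙 → Arrow.mk (i ≫ p) ∈ 𝓙 → Arrow.mk p ∈ 𝓙

/-- The maps between compact objects killed by tensoring with `V`. -/
def Ann (V : T) : Set (Arrow T) :=
  {a | IsCompactObj a.left ∧ IsCompactObj a.right ∧ V ◁ a.hom = 0}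

lemma mem_ann {V x y : T} {φ : x ⟶ y} :
    Arrow.mk φ ∈ Ann V ↔ IsCompactObj x ∧ IsCompactObj y ∧ V ◁ φ = 0 := Iff.rfl

lemma TT.sat_ann (hT : TT S) (V : T) : Sat (Ann V) where
  src h := h.1
  tgt h := h.2.1
  zero hx hy := mem_ann.2 ⟨hx, hy, by simp⟩
  add h1 h2 := by
    rw [mem_ann] at h1 h2 ⊢
    exact ⟨h1.1, h1.2.1, by rw [MonoidalPreadditive.whiskerLeft_add, h1.2.2, h2.2.2, add_zero]⟩
  pre f _ hw h := by
    rw [mem_ann] at h ⊢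
    exact ⟨hw, h.2.1, by rw [MonoidalCategory.whiskerLeft_comp, h.2.2, comp_zero]⟩
  post f hz h := by
    rw [mem_ann] at h ⊢
    exact ⟨h.1, hz, by rw [MonoidalCategory.whiskerLeft_comp, h.2.2, zero_comp]⟩
  whisk w _ _ _ hw h := by
    rw [mem_ann] at h ⊢
    exact ⟨hT.tensor hw h.1, hT.tensor hw h.2.1, wl_wl h.2.2 w⟩
  sat H h1 h2 := by
    rw [mem_ann] at h1 h2 ⊢
    obtain ⟨_, H'⟩ := hT.distL V H
    obtain ⟨q, hq⟩ := H'.lift2 (𝟙 _) (by rw [h1.2.2, comp_zero])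
    refine ⟨h1.1, h2.2.1, ?_⟩
    rw [← Category.id_comp (V ◁ _), hq, Category.assoc, ← MonoidalCategory.whiskerLeft_comp,
      h2.2.2, comp_zero]

lemma exists_max_sat {𝓙₀ : Set (Arrow T)} (h0 : Sat 𝓙₀) {c : T} (hc : Arrow.mk (𝟙 c) ∉ 𝓙₀) :
    ∃ 𝓙 : Set (Arrow T), Sat 𝓙 ∧ 𝓙₀ ⊆ 𝓙 ∧ Arrow.mk (𝟙 c) ∉ 𝓙 ∧
      ∀ 𝓚 : Set (Arrow T), Sat 𝓚 → 𝓙 ⊆ 𝓚 → Arrow.mk (𝟙 c) ∉ 𝓚 → 𝓚 ⊆ 𝓙 := by
  obtain ⟨m, hm0, hm⟩ := zorn_subset_nonempty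
    {𝓙 : Set (Arrow T) | Sat 𝓙 ∧ Arrow.mk (𝟙 c) ∉ 𝓙} (by
    intro ch hch hchain hne
    have two : ∀ a b : Arrow T, a ∈ ⋃₀ ch → b ∈ ⋃₀ ch → ∃ J ∈ ch, a ∈ J ∧ b ∈ J := by
      rintro a b ⟨J, hJ, ha⟩ ⟨J', hJ', hb⟩
      rcases hchain.total hJ hJ' with h | h
      · exact ⟨J', hJ', h ha, hb⟩
      · exact ⟨J, hJ, ha, h hb⟩
    refine ⟨⋃₀ ch, ⟨⟨?_, ?_, ?_, ?_, ?_, ?_, ?_, ?_⟩, ?_⟩,
      fun s hs => Set.subset_sUnion_of_mem hs⟩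
    · rintro x y φ ⟨J, hJ, h⟩; exact (hch hJ).1.src h
    · rintro x y φ ⟨J, hJ, h⟩; exact (hch hJ).1.tgt h
    · intro x y hx hy
      obtain ⟨J, hJ⟩ := hne
      exact ⟨J, hJ, (hch hJ).1.zero hx hy⟩
    · intro x y φ ψ h1 h2
      obtain ⟨J, hJ, h1, h2⟩ := two _ _ h1 h2
      exact ⟨J, hJ, (hch hJ).1.add h1 h2⟩
    · rintro w x y f φ hw ⟨J, hJ, h⟩; exact ⟨J, hJ, (hch hJ).1.pre f hw h⟩
    · rintro x y z φ f hz ⟨J, hJ, h⟩; exact ⟨J, hJ, (hch hJ).1.post f hz h⟩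
    · rintro w x y φ hw ⟨J, hJ, h⟩; exact ⟨J, hJ, (hch hJ).1.whisk w hw h⟩
    · intro a b c d i f h p H h1 h2
      obtain ⟨J, hJ, h1, h2⟩ := two _ _ h1 h2
      exact ⟨J, hJ, (hch hJ).1.sat H h1 h2⟩
    · rintro ⟨J, hJ, h⟩; exact (hch hJ).2 h) 𝓙₀ ⟨h0, hc⟩
  exact ⟨m, hm.prop.1, hm0, hm.prop.2, fun 𝓚 h1 h2 h3 => hm.le_of_ge ⟨h1, h3⟩ h2⟩

section Tor

variable {𝓙 : Set (Arrow T)}

lemma Sat.whiskR (h𝓙 : Sat 𝓙) (hT : TT S) (w : T) {x y : T} {φ : x ⟶ y} (hw : IsCompactObj w)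
    (h : Arrow.mk φ ∈ 𝓙) : Arrow.mk (φ ▷ w) ∈ 𝓙 := by
  have e : φ ▷ w = (β_ x w).hom ≫ w ◁ φ ≫ (β_ y w).inv := by
    rw [← BraidedCategory.braiding_naturality_left_assoc]; simp
  rw [e]
  exact h𝓙.pre _ (hT.tensor (h𝓙.src h) hw) (h𝓙.post _ (hT.tensor (h𝓙.tgt h) hw)
    (h𝓙.whisk w hw h))

variable (𝓙) in
/-- Maps factoring through a map of the ideal. -/
def Tor {y w : T} (a : y ⟶ w) : Prop :=
  ∃ (z : T) (φ : y ⟶ z) (a' : z ⟶ w), Arrow.mk φ ∈ 𝓙 ∧ φ ≫ a' = a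

lemma Sat.tor_zero (h𝓙 : Sat 𝓙) {y : T} (hy : IsCompactObj y) (w : T) : Tor 𝓙 (0 : y ⟶ w) :=
  ⟨y, 0, 0, h𝓙.zero hy hy, by simp⟩

lemma Sat.tor_add (h𝓙 : Sat 𝓙) {y w : T} {a b : y ⟶ w} (ha : Tor 𝓙 a) (hb : Tor 𝓙 b) :
    Tor 𝓙 (a + b) := by
  obtain ⟨z, φ, a', hφ, rfl⟩ := ha
  obtain ⟨z', φ', b', hφ', rfl⟩ := hb
  have hz := (h𝓙.tgt hφ).biprod (h𝓙.tgt hφ')
  exact ⟨z ⊞ z', φ ≫ biprod.inl + φ' ≫ biprod.inr, biprod.desc a' b',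
    h𝓙.add (h𝓙.post _ hz hφ) (h𝓙.post _ hz hφ'), by simp⟩

lemma Sat.tor_sat (h𝓙 : Sat 𝓙) {y' y z w : T} {j : y' ⟶ y} {φ : y ⟶ z} {h : z ⟶ y'⟦(1 : ℤ)⟧}
    (H : Dist j φ h) (hφ : Arrow.mk φ ∈ 𝓙) {a : y ⟶ w} (ha : Tor 𝓙 (j ≫ a)) : Tor 𝓙 a := by
  obtain ⟨z₁, ψ, b, hψ, hb⟩ := ha
  obtain ⟨z₂, p, l, H'⟩ := exists_cone (biprod.lift j (-ψ))
  have hz₂ : IsCompactObj z₂ :=
    IsCompactObj.third H' (h𝓙.src hψ) ((h𝓙.src hφ).biprod (h𝓙.tgt hψ))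
  obtain ⟨q, hq⟩ := H'.desc2 (biprod.desc a b) (by simp [hb])
  have e : j ≫ biprod.inl ≫ p = ψ ≫ biprod.inr ≫ p := by
    have := H'.z12
    rw [biprod.lift_eq, add_comp, neg_comp, neg_comp, add_neg_eq_zero] at this
    simpa using this
  refine ⟨z₂, biprod.inl ≫ p, q, h𝓙.sat H hφ ?_, ?_⟩
  · rw [e]; exact h𝓙.post _ hz₂ hψ
  · rw [Category.assoc, ← hq]; simp

theorem TT.exists_free (hT : TT S) (h𝓙 : Sat 𝓙) {c : T} (hc : IsCompactObj c)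
    (hc' : Arrow.mk (𝟙 c) ∉ 𝓙) : ∃ (w : T) (e : c ⟶ w), e ≠ 0 ∧
      ∀ {x x' : T} (φ : x ⟶ x') (a : x' ⟶ w), Arrow.mk φ ∈ 𝓙 → φ ≫ a = 0 := by
  classical
  have step : ∀ w : T, ∃ (w' : T) (t : w ⟶ w'),
      (∀ {x x' : T} (φ : x ⟶ x') (a : x' ⟶ w), Arrow.mk φ ∈ 𝓙 → φ ≫ a ≫ t = 0) ∧
      ∀ {y : T} (a : y ⟶ w), Tor 𝓙 (a ≫ t) → Tor 𝓙 a := by
    intro w
    let J := Σ i, {a : S i ⟶ w // Tor 𝓙 a}
    let K : J → T := fun q => S q.1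
    let k : ∐ K ⟶ w := Sigma.desc fun q => q.2.1
    obtain ⟨w', t, δ, H⟩ := exists_cone k
    refine ⟨w', t, fun {x x'} φ a hφ => ?_, fun {y} a ha => ?_⟩
    · obtain ⟨i, ⟨e⟩⟩ := hT.cpt.all x (h𝓙.src hφ)
      have h1 : Tor 𝓙 (e.inv ≫ φ ≫ a) :=
        ⟨x', e.inv ≫ φ, a, h𝓙.pre _ (hT.cpt.gen.compact i) hφ, by simp⟩
      have h2 : e.inv ≫ φ ≫ a = Sigma.ι K ⟨i, _, h1⟩ ≫ k := by simp [k]
      have h3 : (e.inv ≫ φ ≫ a) ≫ t = 0 := by rw [h2, Category.assoc, H.z12, comp_zero]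
      simpa using h3
    · obtain ⟨z, φ, a', hφ, ha⟩ := ha
      obtain ⟨y', j, l, H'⟩ := exists_fib φ
      have hy' : IsCompactObj y' := IsCompactObj.first H' (h𝓙.src hφ) (h𝓙.tgt hφ)
      refine h𝓙.tor_sat H' hφ ?_
      obtain ⟨q, hq⟩ := H.lift2 (j ≫ a) (by
        rw [Category.assoc, ← ha, ← Category.assoc, H'.z12, zero_comp])
      obtain ⟨s, b, rfl⟩ := hy' J K q
      rw [hq]
      clear hq
      induction s using Finset.induction_on with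
      | empty => simpa using h𝓙.tor_zero hy' w
      | insert r s hr ih =>
        rw [Finset.sum_insert hr, add_comp]
        refine h𝓙.tor_add ?_ ih
        obtain ⟨z', ψ, b', hψ, hb'⟩ := r.2.2
        exact ⟨z', b r ≫ ψ, b', h𝓙.pre _ hy' hψ, by simp [k, hb']⟩
  obtain ⟨s, t, hs0, hs⟩ := exists_seq (St := T) (fun w => w) _ step c
  subst hs0
  obtain ⟨w, j, hw⟩ := exists_hocolim s t
  refine ⟨w, j 0, fun h0 => hc' ?_, fun φ a hφ => ?_⟩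
  · obtain ⟨b, hb0, hb, N, hN⟩ := hw.ker _ hc (𝟙 _) (by rw [h0, comp_zero])
    have key : ∀ n, Tor 𝓙 (b n) → Tor 𝓙 (b 0) := by
      intro n
      induction n with
      | zero => exact id
      | succ n ih => exact fun h => ih ((hs n).2 _ (hb n ▸ h))
    obtain ⟨z, φ, a', hφ, e⟩ := key N (hN ▸ h𝓙.tor_zero hc _)
    rw [← hb0, ← e]
    exact h𝓙.post _ hc hφ
  · obtain ⟨n, a', rfl⟩ := hw.fac _ (h𝓙.tgt hφ) a
    rw [← hw.comm, ← Category.assoc a', ← Category.assoc, (hs n).1 φ a' hφ, zero_comp]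

theorem TT.exists_pi [IsTriangulated T] (hT : TT S) (h𝓙 : Sat 𝓙) {c : T} (hc : IsCompactObj c)
    (hc' : Arrow.mk (𝟙 c) ∉ 𝓙) : ∃ J : T, SPI J ∧ ¬ IsZero (c ⊗ J) ∧ 𝓙 ⊆ Ann J := by
  obtain ⟨w, e, he, hw⟩ := hT.exists_free h𝓙 hc hc'
  obtain ⟨I, hI, -, hI2⟩ := hT.exists_dual
  have hw' : ∀ (u : T), IsCompactObj u → ∀ {x x' : T} (φ : x ⟶ x') (a : x' ⟶ u ⊗ w),
      Arrow.mk φ ∈ 𝓙 → φ ≫ a = 0 := by
    intro u hu x x' φ a hφ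
    obtain ⟨u', hu', ⟨D⟩, -⟩ := hT.dual hu
    rw [D.eq_right (φ ≫ a), MonoidalCategory.whiskerLeft_comp u', Category.assoc,
      hw _ _ (h𝓙.whisk u' hu' hφ)]
    simp
  refine ⟨(ihom w).obj I, hI.ihom w, fun h0 => he ?_, fun a ha => ?_⟩
  · obtain ⟨c', -, ⟨D⟩, ⟨D'⟩⟩ := hT.dual hc
    have h1 : ∀ f : c' ⊗ w ⟶ I, f = 0 := by
      intro f
      have h2 : (ρ_ c').hom ≫ MonoidalClosed.curry ((β_ w c').hom ≫ f) = 0 := by
        rw [D.eq_left (_ ≫ _), h0.eq_of_tgt (D.un _ ≫ _) 0]; simp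
      have h3 : MonoidalClosed.curry ((β_ w c').hom ≫ f) = 0 := by simpa using h2
      rw [← uncurry_eq_zero, MonoidalClosed.uncurry_curry] at h3
      simpa using h3
    have h2 : ∀ r : 𝟙_ T ⟶ c' ⊗ w, r = 0 := by
      intro r
      by_contra hr
      obtain ⟨f, hf⟩ := hI2 _ r hr
      exact hf (h1 f)
    have h3 : (ρ_ c).hom ≫ e = 0 := by
      rw [D'.eq_left (_ ≫ e), h2 (D'.un _ ≫ _)]; simp
    simpa using h3
  · obtain ⟨x, x', φ, rfl⟩ : ∃ (x x' : T) (φ : x ⟶ x'), a = Arrow.mk φ := ⟨_, _, a.hom, rfl⟩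
    have hx := h𝓙.src ha
    have hx' := h𝓙.tgt ha
    refine mem_ann.2 ⟨hx, hx', (hT.ann_iff hx').2 fun s b => ?_⟩
    have kill : ∀ y : T, IsCompactObj y → ∀ r : y ⟶ w ⊗ x, r ≫ w ◁ φ = 0 := by
      intro y hy r
      obtain ⟨z, hz, ⟨D⟩, -⟩ := hT.dual hx
      rw [← cancel_mono (β_ w x').hom, Category.assoc,
        BraidedCategory.braiding_naturality_right, ← Category.assoc,
        D.eq_right (r ≫ _), Category.assoc, whisker_exchange,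
        hw' x' hx' _ _ (h𝓙.whiskR hT _ (hT.tensor hz hy) ha)]
      simp
    rw [← uncurry_eq_zero, MonoidalClosed.uncurry_natural_left,
      ← cancel_epi (swapIso s w x).hom, comp_zero]
    rw [← Category.assoc, swapIso_nat, Category.assoc]
    refine hI _ _ _ fun y hy r => ?_
    rw [← MonoidalCategory.whiskerLeft_comp_assoc, kill y hy r]
    simp

end Tor

end Pool.Agent.Lib.MP_320227_al
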