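import Pool.Agent.Lib.MP_320227_al.Detect

set_option autoImplicit false
set_option linter.unusedSectionVars false

open CategoryTheory CategoryTheory.Limits CategoryTheory.Pretriangulated
open CategoryTheory.Preadditive CategoryTheory.MonoidalCategory ZeroObject

universe v u

namespace Pool.Agent.Lib.MP_320227_al

variable {T : Type u} [Category.{v} T] [Preadditive T] [HasZeroObject T] [HasShift T ℤ]
  [∀ n : ℤ, (shiftFunctor T n).Additive] [Pretriangulated T] [HasCoproducts.{v} T]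
  [MonoidalCategory T] [SymmetricCategory T] [MonoidalClosed T] [MonoidalPreadditive T]
  {ι : Type v} {S : ι → T} {g : Spc T → T}

lemma TT.extClosed_supp (hT : TT S) (X : Set (Spc T)) :
    ExtClosed {w : T | ∀ Q ∉ X, IsZero (g Q ⊗ w)} :=
  have h := fun Q => isZero_localizing.extClosed.comap (hT.exact (g Q))
  { zero := fun a ha Q _ => (h Q).zero a ha
    iso := fun e ha Q hQ => (h Q).iso e (ha Q hQ)
    ext := fun H h1 h2 Q hQ => (h Q).ext H (h1 Q hQ) (h2 Q hQ)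
    coprod := fun J t ht Q hQ => (h Q).coprod J t fun j => ht j Q hQ }

lemma TT.mem_of_supp (hT : TT S) (hs : IsStratified g) {L : Set T} (hL : IsLocalizingIdeal L)
    {s : T} (h : ∀ P, ¬ IsZero (g P ⊗ s) → ∃ t ∈ L, ¬ IsZero (g P ⊗ t)) : s ∈ L := by
  have hL' := hT.idealCore (hT.extClosed_supp (g := g) (⋃ t ∈ L, Supp g t))
  have e := hs.injOn hL hL' (by
    refine Set.Subset.antisymm ?_ ?_
    · refine Set.biUnion_subset_biUnion_left fun w hw a Q hQ => ?_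
      by_contra hn
      exact hQ (Set.mem_biUnion (hL.tensor a w hw) hn)
    · refine Set.iUnion₂_subset fun w hw Q hQ => ?_
      by_contra hn
      exact hQ ((hw (𝟙_ T) Q hn).of_iso (whiskerLeftIso _ (λ_ w).symm)))
  rw [e]
  intro a Q hQ
  have : IsZero (g Q ⊗ s) := by
    by_contra hn
    obtain ⟨t, ht, ht'⟩ := h Q hn
    exact hQ (Set.mem_biUnion ht ht')
  exact (isZero_tensor_right a this).of_iso (swapIso _ _ _)

lemma TT.supp_ne (hT : TT S) (hs : IsStratified g) {s : T} (h : ∀ P, IsZero (g P ⊗ s)) :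
    IsZero s :=
  hT.mem_of_supp hs (L := {x | IsZero x})
    ⟨isZero_localizing, fun a _ ht => isZero_tensor_right a ht⟩ fun P hP => absurd (h P) hP

lemma IsStratified.ne_zero (hs : IsStratified g) (P : Spc T) : ¬ IsZero (g P) := by
  obtain ⟨L, -, hL⟩ := hs.surjOn (Set.mem_univ {P})
  have : P ∈ ⋃ t ∈ L, Supp g t := by
    have h := Set.mem_singleton P
    rw [← hL] at h
    exact h
  obtain ⟨t, -, ht⟩ := Set.mem_iUnion₂.1 this
  exact fun h => ht (isZero_tensor_left h t)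

lemma TT.perp_ideal (hT : TT S) (t : T) :
    IsLocalizingIdeal {w : T | ∀ (s : T) (f : s ⊗ w ⟶ t), f = 0} :=
  hT.idealCore (perp_extClosed t)

lemma isZero_ihom_iff' (a t : T) :
    IsZero ((ihom a).obj t) ↔ ∀ (s : T) (f : s ⊗ a ⟶ t), f = 0 := by
  rw [isZero_ihom_iff]
  exact ⟨fun h s f => by simpa using h s ((β_ a s).hom ≫ f),
    fun h s f => by simpa using h s ((β_ s a).hom ≫ f)⟩

lemma TT.hom_zero (hT : TT S) (hg : ∀ P, IsPointObj P (g P)) (hs : IsStratified g) {s t : T}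
    (h : ∀ P, ¬ IsZero (g P ⊗ s) → IsZero ((ihom (g P)).obj t)) (f : s ⟶ t) : f = 0 := by
  have := hT.mem_of_supp hs (hT.perp_ideal t) (s := s) fun P hP =>
    ⟨g P, (isZero_ihom_iff' _ _).1 (h P hP), fun h0 =>
      ((hg P).idem hT).elim fun e => hs.ne_zero P (h0.of_iso e.symm)⟩
  simpa using this (𝟙_ T) ((λ_ s).hom ≫ f)

lemma TT.mem_of_point (hT : TT S) (hs : IsStratified g) {L : Set T} (hL : IsLocalizingIdeal L)
    {P : Spc T} {w : T} (hw : w ∈ L) (hP : ¬ IsZero (g P ⊗ w)) {s : T}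
    (h : ∀ Q, Q ≠ P → IsZero (g Q ⊗ s)) : s ∈ L :=
  hT.mem_of_supp hs hL fun Q hQ => by
    obtain rfl : Q = P := by
      by_contra hn
      exact hQ (h Q hn)
    exact ⟨w, hw, hP⟩

lemma absorb_ihom {E V : T} (η : 𝟙_ T ⟶ E) (act : V ⊗ E ⟶ V) (h : V ◁ η ≫ act = (ρ_ V).hom)
    (t : T) : ∃ act' : (ihom V).obj t ⊗ E ⟶ (ihom V).obj t,
      (ihom V).obj t ◁ η ≫ act' = (ρ_ _).hom := by
  refine ⟨MonoidalClosed.curry (V ◁ (β_ _ E).hom ≫ (α_ _ _ _).inv ≫ act ▷ _ ≫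
    (ihom.ev V).app t), ?_⟩
  rw [← MonoidalClosed.curry_natural_left, MonoidalClosed.curry_eq_iff,
    MonoidalClosed.uncurry_eq, ← MonoidalCategory.whiskerLeft_comp_assoc,
    BraidedCategory.braiding_naturality_right, MonoidalCategory.whiskerLeft_comp_assoc,
    associator_inv_naturality_middle_assoc, ← comp_whiskerRight_assoc, h,
    triangle_assoc_comp_right_assoc, ← MonoidalCategory.whiskerLeft_comp_assoc,
    braiding_leftUnitor]

theorem TT.local_data [IsTriangulated T] (hT : TT S) (hg : ∀ P, IsPointObj P (g P))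
    (hs : IsStratified g) (P : Spc T) :
    ∃ (c E : T) (η : 𝟙_ T ⟶ E), IsCompactObj c ∧ c ◁ η ≠ 0 ∧
      (∀ Q, Q ≠ P → IsZero (g Q ⊗ c ⊗ E)) ∧ SPI E ∧
      ∀ t : T, ¬ IsZero ((ihom (g P)).obj t) →
        ∃ (s s' : T) (θ : E ⟶ (ihom s).obj ((ihom s').obj t)),
          ∀ y : T, IsCompactObj y → ∀ β : y ⟶ 𝟙_ T, β ≫ η ≫ θ = 0 → β ≫ η = 0 := by
  obtain ⟨c, hc, hc1, hc2⟩ := (hg P).exists_compact hT (hs.ne_zero P)
  have idz : ∀ V d : T, V ◁ 𝟙 d = 0 ↔ IsZero (V ⊗ d) := fun V d => by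
    rw [IsZero.iff_id_eq_zero, MonoidalCategory.whiskerLeft_id]
  obtain ⟨𝓙, h𝓙, h0, hc', hmax⟩ := exists_max_sat (hT.sat_ann (g P)) (c := c)
    fun h => hc1 ((idz _ _).1 (mem_ann.1 h).2.2)
  obtain ⟨J, hJ, hcJ, hJ'⟩ := hT.exists_pi h𝓙 hc hc'
  let η : 𝟙_ T ⟶ (ihom J).obj J := MonoidalClosed.curry (ρ_ J).hom
  have hη : J ◁ η ≫ (ihom.ev J).app J = (ρ_ J).hom := by
    rw [← MonoidalClosed.uncurry_eq, MonoidalClosed.uncurry_curry]
  have supp : ∀ V : T, 𝓙 ⊆ Ann V → ∀ Q, Q ≠ P → IsZero (g Q ⊗ c ⊗ V) := by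
    intro V hV Q hQ
    refine hc2 V (fun d hd h => ?_) Q _ hQ (hg Q)
    have := (mem_ann.1 (hV (h0 (mem_ann.2 ⟨hd, hd, (idz _ _).2 h⟩)))).2.2
    exact ((idz _ _).1 this).of_iso (β_ _ _)
  have hE : 𝓙 ⊆ Ann ((ihom J).obj J) := fun a ha =>
    ⟨(hJ' ha).1, (hJ' ha).2.1, hT.ann_ihom_left (hJ' ha).2.1 (hJ' ha).2.2 J⟩
  refine ⟨c, (ihom J).obj J, η, hc, fun h => hcJ ?_, supp _ hE, hJ.ihom J, fun t ht => ?_⟩
  · have h1 : (c ⊗ J) ◁ η = 0 := wl_iso (β_ J c) (wl_tensor h J)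
    rw [tensor_whiskerLeft] at h1
    have h2 : c ◁ J ◁ η = 0 := by simpa using h1
    have h3 : c ◁ (ρ_ J).hom = 0 := by
      rw [← hη, MonoidalCategory.whiskerLeft_comp, h2, zero_comp]
    rw [IsZero.iff_id_eq_zero, ← MonoidalCategory.whiskerLeft_id, ← (ρ_ J).inv_hom_id,
      MonoidalCategory.whiskerLeft_comp, h3, comp_zero]
  · obtain ⟨act, hact⟩ := absorb_ihom η _ hη t
    have h1 : 𝓙 ⊆ Ann ((ihom J).obj t) := fun a ha =>
      ⟨(hJ' ha).1, (hJ' ha).2.1, hT.ann_ihom_left (hJ' ha).2.1 (hJ' ha).2.2 t⟩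
    have h2 : Arrow.mk (𝟙 c) ∉ Ann ((ihom J).obj t) := by
      intro h
      have h3 := (hT.ann_iff hc).1 (mem_ann.1 h).2.2
      have h4 : ∀ (s : T) (f : s ⊗ c ⊗ J ⟶ t), f = 0 := by
        intro s f
        have h5 := h3 s (MonoidalClosed.curry ((β_ J (s ⊗ c)).hom ≫ (α_ s c J).hom ≫ f))
        rw [MonoidalCategory.whiskerLeft_id, Category.id_comp, ← uncurry_eq_zero,
          MonoidalClosed.uncurry_curry] at h5
        simpa only [Preadditive.IsIso.comp_left_eq_zero] using h5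
      have h6 : ¬ IsZero (g P ⊗ c ⊗ J) := fun h7 => hcJ (hT.supp_ne hs fun Q => by
        by_cases hQ : Q = P
        · rw [hQ]; exact h7
        · exact supp J hJ' Q hQ)
      exact ht ((isZero_ihom_iff' _ _).2 (hT.mem_of_point hs (hT.perp_ideal t) h4 h6
        fun Q hQ => (hg P).orth hT hQ (hg Q)))
    have h3 := hmax _ (hT.sat_ann _) h1 h2
    refine ⟨_, J, MonoidalClosed.curry act, fun y hy β hβ => ?_⟩
    rw [← MonoidalClosed.curry_natural_left, hact, ← MonoidalClosed.curry_natural_left,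
      ← uncurry_eq_zero, MonoidalClosed.uncurry_curry] at hβ
    have h4 : Arrow.mk β ∈ 𝓙 := h3 (mem_ann.2 ⟨hy, hT.unit, by simpa using hβ⟩)
    rw [← uncurry_eq_zero, MonoidalClosed.uncurry_natural_left, (mem_ann.1 (hJ' h4)).2.2,
      zero_comp]

end Pool.Agent.Lib.MP_320227_al
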