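import Pool.Agent.Lib.MP_320227_al.Local

set_option autoImplicit false
set_option linter.unusedSectionVars false

open CategoryTheory CategoryTheory.Limits CategoryTheory.Pretriangulated
open CategoryTheory.Preadditive CategoryTheory.MonoidalCategory ZeroObject

universe w v u

namespace Pool.Agent.Lib.MP_320227_al

variable {T : Type u} [Category.{v} T] [Preadditive T] [HasZeroObject T] [HasShift T ℤ]
  [∀ n : ℤ, (shiftFunctor T n).Additive] [Pretriangulated T] [HasCoproducts.{v} T]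
  [MonoidalCategory T] [SymmetricCategory T] [MonoidalClosed T] [MonoidalPreadditive T]
  {ι : Type v} {S : ι → T} {g : Spc T → T} {C : Set T}

lemma TT.joint (hT : TT S) (hC : IsColocalizingCoideal C) {J : Type w} [Small.{v} J] {V : T}
    (c : J → T) (hc : ∀ j, c j ∈ C) (φ : ∀ j, V ⟶ c j) :
    ∃ c' ∈ C, ∃ Φ : V ⟶ c', ∀ (x : T) (i : x ⟶ V), i ≫ Φ = 0 → ∀ j, i ≫ φ j = 0 := by
  obtain ⟨A, ⟨hA⟩⟩ := hT.cpt.gen.exists_prod fun k : Shrink.{v} J => c ((equivShrink J).symm k)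
  refine ⟨A.pt, hC.prod _ _ A ⟨hA⟩ fun k => hc _,
    Fan.IsLimit.lift hA fun k => φ ((equivShrink J).symm k), fun x i hi j => ?_⟩
  obtain ⟨k, rfl⟩ := (equivShrink J).symm.surjective j
  rw [← Fan.IsLimit.fac hA (fun k => φ ((equivShrink J).symm k)) k, ← Category.assoc, hi,
    zero_comp]

lemma TT.small_spc (hT : TT S) : Small.{v} (Spc T) := by
  refine small_of_injective (f := fun P : Spc T => ({i | S i ∈ P.1} : Set ι)) ?_
  have key : ∀ P Q : Spc T, ({i | S i ∈ P.1} : Set ι) = {i | S i ∈ Q.1} → P.1 ⊆ Q.1 := by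
    intro P Q h a ha
    obtain ⟨i, ⟨e⟩⟩ := hT.cpt.all a (P.2.compact a ha)
    have h1 : i ∈ ({i | S i ∈ P.1} : Set ι) := P.2.triang.of_iso e ha
    rw [h] at h1
    exact Q.2.triang.of_iso e.symm h1
  exact fun P Q h => Subtype.ext (Set.Subset.antisymm (key P Q h) (key Q P h.symm))

section Null

variable {E : T} (η : 𝟙_ T ⟶ E)

/-- Maps which are null with respect to the point detected by `η`. -/
def Null {x V : T} (i : x ⟶ V) : Prop :=
  ∀ (a y : T), IsCompactObj a → IsCompactObj y → ∀ (p : y ⟶ a ⊗ x) (β : y ⟶ 𝟙_ T), β ≫ η ≠ 0 →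
    ∃ (y' : T) (e : y' ⟶ y), IsCompactObj y' ∧ e ≫ p ≫ a ◁ i = 0 ∧ e ≫ β ≫ η ≠ 0

variable {η}

lemma TT.exists_detect (hT : TT S) (hC : IsColocalizingCoideal C) (hE : SPI E) {A : T}
    (hA : A ∈ C) (θ : E ⟶ A)
    (hθ : ∀ y : T, IsCompactObj y → ∀ β : y ⟶ 𝟙_ T, β ≫ η ≫ θ = 0 → β ≫ η = 0) (V : T) :
    ∃ c ∈ C, ∃ φ : V ⟶ c, ∀ (x : T) (i : x ⟶ V), i ≫ φ = 0 → Null η i := by
  obtain ⟨c, hc, φ, hφ⟩ := hT.joint hC (J := Σ k : ι, (S k ⊗ V ⟶ E))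
    (fun q => (ihom (S q.1)).obj A) (fun q => hC.hom _ _ hA)
    (fun q => MonoidalClosed.curry (q.2 ≫ θ))
  refine ⟨c, hc, φ, fun x i hi a y ha hy p β hβ => ?_⟩
  by_contra hn
  push Not at hn
  obtain ⟨F, j, l, H⟩ := exists_fib (p ≫ a ◁ i)
  have h1 : j ≫ β ≫ η = 0 := hE.pure _ fun y' hy' r => by
    rw [← Category.assoc]
    exact hn y' (r ≫ j) hy' (by rw [Category.assoc, H.z12, comp_zero])
  obtain ⟨ψ, hψ⟩ := H.desc2 _ h1
  obtain ⟨k, ⟨e⟩⟩ := hT.cpt.all a ha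
  have h2 := hφ x i hi ⟨k, e.inv ▷ V ≫ ψ⟩
  rw [← MonoidalClosed.curry_natural_left, ← uncurry_eq_zero,
    MonoidalClosed.uncurry_curry, Category.assoc, whisker_exchange_assoc,
    Preadditive.IsIso.comp_left_eq_zero] at h2
  refine hβ (hθ y hy β ?_)
  rw [← Category.assoc, hψ, Category.assoc, Category.assoc, h2, comp_zero]

lemma Null.of_ker (hT : TT S) {x V V' : T} {i : x ⟶ V} (hi : Null η i) {j : x ⟶ V'}
    (hj : ∀ y : T, IsCompactObj y → ∀ b : y ⟶ x, b ≫ i = 0 → b ≫ j = 0) : Null η j := by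
  intro a y ha hy p β hβ
  obtain ⟨y', e, hy', h1, h2⟩ := hi a y ha hy p β hβ
  refine ⟨y', e, hy', ?_, h2⟩
  obtain ⟨a', ha', ⟨D⟩, -⟩ := hT.dual ha
  have h3 := hj _ (hT.tensor ha' hy') (a' ◁ (e ≫ p) ≫ D.co x) (by
    rw [Category.assoc, ← D.co_nat, ← MonoidalCategory.whiskerLeft_comp_assoc, Category.assoc,
      h1]
    simp)
  rw [← Category.assoc, D.eq_right (e ≫ p), Category.assoc,
    ← MonoidalCategory.whiskerLeft_comp, h3]
  simp

variable (η) in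
lemma null_extClosed : ExtClosed {z : T | ∀ y : T, IsCompactObj y → ∀ (p : y ⟶ z) (β : y ⟶ 𝟙_ T),
    β ≫ η ≠ 0 → ∃ (y' : T) (e : y' ⟶ y), IsCompactObj y' ∧ e ≫ p = 0 ∧ e ≫ β ≫ η ≠ 0} where
  zero a ha y hy p β hβ := ⟨y, 𝟙 y, hy, ha.eq_of_tgt _ _, by simpa using hβ⟩
  iso φ h y hy p β hβ := by
    obtain ⟨y', e, hy', h1, h2⟩ := h y hy (p ≫ φ.inv) β hβ
    refine ⟨y', e, hy', ?_, h2⟩
    rwa [← Category.assoc, Preadditive.IsIso.comp_right_eq_zero] at h1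
  ext {a b c f g h} H ha hc y hy p β hβ := by
    obtain ⟨y', e, hy', h1, h2⟩ := hc y hy (p ≫ g) β hβ
    obtain ⟨q, hq⟩ := H.lift2 (e ≫ p) (by rw [Category.assoc, h1])
    obtain ⟨y'', e', hy'', h3, h4⟩ := ha y' hy' q (e ≫ β) (by simpa using h2)
    exact ⟨y'', e' ≫ e, hy'', by rw [Category.assoc, hq, ← Category.assoc, h3, zero_comp],
      by simpa using h4⟩
  coprod J t ht y hy p β hβ := by
    classical
    obtain ⟨s, a, rfl⟩ := hy J t p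
    induction s using Finset.induction_on with
    | empty => exact ⟨y, 𝟙 y, hy, by simp, by simpa using hβ⟩
    | insert j s hj ih =>
      obtain ⟨y', e, hy', h1, h2⟩ := ih
      obtain ⟨y'', e', hy'', h3, h4⟩ := ht j y' hy' (e ≫ a j) (e ≫ β) (by simpa using h2)
      refine ⟨y'', e' ≫ e, hy'', ?_, by simpa using h4⟩
      rw [Finset.sum_insert hj, Category.assoc, comp_add, h1, add_zero, ← Category.assoc e,
        ← Category.assoc, h3, zero_comp]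

lemma TT.null_hocolim (hT : TT S) (hs : IsStratified g) {P : Spc T} {c : T}
    (hc : IsCompactObj c) (hη : c ◁ η ≠ 0) (hsupp : ∀ Q, Q ≠ P → IsZero (g Q ⊗ c ⊗ E))
    {X : ℕ → T} {t : ∀ n, X n ⟶ X (n + 1)} {L : T} {j : ∀ n, X n ⟶ L} (hL : IsHocolim X t L j)
    (ht : ∀ n, Null η (t n)) : IsZero (g P ⊗ L) := by
  by_contra hn
  have h1 := hT.mem_of_point hs (hT.idealCore (null_extClosed η)) (w := L)
    (hT.all_of_compact (null_extClosed η) fun a ha y hy p β hβ => by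
      obtain ⟨a', ha', ⟨D⟩, -⟩ := hT.dual ha
      obtain ⟨n, b, hb⟩ := hL.fac _ (hT.tensor ha' hy) (a' ◁ p ≫ D.co L)
      obtain ⟨y', e, hy', h1, h2⟩ := ht n a y ha hy (D.un y ≫ a ◁ b) β hβ
      refine ⟨y', e, hy', ?_, h2⟩
      rw [D.eq_right p, hb, ← hL.comm, MonoidalCategory.whiskerLeft_comp,
        MonoidalCategory.whiskerLeft_comp]
      simp only [← Category.assoc] at h1 ⊢
      rw [h1, zero_comp]) hn hsupp
  obtain ⟨c', hc', ⟨D⟩, -⟩ := hT.dual hc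
  obtain ⟨y', e, -, h2, h3⟩ := h1 c' _ (hT.tensor hc' (hT.tensor hc hT.unit)) (c' ◁ c ◁ η)
    (D.co _) fun h => hη (by rw [D.eq_right (c ◁ η), D.co_nat, h]; simp)
  exact h3 (by rw [← D.co_nat, ← Category.assoc, h2, zero_comp])

end Null

/-- Maps killed by all maps to objects of `C`. -/
def Cog (C : Set T) {x Z : T} (f : x ⟶ Z) : Prop := ∀ c ∈ C, ∀ φ : Z ⟶ c, f ≫ φ = 0

lemma TT.pigeonhole [IsTriangulated T] (hT : TT S) (hC : IsColocalizingCoideal C)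
    (N : ∀ x V : T, (x ⟶ V) → Prop)
    (h1 : ∀ V : T, ∃ c ∈ C, ∃ φ : V ⟶ c, ∀ (x : T) (i : x ⟶ V), i ≫ φ = 0 → N x V i)
    (h2 : ∀ (x V V' : T) (i : x ⟶ V) (j : x ⟶ V'), N x V i →
      (∀ y : T, IsCompactObj y → ∀ b : y ⟶ x, b ≫ i = 0 → b ≫ j = 0) → N x V' j)
    {x Z : T} {f : x ⟶ Z} (hf : Cog C f) :
    ∃ (x' : T) (j : x ⟶ x') (f' : x' ⟶ Z), N x x' j ∧ j ≫ f' = f ∧ Cog C f' := by
  let k : ∀ K : Set (Σ i, S i ⟶ x), (∐ fun q : K => S q.1.1) ⟶ x :=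
    fun K => Sigma.desc fun q => q.1.2
  choose W j δ H using fun K => exists_cone (k K)
  by_contra hn
  have hn' : ∀ q : Σ K : Set (Σ i, S i ⟶ x), {f' : W K ⟶ Z // N x _ (j K) ∧ j K ≫ f' = f},
      ∃ c ∈ C, ∃ φ : Z ⟶ c, q.2.1 ≫ φ ≠ 0 := by
    rintro ⟨K, f', h3, h4⟩
    by_contra h5
    push Not at h5
    exact hn ⟨_, j K, f', h3, h4, h5⟩
  choose c hc φ hφ using hn'
  obtain ⟨c', hc', Φ, hΦ⟩ := hT.joint hC c hc φ
  obtain ⟨V, π, l, HV⟩ := exists_fib Φ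
  obtain ⟨c'', hc'', Ψ, hΨ⟩ := h1 V
  obtain ⟨V', π', l', HV'⟩ := exists_fib Ψ
  obtain ⟨D, r, r', HD⟩ := exists_cone (π' ≫ π)
  obtain ⟨m, n, o, HO⟩ := HV'.oct HV HD
  obtain ⟨f₂, hf₂⟩ := HD.lift2 f (hf D (hC.triang.second HO hc'' hc') r)
  have hi : N x V (f₂ ≫ π') := hΨ _ _ (by rw [Category.assoc, HV'.z12, comp_zero])
  let K : Set (Σ i, S i ⟶ x) := {q | q.2 ≫ f₂ ≫ π' = 0}
  obtain ⟨i', hi'⟩ := (H K).desc2 (f₂ ≫ π') (Sigma.hom_ext _ _ fun q => by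
    have h3 : q.1.2 ≫ f₂ ≫ π' = 0 := q.2
    simpa [k] using h3)
  have hj : N x _ (j K) := h2 _ _ _ _ _ hi fun y hy b hb => by
    obtain ⟨i, ⟨e⟩⟩ := hT.cpt.all y hy
    have h3 : (⟨i, e.inv ≫ b⟩ : Σ i, S i ⟶ x) ∈ K := by
      change (e.inv ≫ b) ≫ _ = 0
      rw [Category.assoc, hb, comp_zero]
    have h4 : e.inv ≫ b = Sigma.ι (fun q : K => S q.1.1) ⟨_, h3⟩ ≫ k K := by simp [k]
    have h5 : (e.inv ≫ b) ≫ j K = 0 := by rw [h4, Category.assoc, (H K).z12, comp_zero]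
    simpa using h5
  exact hφ ⟨K, i' ≫ π, hj, by rw [← Category.assoc, ← hi', hf₂, Category.assoc]⟩
    (hΦ _ (i' ≫ π) (by rw [Category.assoc, HV.z12, comp_zero]) _)

theorem TT.cog_zero [IsTriangulated T] (hT : TT S) (hg : ∀ P, IsPointObj P (g P))
    (hs : IsStratified g) (hC : IsColocalizingCoideal C) {Z : T}
    (hZ : ∀ Q ∉ ⋃ t ∈ C, Cosupp g t, IsZero ((ihom (g Q)).obj Z)) {x : T} {f : x ⟶ Z}
    (hf : Cog C f) : f = 0 := by
  have := hT.small_spc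
  choose c E η hc hη hsupp hE hθ using hT.local_data hg hs
  have h1 : ∀ V : T, ∃ c ∈ C, ∃ φ : V ⟶ c, ∀ (x : T) (i : x ⟶ V), i ≫ φ = 0 →
      ∀ P ∈ ⋃ t ∈ C, Cosupp g t, Null (η P) i := by
    intro V
    have : ∀ P : (⋃ t ∈ C, Cosupp g t : Set (Spc T)), ∃ c ∈ C, ∃ φ : V ⟶ c,
        ∀ (x : T) (i : x ⟶ V), i ≫ φ = 0 → Null (η P) i := by
      rintro ⟨P, hP⟩
      obtain ⟨t, ht, hP⟩ := Set.mem_iUnion₂.1 hP
      obtain ⟨s, s', θ, h⟩ := hθ P t hP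
      exact hT.exists_detect hC (hE P) (hC.hom _ _ (hC.hom _ _ ht)) θ h V
    choose d hd φ hφ using this
    obtain ⟨c', hc', Φ, hΦ⟩ := hT.joint hC d hd φ
    exact ⟨c', hc', Φ, fun x i hi P hP => hφ ⟨P, hP⟩ x i (hΦ x i hi _)⟩
  have step : ∀ s : Σ x : T, {f : x ⟶ Z // Cog C f},
      ∃ (s' : Σ x : T, {f : x ⟶ Z // Cog C f}) (j : s.1 ⟶ s'.1),
        (∀ P ∈ ⋃ t ∈ C, Cosupp g t, Null (η P) j) ∧ j ≫ s'.2.1 = s.2.1 := by
    rintro ⟨x, f, hf⟩
    obtain ⟨x', j, f', h3, h4, h5⟩ := hT.pigeonhole hC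
      (fun x V i => ∀ P ∈ ⋃ t ∈ C, Cosupp g t, Null (η P) i) h1
      (fun x V V' i j hi hj P hP => (hi P hP).of_ker hT hj) hf
    exact ⟨⟨x', f', h5⟩, j, h3, h4⟩
  obtain ⟨s, t, hs0, hst⟩ := exists_seq (St := Σ x : T, {f : x ⟶ Z // Cog C f})
    (fun s => s.1) _ step ⟨x, f, hf⟩
  obtain ⟨L, j, hL⟩ := exists_hocolim (fun n => (s n).1) t
  obtain ⟨ζ, hζ⟩ := hL.lift (Cohom.hom Z) (fun n => (s n).2.1) fun n => (hst n).2
  have h0 : (show L ⟶ Z from ζ) = 0 := hT.hom_zero hg hs (fun P hP => hZ P fun hP' =>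
    hP (hT.null_hocolim hs (hc P) (hη P) (hsupp P) hL fun n => (hst n).1 P hP')) _
  have h2 : (s 0).2.1 = 0 := by
    rw [← hζ 0, Cohom.hom_map]
    change j 0 ≫ (show L ⟶ Z from ζ) = 0
    rw [h0, comp_zero]
  rw [hs0] at h2
  exact h2

lemma TT.coideal (hT : TT S) (X : Set (Spc T)) :
    IsColocalizingCoideal {t : T | ∀ Q ∉ X, IsZero ((ihom (g Q)).obj t)} where
  triang := by
    simp only [isZero_ihom_iff]
    refine IsTriangSub.mk' (fun a ha Q _ s f => ha.eq_of_tgt _ _) ?_ ?_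
    · intro a b c f p h H ha hb Q hQ s q
      obtain ⟨r, hr⟩ := exists_unshift (q ≫ h)
      obtain ⟨e⟩ := WeakExact.unshiftIso (hT.exact (g Q)) s
      have h1 : r = 0 := by simpa using ha Q hQ _ (e.hom ≫ r)
      obtain ⟨r', rfl⟩ := H.lift3 q (by rw [hr, h1]; simp)
      rw [hb Q hQ s r', zero_comp]
    · intro a b c f p h H hb hc Q hQ s q
      obtain ⟨r, hr⟩ := H.lift1 (q⟦(1 : ℤ)⟧') (by
        rw [← Functor.map_comp, hb Q hQ s (q ≫ f), Functor.map_zero])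
      obtain ⟨e⟩ := WeakExact.shiftIso (hT.exact (g Q)) s
      have h1 : r = 0 := by simpa using hc Q hQ _ (e.hom ≫ r)
      exact (shiftFunctor T (1 : ℤ)).map_injective (by rw [hr, h1]; simp)
  prod J t c := by
    rintro ⟨hc⟩ ht Q hQ
    rw [isZero_ihom_iff]
    intro s f
    refine Fan.IsLimit.hom_ext hc _ _ fun j => ?_
    rw [(isZero_ihom_iff _ _).1 (ht j Q hQ) s (f ≫ _), zero_comp]
  hom a t ht Q hQ := by
    rw [isZero_ihom_iff]
    intro s f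
    rw [← uncurry_eq_zero, ← cancel_epi (swapIso (g Q) a s).hom, comp_zero]
    exact (isZero_ihom_iff _ _).1 (ht Q hQ) _ _

theorem TT.coideal_eq [IsTriangulated T] (hT : TT S) (hg : ∀ P, IsPointObj P (g P))
    (hs : IsStratified g) (hC : IsColocalizingCoideal C) :
    C = {t : T | ∀ Q ∉ ⋃ t ∈ C, Cosupp g t, IsZero ((ihom (g Q)).obj t)} := by
  have h1 : C ⊆ {t : T | ∀ Q ∉ ⋃ t ∈ C, Cosupp g t, IsZero ((ihom (g Q)).obj t)} := by
    intro t ht Q hQ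
    by_contra hn
    exact hQ (Set.mem_biUnion ht hn)
  refine Set.Subset.antisymm h1 (hT.cpt.tower hC.triang hC.prod (hT.coideal _).triang h1 ?_)
  intro Z hZ
  have : ∀ q : Σ i, {p : S i ⟶ Z // p ≠ 0}, ∃ c ∈ C, ∃ φ : Z ⟶ c, q.2.1 ≫ φ ≠ 0 := by
    intro q
    by_contra hn
    push Not at hn
    exact q.2.2 (hT.cog_zero hg hs hC hZ hn)
  choose c hc φ hφ using this
  obtain ⟨c', hc', Φ, hΦ⟩ := hT.joint hC c hc φ
  refine ⟨c', hc', Φ, fun x hx p hp => ?_⟩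
  by_contra hn
  obtain ⟨i, ⟨e⟩⟩ := hT.cpt.all x hx
  exact hφ ⟨i, e.inv ≫ p, by simpa using hn⟩
    (hΦ _ _ (by rw [Category.assoc, hp, comp_zero]) _)

theorem TT.costratified [IsTriangulated T] (hT : TT S) (hg : ∀ P, IsPointObj P (g P))
    (hs : IsStratified g) : IsCostratified g := by
  refine ⟨Set.mapsTo_univ _ _, fun C hC C' hC' h => ?_,
    fun X _ => ⟨_, hT.coideal (g := g) X, ?_⟩⟩
  · have h' : ⋃ t ∈ C, Cosupp g t = ⋃ t ∈ C', Cosupp g t := h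
    rw [hT.coideal_eq hg hs hC, h', ← hT.coideal_eq hg hs hC']
  · refine Set.Subset.antisymm (Set.iUnion₂_subset fun t ht Q hQ => ?_) fun P hP => ?_
    · by_contra hn
      exact hQ (ht Q hn)
    · refine Set.mem_biUnion (x := (ihom (g P)).obj (g P)) (fun Q hQ => ?_) fun h => ?_
      · rw [isZero_ihom_iff]
        intro s f
        rw [← uncurry_eq_zero]
        have hPQ : P ≠ Q := fun h => hQ (h ▸ hP)
        exact ((isZero_tensor_left ((hg Q).orth hT hPQ (hg P)) s).of_iso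
          (α_ _ _ _).symm).eq_of_src _ _
      · obtain ⟨e⟩ := (hg P).idem hT
        have h1 := (isZero_ihom_iff _ _).1 h (𝟙_ T) ((ρ_ _).hom ≫ MonoidalClosed.curry e.hom)
        rw [Preadditive.IsIso.comp_left_eq_zero, ← uncurry_eq_zero,
          MonoidalClosed.uncurry_curry] at h1
        exact hs.ne_zero P (by rw [IsZero.iff_id_eq_zero, ← e.inv_hom_id, h1, comp_zero])

theorem main_result [IsTriangulated T] [∀ X : T, (tensorLeft X).CommShift ℤ]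
    [∀ X : T, (tensorLeft X).IsTriangulated] (hT : IsRigidlyCompactlyGenerated T)
    (hw : IsWeaklyNoetherian T) :
    (∃ g : Spc T → T, ∀ P, IsPointObj P (g P)) ∧
      ∀ g : Spc T → T, (∀ P, IsPointObj P (g P)) → IsStratified g → IsCostratified g := by
  obtain ⟨ι, S, hS⟩ := exists_cptFam hT.gen
  have h : TT S := ⟨hS, fun x => fun H => ⟨_, (tensorLeft x).map_distinguished _ H⟩, hT.rigid⟩
  exact ⟨⟨fun P => (h.exists_pointObj hw P).choose, fun P => (h.exists_pointObj hw P).choose_spec⟩,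
    fun g hg hs => h.costratified hg hs⟩

end Pool.Agent.Lib.MP_320227_al
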