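import Pool.Agent.Lib.MP_320227_al.Tensor

set_option autoImplicit false
set_option linter.unusedSectionVars false

open CategoryTheory CategoryTheory.Limits CategoryTheory.Pretriangulated
open CategoryTheory.Preadditive CategoryTheory.MonoidalCategory ZeroObject

universe v u

namespace Pool.Agent.Lib.MP_320227_al

variable {T : Type u} [Category.{v} T] [Preadditive T] [HasZeroObject T] [HasShift T ℤ]
  [∀ n : ℤ, (shiftFunctor T n).Additive] [Pretriangulated T] [HasCoproducts.{v} T]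
  [MonoidalCategory T] [SymmetricCategory T] [MonoidalClosed T] [MonoidalPreadditive T]
  {ι : Type v} {S : ι → T}

lemma IsPrimeIdeal.retract {P : Set T} (hP : IsPrimeIdeal P) {a b : T} (i : a ⟶ b) (r : b ⟶ a)
    (h : i ≫ r = 𝟙 a) (hb : b ∈ P) : a ∈ P := by
  obtain ⟨c, g, l, H⟩ := exists_cone i
  have : IsSplitMono i := ⟨⟨r, h⟩⟩
  have h0 : l = 0 := Triangle.mor₃_eq_zero_of_mono₁ _ H (inferInstanceAs (Mono i))
  obtain ⟨e, -⟩ := exists_iso_binaryBiproduct_of_distTriang _ H h0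
  exact hP.thick a c (hP.triang.of_iso e hb)

lemma IsPrimeIdeal.idealR {P : Set T} (hP : IsPrimeIdeal P) {a b : T} (ha : a ∈ P)
    (hb : IsCompactObj b) : a ⊗ b ∈ P := hP.triang.of_iso (β_ b a) (hP.ideal b hb a ha)

lemma IsPrimeIdeal.unit_notMem {P : Set T} (hP : IsPrimeIdeal P) : 𝟙_ T ∉ P := by
  intro h
  obtain ⟨a, ha, ha'⟩ := hP.proper
  exact ha' (hP.triang.of_iso (ρ_ a) (hP.ideal a ha _ h))

/-- A thick tensor ideal of the compact objects. -/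
structure IsThickIdeal (I : Set T) : Prop where
  compact : ∀ a ∈ I, IsCompactObj a
  triang : IsTriangSub I
  retract : ∀ {a b : T} (i : a ⟶ b) (r : b ⟶ a), i ≫ r = 𝟙 a → b ∈ I → a ∈ I
  ideal : ∀ a : T, IsCompactObj a → ∀ b ∈ I, a ⊗ b ∈ I

lemma TT.thickIdeal (hT : TT S) {R : Set T} (hR : IsTriangSub R)
    (hr : ∀ {a b : T} (i : a ⟶ b) (r : b ⟶ a), i ≫ r = 𝟙 a → b ∈ R → a ∈ R) (w : T)
    (hi : ∀ a : T, IsCompactObj a → ∀ b ∈ R, a ⊗ b ∈ R) :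
    IsThickIdeal {x | IsCompactObj x ∧ x ⊗ w ∈ R} where
  compact _ h := h.1
  triang := IsTriangSub.mk'
    (fun _ ha => ⟨isCompactObj_of_isZero ha, hR.isZero (isZero_tensor_left ha w)⟩)
    (fun H h1 h2 => by
      obtain ⟨_, H'⟩ := hT.distR w H
      exact ⟨IsCompactObj.third H h1.1 h2.1, hR.third H' h1.2 h2.2⟩)
    (fun H h1 h2 => by
      obtain ⟨_, H'⟩ := hT.distR w H
      exact ⟨IsCompactObj.first H h1.1 h2.1, hR.first H' h1.2 h2.2⟩)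
  retract i r h hb := ⟨hb.1.retract i r h,
    hr (i ▷ w) (r ▷ w) (by rw [← comp_whiskerRight, h, id_whiskerRight]) hb.2⟩
  ideal a ha b hb := ⟨hT.tensor ha hb.1, hR.of_iso (α_ a b w).symm (hi a ha _ hb.2)⟩

lemma TT.exists_prime (hT : TT S) {I : Set T} (hI : IsThickIdeal I) {c : T}
    (hc : IsCompactObj c) (hcI : c ∉ I) : ∃ P : Spc T, I ⊆ P.1 ∧ c ∉ P.1 := by
  obtain ⟨m, hIm, hm⟩ := zorn_subset_nonempty {J : Set T | IsThickIdeal J ∧ c ∉ J} (by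
    intro ch hch hchain hne
    have two : ∀ a b : T, a ∈ ⋃₀ ch → b ∈ ⋃₀ ch → ∃ J ∈ ch, a ∈ J ∧ b ∈ J := by
      rintro a b ⟨J, hJ, ha⟩ ⟨J', hJ', hb⟩
      rcases hchain.total hJ hJ' with h | h
      · exact ⟨J', hJ', h ha, hb⟩
      · exact ⟨J, hJ, ha, h hb⟩
    refine ⟨⋃₀ ch, ⟨⟨?_, IsTriangSub.mk' ?_ ?_ ?_, ?_, ?_⟩, ?_⟩,
      fun s hs => Set.subset_sUnion_of_mem hs⟩
    · rintro a ⟨J, hJ, ha⟩; exact (hch hJ).1.compact a ha
    · intro a ha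
      obtain ⟨J, hJ⟩ := hne
      exact ⟨J, hJ, (hch hJ).1.triang.isZero ha⟩
    · intro a b c f g h H ha hb
      obtain ⟨J, hJ, ha, hb⟩ := two _ _ ha hb
      exact ⟨J, hJ, (hch hJ).1.triang.third H ha hb⟩
    · intro a b c f g h H ha hb
      obtain ⟨J, hJ, ha, hb⟩ := two _ _ ha hb
      exact ⟨J, hJ, (hch hJ).1.triang.first H ha hb⟩
    · rintro a b i r h ⟨J, hJ, hb⟩; exact ⟨J, hJ, (hch hJ).1.retract i r h hb⟩
    · rintro a ha b ⟨J, hJ, hb⟩; exact ⟨J, hJ, (hch hJ).1.ideal a ha b hb⟩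
    · rintro ⟨J, hJ, h⟩; exact (hch hJ).2 h) I ⟨hI, hcI⟩
  have hm1 : IsThickIdeal m := hm.prop.1
  have key : ∀ a b : T, IsCompactObj a → IsCompactObj b → b ⊗ a ∈ m → b ∉ m → c ⊗ a ∈ m := by
    intro a b ha hb hab hbm
    by_contra hca
    have h1 := hT.thickIdeal hm1.triang hm1.retract a hm1.ideal
    have h2 : m ⊆ {x | IsCompactObj x ∧ x ⊗ a ∈ m} := fun x hx =>
      ⟨hm1.compact x hx, hm1.triang.of_iso (β_ a x) (hm1.ideal a ha x hx)⟩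
    exact hbm (hm.le_of_ge ⟨h1, fun h => hca h.2⟩ h2 ⟨hb, hab⟩)
  refine ⟨⟨m, hm1.compact, hm1.triang, fun a b h => hm1.retract biprod.inl biprod.fst (by simp) h,
    hm1.ideal, ⟨c, hc, hm.prop.2⟩, fun a b ha hb hab => ?_⟩, hIm, hm.prop.2⟩
  by_contra hn
  rw [not_or] at hn
  have h1 : c ⊗ b ∈ m := key b a hb ha hab hn.1
  have h2 : c ⊗ c ∈ m := key c b hc hb (hm1.triang.of_iso (β_ c b) h1) hn.2
  obtain ⟨c', hc', ⟨i, r, h⟩, -⟩ := hT.retract_cube hc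
  exact hm.prop.2 (hm1.retract i r h (hm1.ideal c' hc' _ h2))

lemma exists_basic {U : Set (Spc T)} (hU : IsOpen U) {Q : Spc T} (hQ : Q ∈ U) :
    ∃ a : T, IsCompactObj a ∧ Q ∈ (supp a)ᶜ ∧ (supp a)ᶜ ⊆ U := by
  have hU' : TopologicalSpace.GenerateOpen
    {U | ∃ a : T, IsCompactObj a ∧ U = (supp a)ᶜ} U := hU
  clear hU
  induction hU' with
  | basic s hs =>
    obtain ⟨a, ha, rfl⟩ := hs
    exact ⟨a, ha, hQ, subset_rfl⟩
  | univ =>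
    exact ⟨0, isCompactObj_of_isZero (isZero_zero T), fun h => h Q.2.triang.zero,
      Set.subset_univ _⟩
  | inter s t _ _ ihs iht =>
    obtain ⟨a, ha, ha1, ha2⟩ := ihs hQ.1
    obtain ⟨b, hb, hb1, hb2⟩ := iht hQ.2
    refine ⟨a ⊞ b, ha.biprod hb, fun h => h (Q.2.triang.biprod (not_not.1 ha1) (not_not.1 hb1)),
      fun R hR => ?_⟩
    have hR' : (a ⊞ b) ∈ R.1 := not_not.1 hR
    exact ⟨ha2 fun h => h (R.2.retract biprod.inl biprod.fst (by simp) hR'),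
      hb2 fun h => h (R.2.retract biprod.inr biprod.snd (by simp) hR')⟩
  | sUnion s _ ih =>
    obtain ⟨V, hV, hQV⟩ := hQ
    obtain ⟨a, ha, ha1, ha2⟩ := ih V hV hQV
    exact ⟨a, ha, ha1, ha2.trans (Set.subset_sUnion_of_mem hV)⟩

lemma TT.exists_supp (hT : TT S) {Y : Set (Spc T)} (hY : IsThomason Y) {P : Spc T}
    (hP : P ∈ Y) : ∃ a : T, IsCompactObj a ∧ P ∈ supp a ∧ supp a ⊆ Y := by
  classical
  obtain ⟨𝒮, h𝒮, rfl⟩ := hY
  obtain ⟨V, hV, hPV⟩ := hP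
  obtain ⟨hcl, hcp⟩ := h𝒮 V hV
  choose a ha ha1 ha2 using fun Q : (Vᶜ : Set (Spc T)) => exists_basic hcl.isOpen_compl Q.2
  obtain ⟨t, ht⟩ := hcp.elim_finite_subcover (fun Q => (supp (a Q))ᶜ)
    (fun Q => TopologicalSpace.GenerateOpen.basic _ ⟨a Q, ha Q, rfl⟩)
    (fun Q hQ => Set.mem_iUnion.2 ⟨⟨Q, hQ⟩, ha1 _⟩)
  have key : ∃ b : T, IsCompactObj b ∧ P ∈ supp b ∧ ∀ Q ∈ t, supp b ⊆ supp (a Q) := by
    clear ht
    induction t using Finset.induction_on with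
    | empty => exact ⟨𝟙_ T, hT.unit, P.2.unit_notMem, by simp⟩
    | insert Q t _ ih =>
      obtain ⟨b, hb, hb1, hb2⟩ := ih
      refine ⟨a Q ⊗ b, hT.tensor (ha Q) hb, fun h => ?_, fun R hR => ?_⟩
      · rcases P.2.prime _ _ (ha Q) hb h with h | h
        · exact ha2 Q (fun h' => h' h) hPV
        · exact hb1 h
      · rcases Finset.mem_insert.1 hR with rfl | hR
        · exact fun U hU h => hU (U.2.idealR h hb)
        · exact fun U hU => hb2 R hR fun h => hU (U.2.ideal _ (ha Q) _ h)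
  obtain ⟨b, hb, hb1, hb2⟩ := key
  refine ⟨b, hb, hb1, fun R hR => ⟨V, hV, ?_⟩⟩
  by_contra hRV
  obtain ⟨Q, hQ, hRQ⟩ := Set.mem_iUnion₂.1 (ht hRV)
  exact hRQ (hb2 Q hQ hR)

lemma TT.sep (hT : TT S) {Z Z' : Set (Spc T)} (hZ : IsThomason Z) (hZ' : IsThomason Z') {w : T}
    (h : ∀ d : T, IsCompactObj d → supp d ⊆ Z → IsZero (d ⊗ w))
    (h' : ∀ d : T, IsCompactObj d → supp d ⊆ Z' → IsZero (d ⊗ w)) {d : T} (hd : IsCompactObj d)
    (hs : supp d ⊆ Z ∪ Z') : IsZero (d ⊗ w) := by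
  by_contra hn
  have hI := hT.thickIdeal (R := {x | IsZero x}) isZero_localizing.triang
    (fun i r h hb => by
      change IsZero _
      rw [IsZero.iff_id_eq_zero, ← h, (show IsZero _ from hb).eq_of_tgt i 0, zero_comp]) w
    (fun a _ b hb => isZero_tensor_right a hb)
  obtain ⟨P, hP1, hP2⟩ := hT.exists_prime hI hd fun h => hn h.2
  rcases hs hP2 with hP | hP
  · obtain ⟨a, ha, ha1, ha2⟩ := hT.exists_supp hZ hP
    exact ha1 (hP1 ⟨ha, h a ha ha2⟩)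
  · obtain ⟨a, ha, ha1, ha2⟩ := hT.exists_supp hZ' hP
    exact ha1 (hP1 ⟨ha, h' a ha ha2⟩)

theorem TT.exists_idem (hT : TT S) (Y : Set (Spc T)) :
    ∃ e f : T, IsIdempotentTriangle Y e f := by
  let K : Set T := {a : T | IsCompactObj a ∧ supp a ⊆ Y}
  let SY : {i // supp (S i) ⊆ Y} → T := fun i => S i.1
  obtain ⟨e, -, ε, -, h1, h2, h3⟩ := brown_core SY (fun i => hT.cpt.gen.compact i.1)
    (Cohom.hom (𝟙_ T)) 0 (0 : (0 : T) ⟶ 𝟙_ T)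
  change e ⟶ 𝟙_ T at ε
  have rep : ∀ d ∈ K, ∃ i, Nonempty (d ≅ SY i) := by
    intro d hd
    obtain ⟨i, ⟨φ⟩⟩ := hT.cpt.all d hd.1
    exact ⟨⟨i, fun P hP => hd.2 fun h => hP (P.2.triang.of_iso φ h)⟩, ⟨φ⟩⟩
  have he : e ∈ Loc K := h3 _ (loc_isLocalizing K) (loc_isLocalizing K).triang.zero
    fun i => subset_loc K ⟨hT.cpt.gen.compact i.1, i.2⟩
  obtain ⟨f, η, δ, H⟩ := exists_cone ε
  have hf : ∀ d ∈ K, ∀ p : d ⟶ f, p = 0 := by
    intro d hd p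
    have hd' : d⟦(-1 : ℤ)⟧ ∈ K :=
      ⟨hd.1.shiftZ _, fun P hP => hd.2 fun h => hP (P.2.triang.unshift _ h)⟩
    have h0 : p ≫ δ = 0 := by
      refine shift_inj ε (fun a ha => ?_) _ (by rw [Category.assoc, H.z31, comp_zero])
      obtain ⟨i, ⟨φ⟩⟩ := rep _ hd'
      have := h2 i (φ.inv ≫ a) (show (φ.inv ≫ a) ≫ ε = 0 by rw [Category.assoc, ha, comp_zero])
      simpa using this
    obtain ⟨q, rfl⟩ := H.lift3 p h0
    obtain ⟨i, ⟨φ⟩⟩ := rep _ hd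
    obtain ⟨a, ha⟩ := h1 i (φ.inv ≫ q)
    rw [Cohom.hom_map] at ha
    have : q = φ.hom ≫ a ≫ ε := by rw [ha]; simp
    rw [this, Category.assoc, Category.assoc, H.z12]; simp
  have hdf : ∀ d ∈ K, IsZero (d ⊗ f) := by
    intro d hd
    obtain ⟨d', hd', -, ⟨i, r, hir⟩, ⟨D⟩, -⟩ := hT.retract_cube hd.1
    refine hT.cpt.isZero fun y hy p => ?_
    have : d' ⊗ y ∈ K := ⟨hT.tensor hd' hy, fun P hP => hd.2 fun h =>
      hP (P.2.idealR (P.2.retract i r hir (P.2.ideal _ (hT.tensor hd' hd') _ h)) hy)⟩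
    rw [D.eq_right p, hf _ this (d' ◁ p ≫ D.co f)]; simp
  refine ⟨e, f, ⟨ε, η, δ, H⟩, hT.loc_tensor_zero hdf he, Set.ext fun t => ⟨?_, fun ht => ?_⟩⟩
  · rintro ⟨s, ⟨φ⟩⟩
    refine (loc_isLocalizing K).triang.of_iso φ.symm ?_
    refine loc_subset ((loc_isLocalizing K).comap (hT.exactR s)) (fun d hd => ?_) he
    refine hT.cpt.loc_eq ((loc_isLocalizing K).comap (hT.exact d)) (fun x hx => ?_) s
    exact subset_loc K ⟨hT.tensor hd.1 hx, fun P hP => hd.2 fun h => hP (P.2.idealR h hx)⟩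
  · obtain ⟨_, H'⟩ := hT.distL t H
    have : IsIso (t ◁ ε) := (Triangle.isZero₃_iff_isIso₁ _ H').1 (hT.loc_tensor_zero hdf ht)
    exact ⟨t, ⟨(ρ_ t).symm ≪≫ (asIso (t ◁ ε)).symm ≪≫ β_ t e⟩⟩

section Idem

variable {Y : Set (Spc T)} {e f : T}

lemma IsIdempotentTriangle.mem_loc (h : IsIdempotentTriangle Y e f) :
    e ∈ Loc {a : T | IsCompactObj a ∧ supp a ⊆ Y} := by
  rw [← h.2.2]
  exact ⟨𝟙_ T, ⟨(ρ_ e).symm⟩⟩

lemma IsIdempotentTriangle.zero (h : IsIdempotentTriangle Y e f) {d : T} (hd : IsCompactObj d)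
    (hs : supp d ⊆ Y) : IsZero (d ⊗ f) := by
  have : d ∈ Loc {a : T | IsCompactObj a ∧ supp a ⊆ Y} := subset_loc _ ⟨hd, hs⟩
  rw [← h.2.2] at this
  obtain ⟨s, ⟨φ⟩⟩ := this
  exact (isZero_tensor_right s h.2.1).of_iso
    (whiskerRightIso (φ ≪≫ β_ e s) f ≪≫ α_ s e f)

lemma IsIdempotentTriangle.ee (hT : TT S) (h : IsIdempotentTriangle Y e f) :
    Nonempty (e ⊗ e ≅ e) := by
  obtain ⟨⟨a, b, c, H⟩, h0, -⟩ := h
  obtain ⟨_, H'⟩ := hT.distL e H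
  have : IsIso (e ◁ a) := (Triangle.isZero₃_iff_isIso₁ _ H').1 h0
  exact ⟨asIso (e ◁ a) ≪≫ ρ_ e⟩

lemma IsIdempotentTriangle.ff (hT : TT S) (h : IsIdempotentTriangle Y e f) :
    Nonempty (f ⊗ f ≅ f) := by
  obtain ⟨⟨a, b, c, H⟩, h0, -⟩ := h
  obtain ⟨_, H'⟩ := hT.distR f H
  have : IsIso (b ▷ f) := (Triangle.isZero₁_iff_isIso₂ _ H').1 h0
  exact ⟨(asIso (b ▷ f)).symm ≪≫ λ_ f⟩

end Idem

theorem TT.exists_pointObj (hT : TT S) (hw : IsWeaklyNoetherian T) (P : Spc T) :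
    ∃ g : T, IsPointObj P g := by
  obtain ⟨Y, Z, hY, hZ, h⟩ := hw P
  obtain ⟨e, f, h1⟩ := hT.exists_idem Y
  obtain ⟨e', f', h2⟩ := hT.exists_idem Z
  exact ⟨_, Y, Z, e, f, e', f', hY, hZ, h, h1, h2, rfl⟩

lemma IsPointObj.idem (hT : TT S) {P : Spc T} {g : T} (hg : IsPointObj P g) :
    Nonempty (g ⊗ g ≅ g) := by
  obtain ⟨Y, Z, e, f, e', f', -, -, -, h1, h2, rfl⟩ := hg
  obtain ⟨φ⟩ := h1.ee hT
  obtain ⟨ψ⟩ := h2.ff hT
  exact ⟨α_ _ _ _ ≪≫ whiskerLeftIso e (swapIso f' e f') ≪≫ (α_ _ _ _).symm ≪≫ (φ ⊗ᵢ ψ)⟩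

lemma TT.sep2 (hT : TT S) {P Q : Spc T} (hPQ : Q ≠ P) {g' : T} (hg' : IsPointObj Q g')
    {Y Z : Set (Spc T)} (hZ : IsThomason Z) (hP : {P} = Y ∩ Zᶜ) {V : T}
    (hV : ∀ d : T, IsCompactObj d → supp d ⊆ Z → IsZero (d ⊗ V)) {c : T} (hc : IsCompactObj c)
    (hcY : supp c ⊆ Y) : IsZero (g' ⊗ c ⊗ V) := by
  obtain ⟨Y', Z', e, f, e', f', -, hZ', hQ, h1, h2, rfl⟩ := hg'
  have key : ∀ d ∈ {a : T | IsCompactObj a ∧ supp a ⊆ Y'}, IsZero (d ⊗ c ⊗ f' ⊗ V) := by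
    intro d hd
    refine IsZero.of_iso ?_ (α_ d c _).symm
    refine hT.sep hZ hZ' (fun x hx hs => ?_) (fun x hx hs => ?_) (hT.tensor hd.1 hc)
      fun R hR => ?_
    · exact (isZero_tensor_right f' (hV x hx hs)).of_iso (swapIso _ _ _)
    · exact (isZero_tensor_left (h2.zero hx hs) V).of_iso (α_ _ _ _).symm
    · have hR1 : R ∈ Y' := hd.2 fun h => hR (R.2.idealR h hc)
      have hR2 : R ∈ Y := hcY fun h => hR (R.2.ideal _ hd.1 _ h)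
      by_contra hn
      rw [Set.mem_union, not_or] at hn
      have e1 : R ∈ ({P} : Set (Spc T)) := hP ▸ ⟨hR2, hn.1⟩
      have e2 : R ∈ ({Q} : Set (Spc T)) := hQ ▸ ⟨hR1, hn.2⟩
      exact hPQ (e2.symm.trans e1)
  exact (hT.loc_tensor_zero key h1.mem_loc).of_iso
    (α_ _ _ _ ≪≫ whiskerLeftIso e (swapIso f' c V))

lemma IsPointObj.orth (hT : TT S) {P Q : Spc T} (hPQ : Q ≠ P) {g g' : T} (hg : IsPointObj P g)
    (hg' : IsPointObj Q g') : IsZero (g' ⊗ g) := by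
  obtain ⟨Y, Z, e, f, e', f', -, hZ, hP, h1, h2, rfl⟩ := hg
  have key : ∀ d ∈ {a : T | IsCompactObj a ∧ supp a ⊆ Y}, IsZero (d ⊗ g' ⊗ f') := fun d hd =>
    (hT.sep2 hPQ hg' hZ hP (fun x hx hs => h2.zero hx hs) hd.1 hd.2).of_iso (swapIso _ _ _)
  exact (hT.loc_tensor_zero key h1.mem_loc).of_iso (swapIso _ _ _)

lemma IsPointObj.exists_compact (hT : TT S) {P : Spc T} {g : T} (hg : IsPointObj P g)
    (hne : ¬ IsZero g) : ∃ c : T, IsCompactObj c ∧ ¬ IsZero (g ⊗ c) ∧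
      ∀ V : T, (∀ d : T, IsCompactObj d → IsZero (g ⊗ d) → IsZero (d ⊗ V)) →
        ∀ (Q : Spc T) (g' : T), Q ≠ P → IsPointObj Q g' → IsZero (g' ⊗ c ⊗ V) := by
  obtain ⟨φ⟩ := hg.idem hT
  obtain ⟨Y, Z, e, f, e', f', -, hZ, hP, h1, h2, rfl⟩ := hg
  have : ∃ c ∈ {a : T | IsCompactObj a ∧ supp a ⊆ Y}, ¬ IsZero (c ⊗ e ⊗ f') := by
    by_contra hn
    push Not at hn
    have := hT.loc_tensor_zero hn h1.mem_loc
    exact hne ((isZero_tensor_right f' this).of_iso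
      (φ.symm ≪≫ α_ _ _ _ ≪≫ swapIso _ _ _))
  obtain ⟨c, hc, hc'⟩ := this
  refine ⟨c, hc.1, fun h => hc' (h.of_iso (β_ _ _)), fun V hV Q g' hQ hg' => ?_⟩
  refine hT.sep2 hQ hg' hZ hP (fun d hd hs => hV d hd ?_) hc.1 hc.2
  exact (isZero_tensor_right e (h2.zero hd hs)).of_iso
    (α_ _ _ _ ≪≫ whiskerLeftIso e (β_ f' d))

end Pool.Agent.Lib.MP_320227_al
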