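import Pool.Agent.Lib.MP_320227_al.Approx

set_option autoImplicit false
set_option linter.unusedSectionVars false

open CategoryTheory CategoryTheory.Limits CategoryTheory.Pretriangulated
open CategoryTheory.Preadditive CategoryTheory.MonoidalCategory ZeroObject

universe v u

namespace Pool.Agent.Lib.MP_320227_al

variable {T : Type u} [Category.{v} T] [Preadditive T] [HasZeroObject T] [HasShift T ℤ]
  [∀ n : ℤ, (shiftFunctor T n).Additive] [Pretriangulated T] [HasCoproducts.{v} T]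

section WE

variable {Φ : T ⥤ T} [Φ.Additive]

lemma WeakExact.shiftIso (hΦ : WeakExact Φ) (x : T) :
    Nonempty (Φ.obj (x⟦(1 : ℤ)⟧) ≅ (Φ.obj x)⟦(1 : ℤ)⟧) := by
  obtain ⟨h, H⟩ := hΦ (contractible_distinguished₂ x)
  have : IsIso h := (Triangle.isZero₂_iff_isIso₃ _ H).1 (Φ.map_isZero (isZero_zero T))
  exact ⟨asIso h⟩

lemma WeakExact.unshiftIso (hΦ : WeakExact Φ) (x : T) :
    Nonempty (Φ.obj (x⟦(-1 : ℤ)⟧) ≅ (Φ.obj x)⟦(-1 : ℤ)⟧) := by
  obtain ⟨e⟩ := hΦ.shiftIso (x⟦(-1 : ℤ)⟧)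
  exact ⟨(snIso _).symm ≪≫ (shiftFunctor T (-1 : ℤ)).mapIso (e.symm ≪≫ Φ.mapIso (nsIso x))⟩

variable [∀ J : Type v, PreservesColimitsOfShape (Discrete J) Φ]

lemma ExtClosed.comap {R : Set T} (hR : ExtClosed R) (hΦ : WeakExact Φ) :
    ExtClosed {x | Φ.obj x ∈ R} where
  zero _ ha := hR.zero _ (Φ.map_isZero ha)
  iso e h := hR.iso (Φ.mapIso e) h
  ext H h1 h2 := by
    obtain ⟨_, H'⟩ := hΦ H
    exact hR.ext H' h1 h2
  coprod J t ht := hR.iso (asIso (sigmaComparison Φ t)) (hR.coprod J _ ht)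

lemma IsLocalizing.comap {R : Set T} (hR : IsLocalizing R) (hΦ : WeakExact Φ) :
    IsLocalizing {x | Φ.obj x ∈ R} where
  triang := IsTriangSub.mk' (fun _ ha => hR.triang.isZero (Φ.map_isZero ha))
    (fun H h1 h2 => by
      obtain ⟨_, H'⟩ := hΦ H
      exact hR.triang.third H' h1 h2)
    (fun H h1 h2 => by
      obtain ⟨_, H'⟩ := hΦ H
      exact hR.triang.first H' h1 h2)
  coprod J t ht := hR.triang.of_iso (asIso (sigmaComparison Φ t)) (hR.coprod J _ ht)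

end WE

lemma isZero_localizing : IsLocalizing {x : T | IsZero x} where
  triang := IsTriangSub.mk' (fun _ h => h)
    (fun H h1 h2 => Triangle.isZero₃_of_isZero₁₂ _ H h1 h2)
    (fun H h1 h2 => Triangle.isZero₁_of_isZero₂₃ _ H h1 h2)
  coprod J t ht := by
    change IsZero (∐ t)
    rw [IsZero.iff_id_eq_zero]
    exact Sigma.hom_ext _ _ fun j => (show IsZero (t j) from ht j).eq_of_src _ _

lemma perp_extClosed (t : T) : ExtClosed {x : T | ∀ f : x ⟶ t, f = 0} where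
  zero _ ha f := ha.eq_of_src _ _
  iso e h f := by simpa using h (e.hom ≫ f)
  ext H h1 h2 p := by
    obtain ⟨q, rfl⟩ := H.desc2 p (h1 _)
    rw [h2 q, comp_zero]
  coprod J s hs f := Sigma.hom_ext _ _ fun j => by rw [hs j (_ ≫ f), comp_zero]

variable [MonoidalCategory T] [SymmetricCategory T] [MonoidalClosed T] [MonoidalPreadditive T]

lemma isZero_tensor_left {a : T} (ha : IsZero a) (b : T) : IsZero (a ⊗ b) :=
  (tensorRight b).map_isZero ha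

lemma isZero_tensor_right (a : T) {b : T} (hb : IsZero b) : IsZero (a ⊗ b) :=
  (tensorLeft a).map_isZero hb

/-- Moving a tensor factor past another one. -/
def swapIso (a b c : T) : a ⊗ b ⊗ c ≅ b ⊗ a ⊗ c :=
  (α_ a b c).symm ≪≫ whiskerRightIso (β_ a b) c ≪≫ α_ b a c

/-- An adjunction between tensor functors, unpacked. -/
structure Dua (x' x : T) where
  un : ∀ a : T, a ⟶ x ⊗ x' ⊗ a
  co : ∀ b : T, x' ⊗ x ⊗ b ⟶ b
  un_nat : ∀ {a a' : T} (f : a ⟶ a'), f ≫ un a' = un a ≫ x ◁ x' ◁ f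
  co_nat : ∀ {b b' : T} (g : b ⟶ b'), x' ◁ x ◁ g ≫ co b' = co b ≫ g
  tri1 : ∀ a : T, x' ◁ un a ≫ co (x' ⊗ a) = 𝟙 _
  tri2 : ∀ b : T, un (x ⊗ b) ≫ x ◁ co b = 𝟙 _

/-- Unpacking an adjunction. -/
def Dua.ofAdj {x' x : T} (adj : tensorLeft x' ⊣ tensorLeft x) : Dua x' x where
  un a := adj.unit.app a
  co b := adj.counit.app b
  un_nat f := adj.unit.naturality f
  co_nat g := adj.counit.naturality g
  tri1 a := adj.left_triangle_components a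
  tri2 b := adj.right_triangle_components b

lemma Dua.eq_right {x' x : T} (d : Dua x' x) {a b : T} (e : a ⟶ x ⊗ b) :
    e = d.un a ≫ x ◁ (x' ◁ e ≫ d.co b) := by
  rw [MonoidalCategory.whiskerLeft_comp, ← Category.assoc, ← d.un_nat, Category.assoc, d.tri2,
    Category.comp_id]

lemma Dua.eq_left {x' x : T} (d : Dua x' x) {a b : T} (f : x' ⊗ a ⟶ b) :
    f = x' ◁ (d.un a ≫ x ◁ f) ≫ d.co b := by
  rw [MonoidalCategory.whiskerLeft_comp, Category.assoc, d.co_nat, ← Category.assoc, d.tri1,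
    Category.id_comp]

/-- The standing assumptions. -/
structure TT {ι : Type v} (S : ι → T) : Prop where
  cpt : IsCptFam S
  exact : ∀ x : T, WeakExact (tensorLeft x)
  rigid : ∀ x : T, IsCompactObj x ↔ IsRigidObj x

variable {ι : Type v} {S : ι → T}

lemma TT.distL (hT : TT S) (x : T) {a b c : T} {f : a ⟶ b} {g : b ⟶ c} {h : c ⟶ a⟦(1 : ℤ)⟧}
    (H : Dist f g h) : ∃ h', Dist (x ◁ f) (x ◁ g) h' := hT.exact x H

lemma TT.distR (hT : TT S) (x : T) {a b c : T} {f : a ⟶ b} {g : b ⟶ c} {h : c ⟶ a⟦(1 : ℤ)⟧}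
    (H : Dist f g h) : ∃ h', Dist (f ▷ x) (g ▷ x) h' := by
  obtain ⟨h', H'⟩ := hT.distL x H
  refine ⟨(β_ c x).hom ≫ h' ≫ (β_ a x).inv⟦(1 : ℤ)⟧',
    H'.congr_iso (β_ a x) (β_ b x) (β_ c x) (by simp) (by simp) ?_⟩
  simp [← Functor.map_comp]

lemma TT.exactR (hT : TT S) (x : T) : WeakExact (tensorRight x) := fun H => hT.distR x H

lemma TT.unit (hT : TT S) : IsCompactObj (𝟙_ T) :=
  (hT.rigid _).2 ⟨𝟙_ T, ⟨inferInstance⟩⟩

lemma TT.dual (hT : TT S) {x : T} (hx : IsCompactObj x) :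
    ∃ x' : T, IsCompactObj x' ∧ Nonempty (Dua x' x) ∧ Nonempty (Dua x x') := by
  obtain ⟨y, ⟨p⟩⟩ := (hT.rigid x).1 hx
  let q : ExactPairing y x := BraidedCategory.exactPairing_swap x y
  exact ⟨y, (hT.rigid y).2 ⟨x, ⟨q⟩⟩, ⟨Dua.ofAdj (tensorLeftAdjunction x y)⟩,
    ⟨Dua.ofAdj (tensorLeftAdjunction y x)⟩⟩

lemma TT.tensor (hT : TT S) {x y : T} (hx : IsCompactObj x) (hy : IsCompactObj y) :
    IsCompactObj (x ⊗ y) := by
  obtain ⟨x', ⟨p⟩⟩ := (hT.rigid x).1 hx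
  obtain ⟨y', ⟨q⟩⟩ := (hT.rigid y).1 hy
  exact (hT.rigid _).2 ⟨y' ⊗ x', ⟨inferInstance⟩⟩

lemma TT.shiftSwap (hT : TT S) (a b : T) :
    Nonempty (a⟦(1 : ℤ)⟧ ⊗ b ≅ a ⊗ b⟦(1 : ℤ)⟧) := by
  obtain ⟨e⟩ := WeakExact.shiftIso (hT.exact a) b
  obtain ⟨e'⟩ := WeakExact.shiftIso (hT.exactR b) a
  exact ⟨e' ≪≫ e.symm⟩

lemma TT.unshiftSwap (hT : TT S) (a b : T) :
    Nonempty (a⟦(-1 : ℤ)⟧ ⊗ b ≅ a ⊗ b⟦(-1 : ℤ)⟧) := by
  obtain ⟨e⟩ := WeakExact.unshiftIso (hT.exact a) b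
  obtain ⟨e'⟩ := WeakExact.unshiftIso (hT.exactR b) a
  exact ⟨e' ≪≫ e.symm⟩

lemma TT.idealCore (hT : TT S) {R : Set T} (hR : ExtClosed R) :
    IsLocalizingIdeal {w : T | ∀ s : T, s ⊗ w ∈ R} where
  loc :=
    { triang :=
        { zero := fun s => hR.zero _ (isZero_tensor_right s (isZero_zero T))
          iso := fun _ _ ⟨e⟩ ha s => hR.iso (whiskerLeftIso s e) (ha s)
          shift := fun a ha s => (hT.shiftSwap s a).elim fun e => hR.iso e (ha _)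
          unshift := fun a ha s => (hT.unshiftSwap s a).elim fun e => hR.iso e (ha _)
          cone := fun D hD h1 h2 s => by
            obtain ⟨_, H⟩ := hT.distL s (dist_of_mem hD).rot
            exact hR.ext H (h2 s) ((hT.shiftSwap s D.obj₁).elim fun e => hR.iso e (h1 _)) }
      coprod := fun J t ht s => (hR.comap (hT.exact s)).coprod J t fun j => ht j s }
  tensor s t ht s' := hR.iso (α_ s' s t) (ht _)

lemma TT.all_of_compact (hT : TT S) {R : Set T} (hR : ExtClosed R) {w : T}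
    (h : ∀ x : T, IsCompactObj x → x ⊗ w ∈ R) (s : T) : s ⊗ w ∈ R :=
  hT.cpt.ext_eq (hR.comap (hT.exactR w)) h s

lemma TT.loc_tensor_zero (hT : TT S) {K : Set T} {w : T} (h : ∀ x ∈ K, IsZero (x ⊗ w)) {e : T}
    (he : e ∈ Loc K) : IsZero (e ⊗ w) :=
  loc_subset (isZero_localizing.comap (hT.exactR w)) h he

/-- A compact object is a retract of its tensor square tensored with its dual. -/
lemma TT.retract_cube (hT : TT S) {x : T} (hx : IsCompactObj x) :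
    ∃ x' : T, IsCompactObj x' ∧ (∃ (i : x ⟶ x' ⊗ x ⊗ x) (r : x' ⊗ x ⊗ x ⟶ x), i ≫ r = 𝟙 x) ∧
      (∃ (i : x' ⟶ (x' ⊗ x') ⊗ x) (r : (x' ⊗ x') ⊗ x ⟶ x'), i ≫ r = 𝟙 x') ∧
      Nonempty (Dua x' x) ∧ Nonempty (Dua x x') := by
  obtain ⟨x', hx', ⟨d⟩, ⟨d'⟩⟩ := hT.dual hx
  refine ⟨x', hx', ?_, ?_, ⟨d⟩, ⟨d'⟩⟩
  · let e : x ⊗ x' ⊗ x ⊗ 𝟙_ T ≅ x' ⊗ x ⊗ x :=
      swapIso _ _ _ ≪≫ whiskerLeftIso x' (whiskerLeftIso x (ρ_ x))
    refine ⟨(ρ_ x).inv ≫ d.un _ ≫ e.hom, e.inv ≫ x ◁ d.co _ ≫ (ρ_ x).hom, ?_⟩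
    simp only [Category.assoc, Iso.hom_inv_id_assoc]
    rw [← Category.assoc (d.un _), d.tri2]; simp
  · let e : x' ⊗ x ⊗ x' ⊗ 𝟙_ T ≅ (x' ⊗ x') ⊗ x :=
      whiskerLeftIso x' (whiskerLeftIso x (ρ_ x') ≪≫ β_ x x') ≪≫ (α_ _ _ _).symm
    refine ⟨(ρ_ x').inv ≫ d'.un _ ≫ e.hom, e.inv ≫ x' ◁ d'.co _ ≫ (ρ_ x').hom, ?_⟩
    simp only [Category.assoc, Iso.hom_inv_id_assoc]
    rw [← Category.assoc (d'.un _), d'.tri2]; simp

lemma uncurry_eq_zero {a b c : T} (f : b ⟶ (ihom a).obj c) :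
    MonoidalClosed.uncurry f = 0 ↔ f = 0 := by
  constructor
  · intro h
    apply MonoidalClosed.uncurry_injective
    rw [h, MonoidalClosed.uncurry_eq]; simp
  · rintro rfl
    rw [MonoidalClosed.uncurry_eq]; simp

lemma isZero_ihom_iff (a t : T) :
    IsZero ((ihom a).obj t) ↔ ∀ (s : T) (f : a ⊗ s ⟶ t), f = 0 := by
  constructor
  · intro h s f
    rw [← MonoidalClosed.uncurry_curry f, uncurry_eq_zero]
    exact h.eq_of_tgt _ _
  · intro h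
    rw [IsZero.iff_id_eq_zero, ← uncurry_eq_zero]
    exact h _ _

/-- Strong pure-injectivity. -/
def SPI (Z : T) : Prop :=
  ∀ (W F : T) (f : W ⊗ F ⟶ Z), (∀ y : T, IsCompactObj y → ∀ r : y ⟶ F, W ◁ r ≫ f = 0) → f = 0

lemma SPI.ihom {Z : T} (hZ : SPI Z) (s : T) : SPI ((ihom s).obj Z) := by
  intro W F f hf
  rw [← uncurry_eq_zero, ← cancel_epi (α_ s W F).hom, comp_zero]
  refine hZ _ _ _ fun y hy r => ?_
  rw [associator_naturality_right_assoc, ← MonoidalClosed.uncurry_natural_left, hf y hy r,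
    (uncurry_eq_zero _).2 rfl, comp_zero]

lemma SPI.pure {Z : T} (hZ : SPI Z) {F : T} (f : F ⟶ Z)
    (hf : ∀ y : T, IsCompactObj y → ∀ r : y ⟶ F, r ≫ f = 0) : f = 0 := by
  rw [← cancel_epi (λ_ F).hom, comp_zero]
  refine hZ _ _ _ fun y hy r => ?_
  rw [leftUnitor_naturality_assoc, hf y hy r, comp_zero]

lemma TT.exists_dual [IsTriangulated T] (hT : TT S) :
    ∃ I : T, SPI I ∧ (∀ (A : T) (f : A ⟶ I), (∀ e : 𝟙_ T ⟶ A, e ≫ f = 0) → f = 0) ∧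
      ∀ (A : T) (e : 𝟙_ T ⟶ A), e ≠ 0 → ∃ f : A ⟶ I, f ≠ 0 := by
  obtain ⟨I, h1, h2⟩ := hT.cpt.gen.exists_dual hT.unit
  refine ⟨I, fun W F f hf => h1 _ f fun e => ?_, h1, h2⟩
  obtain ⟨x, hx, r, e', rfl⟩ := hT.cpt.fac (tensorLeft W) (hT.exact W) hT.unit e
  have := hf x hx r
  change (e' ≫ W ◁ r) ≫ f = 0
  rw [Category.assoc, this, comp_zero]

end Pool.Agent.Lib.MP_320227_al
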