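import Pool.Agent.Lib.MP_320227_al.Defs

set_option autoImplicit false

open CategoryTheory CategoryTheory.Limits CategoryTheory.Pretriangulated
open CategoryTheory.MonoidalCategory

universe v u

namespace Pool.Agent.Lib.MP_320227_al

variable {T : Type u} [Category.{v} T] [MonoidalCategory T]

/-- A weak ring: an object `r` with a map `η : 1 ⟶ r` such that `r ⊗ η : r ⊗ 1 ⟶ r ⊗ r` is a
split monomorphism. -/
def IsWeakRing (r : T) : Prop :=
  ∃ (η : 𝟙_ T ⟶ r) (μ : r ⊗ r ⟶ r ⊗ 𝟙_ T), r ◁ η ≫ μ = 𝟙 _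

variable [Preadditive T] [HasZeroObject T] [HasShift T ℤ]
  [∀ n : ℤ, (shiftFunctor T n).Additive] [Pretriangulated T] [HasCoproducts.{v} T]

/-- A localizing ideal whose only localizing subideals are zero and itself. -/
def IsMinimalIdeal (L : Set T) : Prop :=
  IsLocalizingIdeal L ∧
    ∀ L' : Set T, IsLocalizingIdeal L' → L' ⊆ L → (∀ x ∈ L', IsZero x) ∨ L' = L

end Pool.Agent.Lib.MP_320227_al
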