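import Pool.Agent.Lib.MP_320227_al.Main
import Pool.Agent.Lib.MP_320227_al.WDefs

set_option autoImplicit false
set_option linter.unusedSectionVars false

open CategoryTheory CategoryTheory.Limits CategoryTheory.Pretriangulated
open CategoryTheory.Preadditive CategoryTheory.MonoidalCategory ZeroObject

universe w v u

namespace Pool.Agent.Lib.MP_320227_al

variable {T : Type u} [Category.{v} T] [Preadditive T] [HasZeroObject T] [HasShift T ℤ]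
  [∀ n : ℤ, (shiftFunctor T n).Additive] [Pretriangulated T] [HasCoproducts.{v} T]
  [MonoidalCategory T] [SymmetricCategory T] [MonoidalClosed T] [MonoidalPreadditive T]
  {ι : Type v} {S : ι → T} {C L : Set T}

namespace W72

lemma sub_of_mem (hL : IsMinimalIdeal L) {N : Set T} (hN : IsLocalizingIdeal N) {x : T}
    (hx : x ∈ L) (hxN : x ∈ N) (h0 : ¬ IsZero x) : L ⊆ N := by
  have h1 := hL.1.loc.triang
  have h2 := hN.loc.triang
  have h : IsLocalizingIdeal (L ∩ N) :=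
    { loc :=
        { triang :=
            { zero := ⟨h1.zero, h2.zero⟩
              iso := fun a b e ha => ⟨h1.iso a b e ha.1, h2.iso a b e ha.2⟩
              shift := fun a ha => ⟨h1.shift a ha.1, h2.shift a ha.2⟩
              unshift := fun a ha => ⟨h1.unshift a ha.1, h2.unshift a ha.2⟩
              cone := fun D hD ha hb => ⟨h1.cone D hD ha.1 hb.1, h2.cone D hD ha.2 hb.2⟩ }
          coprod := fun J t ht =>
            ⟨hL.1.loc.coprod J t fun j => (ht j).1, hN.loc.coprod J t fun j => (ht j).2⟩ }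
      tensor := fun s t ht => ⟨hL.1.tensor s t ht.1, hN.tensor s t ht.2⟩ }
  rcases hL.2 _ h Set.inter_subset_left with h3 | h3
  · exact absurd (h3 x ⟨hx, hxN⟩) h0
  · exact fun y hy => (h3.symm ▸ hy : y ∈ L ∩ N).2

lemma coideal_inter {D : Set T} (hC : IsColocalizingCoideal C) (hD : IsColocalizingCoideal D) :
    IsColocalizingCoideal (C ∩ D) where
  triang :=
    { zero := ⟨hC.triang.zero, hD.triang.zero⟩
      iso := fun a b e ha => ⟨hC.triang.iso a b e ha.1, hD.triang.iso a b e ha.2⟩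
      shift := fun a ha => ⟨hC.triang.shift a ha.1, hD.triang.shift a ha.2⟩
      unshift := fun a ha => ⟨hC.triang.unshift a ha.1, hD.triang.unshift a ha.2⟩
      cone := fun E hE ha hb => ⟨hC.triang.cone E hE ha.1 hb.1, hD.triang.cone E hE ha.2 hb.2⟩ }
  prod J t c hc ht := ⟨hC.prod J t c hc fun j => (ht j).1, hD.prod J t c hc fun j => (ht j).2⟩
  hom s t ht := ⟨hC.hom s t ht.1, hD.hom s t ht.2⟩

/-- The right orthogonal of a localizing ideal. -/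
lemma perp_coideal {K : Set T} (hK : IsLocalizingIdeal K) :
    IsColocalizingCoideal {Z : T | ∀ w ∈ K, ∀ f : w ⟶ Z, f = 0} where
  triang := by
    refine IsTriangSub.mk' (fun a ha w _ f => ha.eq_of_tgt _ _) ?_ ?_
    · intro a b c f p h H ha hb w hw q
      obtain ⟨r, hr⟩ := exists_unshift (q ≫ h)
      obtain ⟨r', rfl⟩ := H.lift3 q (by rw [hr, ha _ (hK.loc.triang.unshift w hw) r]; simp)
      rw [hb w hw r', zero_comp]
    · intro a b c f p h H hb hc w hw q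
      obtain ⟨r, hr⟩ := H.lift1 (q⟦(1 : ℤ)⟧') (by
        rw [← Functor.map_comp, hb w hw (q ≫ f), Functor.map_zero])
      exact (shiftFunctor T (1 : ℤ)).map_injective
        (by rw [hr, hc _ (hK.loc.triang.shift w hw) r]; simp)
  prod J t c := by
    rintro ⟨hc⟩ ht w hw f
    refine Fan.IsLimit.hom_ext hc _ _ fun j => ?_
    rw [ht j w hw (f ≫ _), zero_comp]
  hom a t ht w hw f := by
    rw [← uncurry_eq_zero]
    exact ht _ (hK.tensor a w hw) _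

lemma not_perp (hT : TT S) (hL : IsMinimalIdeal L) {s t : T} (hs : s ∈ L) {f : s ⟶ t}
    (hf : f ≠ 0) {x : T} (hx : x ∈ L) (h0 : ¬ IsZero x) :
    ¬ ∀ (a : T) (q : a ⊗ x ⟶ t), q = 0 := fun h => hf (by
  simpa using sub_of_mem hL (hT.perp_ideal t) hx h h0 hs (𝟙_ T) ((λ_ s).hom ≫ f))

theorem local_data [IsTriangulated T] (hT : TT S) (hL : IsMinimalIdeal L) {r : T} (hrL : r ∈ L)
    (hr0 : ¬ IsZero r) (hr : IsWeakRing r) :
    ∃ (E : T) (η : 𝟙_ T ⟶ E), η ≠ 0 ∧ (∃ (e : 𝟙_ T ⟶ r) (ψ : r ⟶ E), η = e ≫ ψ) ∧ SPI E ∧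
      ∀ (s t : T) (f : s ⟶ t), s ∈ L → f ≠ 0 →
        ∃ (s s' : T) (θ : E ⟶ (ihom s).obj ((ihom s').obj t)),
          ∀ y : T, IsCompactObj y → ∀ β : y ⟶ 𝟙_ T, β ≫ η ≫ θ = 0 → β ≫ η = 0 := by
  obtain ⟨e, μ, hμ⟩ := hr
  have idz : ∀ V : T, V ◁ 𝟙 (𝟙_ T) = 0 ↔ IsZero V := fun V => by
    rw [MonoidalCategory.whiskerLeft_id, ← IsZero.iff_id_eq_zero]
    exact ⟨fun h => h.of_iso (ρ_ V).symm, fun h => h.of_iso (ρ_ V)⟩
  obtain ⟨𝓙, h𝓙, h0, hc', hmax⟩ := exists_max_sat (hT.sat_ann r) (c := 𝟙_ T)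
    fun h => hr0 ((idz _).1 (mem_ann.1 h).2.2)
  obtain ⟨J, hJ, hcJ, hJ'⟩ := hT.exists_pi h𝓙 hT.unit hc'
  have hJ0 : ¬ IsZero J := fun h => hcJ (h.of_iso (λ_ J))
  let η : 𝟙_ T ⟶ (ihom J).obj J := MonoidalClosed.curry (ρ_ J).hom
  have hη : J ◁ η ≫ (ihom.ev J).app J = (ρ_ J).hom := by
    rw [← MonoidalClosed.uncurry_eq, MonoidalClosed.uncurry_curry]
  have kill : ∀ {y : T} (β : y ⟶ 𝟙_ T), Arrow.mk β ∈ 𝓙 → β ≫ η = 0 := fun β h4 => by
    rw [← uncurry_eq_zero, MonoidalClosed.uncurry_natural_left, (mem_ann.1 (hJ' h4)).2.2,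
      zero_comp]
  obtain ⟨ψ, hψ⟩ : ∃ ψ : r ⟶ (ihom J).obj J, η = e ≫ ψ := by
    obtain ⟨F, j, l, H⟩ := exists_fib e
    refine H.desc2 η ((hJ.ihom J).pure _ fun y hy q => ?_)
    rw [← Category.assoc]
    refine kill _ (h0 (mem_ann.2 ⟨hy, hT.unit, ?_⟩))
    rw [← Category.comp_id (r ◁ _), ← hμ, ← MonoidalCategory.whiskerLeft_comp_assoc,
      Category.assoc, H.z12]
    simp
  have zJ : ∀ {x : T} (a : 𝟙_ T ⟶ x) (b : x ⟶ (ihom J).obj J), η = a ≫ b → ¬ IsZero (J ⊗ x) :=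
    fun a b hab h => hJ0 (by
      rw [IsZero.iff_id_eq_zero, ← (ρ_ J).inv_hom_id, ← hη, hab,
        MonoidalCategory.whiskerLeft_comp, h.eq_of_tgt (J ◁ a) 0]
      simp)
  refine ⟨(ihom J).obj J, η, fun h => zJ (0 : 𝟙_ T ⟶ (0 : T)) 0 (by simpa using h)
    (isZero_tensor_right J (isZero_zero T)), ⟨e, ψ, hψ⟩, hJ.ihom J, fun s t f hs hf => ?_⟩
  obtain ⟨act, hact⟩ := absorb_ihom η _ hη t
  have h1 : 𝓙 ⊆ Ann ((ihom J).obj t) := fun a ha =>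
    ⟨(hJ' ha).1, (hJ' ha).2.1, hT.ann_ihom_left (hJ' ha).2.1 (hJ' ha).2.2 t⟩
  have h2 : Arrow.mk (𝟙 (𝟙_ T)) ∉ Ann ((ihom J).obj t) := fun h => by
    have h3 := (isZero_ihom_iff _ _).1 ((idz _).1 (mem_ann.1 h).2.2)
    refine not_perp hT hL hs hf (hL.1.tensor J r hrL) (zJ e ψ hψ) fun a q => ?_
    simpa using h3 _ ((swapIso J a r).hom ≫ q)
  have h3 := hmax _ (hT.sat_ann _) h1 h2
  refine ⟨_, J, MonoidalClosed.curry act, fun y hy β hβ => ?_⟩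
  rw [← MonoidalClosed.curry_natural_left, hact, ← MonoidalClosed.curry_natural_left,
    ← uncurry_eq_zero, MonoidalClosed.uncurry_curry] at hβ
  exact kill β (h3 (mem_ann.2 ⟨hy, hT.unit, by simpa using hβ⟩))

lemma null_hocolim (hT : TT S) (hL : IsMinimalIdeal L) {r E : T} (hrL : r ∈ L)
    {e : 𝟙_ T ⟶ r} {ψ : r ⟶ E} (hη : e ≫ ψ ≠ 0)
    {X : ℕ → T} {t : ∀ n, X n ⟶ X (n + 1)} {M : T} {j : ∀ n, X n ⟶ M} (hM : IsHocolim X t M j)
    (ht : ∀ n, Null (e ≫ ψ) (t n)) {s : T} (hs : s ∈ L) : IsZero (s ⊗ M) := by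
  by_contra hn
  have hN := hT.idealCore (null_extClosed (e ≫ ψ))
  have h1 := sub_of_mem hL hN (hL.1.loc.triang.of_iso (β_ M s) (hL.1.tensor M s hs))
    (hN.tensor s M (hT.all_of_compact (null_extClosed (e ≫ ψ)) fun a ha y hy p β hβ => by
      obtain ⟨a', ha', ⟨D⟩, -⟩ := hT.dual ha
      obtain ⟨n, b, hb⟩ := hM.fac _ (hT.tensor ha' hy) (a' ◁ p ≫ D.co M)
      obtain ⟨y', e, hy', h1, h2⟩ := ht n a y ha hy (D.un y ≫ a ◁ b) β hβ
      refine ⟨y', e, hy', ?_, h2⟩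
      rw [D.eq_right p, hb, ← hM.comm, MonoidalCategory.whiskerLeft_comp,
        MonoidalCategory.whiskerLeft_comp]
      simp only [← Category.assoc] at h1 ⊢
      rw [h1, zero_comp])) hn hrL
  obtain ⟨y', q, -, h2, h3⟩ := h1 (𝟙_ T) _ hT.unit (e ≫ (λ_ r).inv) (𝟙 _) (by simpa using hη)
  rw [← Category.assoc, Preadditive.IsIso.comp_right_eq_zero] at h2
  exact h3 (by rw [Category.id_comp, ← Category.assoc, h2, zero_comp])

lemma null_congr (hT : TT S) {E E' : T} {η : 𝟙_ T ⟶ E} {η' : 𝟙_ T ⟶ E'}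
    (h : {q : Σ i, S i ⟶ 𝟙_ T | q.2 ≫ η = 0} = {q | q.2 ≫ η' = 0}) {x V : T} {i : x ⟶ V}
    (hi : Null η i) : Null η' i := by
  have key : ∀ y : T, IsCompactObj y → ∀ β : y ⟶ 𝟙_ T, β ≫ η = 0 ↔ β ≫ η' = 0 := by
    intro y hy β
    obtain ⟨k, ⟨e⟩⟩ := hT.cpt.all y hy
    have h1 : (e.inv ≫ β) ≫ η = 0 ↔ (e.inv ≫ β) ≫ η' = 0 :=
      Set.ext_iff.1 h (⟨k, e.inv ≫ β⟩ : Σ i, S i ⟶ 𝟙_ T)
    simpa using h1
  intro a y ha hy p β hβ
  obtain ⟨y', e, hy', h1, h2⟩ := hi a y ha hy p β fun h0 => hβ ((key y hy β).1 h0)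
  refine ⟨y', e, hy', h1, fun h0 => h2 ?_⟩
  rw [← Category.assoc] at h0 ⊢
  exact (key y' hy' _).2 h0

variable {A : Type w} {L : A → Set T}

theorem cog_zero [IsTriangulated T] (hT : TT S) (hL : ∀ a, IsMinimalIdeal (L a))
    (hr : ∀ a, ∃ r ∈ L a, ¬ IsZero r ∧ IsWeakRing r) (hC : IsColocalizingCoideal C)
    (hne : ∀ a, ∃ s ∈ L a, ∃ t ∈ C, ∃ f : s ⟶ t, f ≠ 0) {Z : T}
    (hZ : ∀ w : T, (∀ a, ∀ s ∈ L a, IsZero (s ⊗ w)) → ∀ f : w ⟶ Z, f = 0) {x : T} {f : x ⟶ Z}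
    (hf : Cog C f) : f = 0 := by
  choose r hrL hr0 hr using hr
  choose E η hη hfac hE hθ using fun a => local_data hT (hL a) (hrL a) (hr0 a) (hr a)
  have h1 : ∀ V : T, ∃ c ∈ C, ∃ φ : V ⟶ c, ∀ (x : T) (i : x ⟶ V), i ≫ φ = 0 →
      ∀ a, Null (η a) i := by
    intro V
    have : ∀ a, ∃ c ∈ C, ∃ φ : V ⟶ c, ∀ (x : T) (i : x ⟶ V), i ≫ φ = 0 → Null (η a) i := by
      intro a
      obtain ⟨s, hs, t, ht, f, hf⟩ := hne a
      obtain ⟨s, s', θ, h⟩ := hθ a s t f hs hf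
      exact hT.exists_detect hC (hE a) (hC.hom _ _ (hC.hom _ _ ht)) θ h V
    choose d hd φ hφ using this
    let k : A → Set (Σ i, S i ⟶ 𝟙_ T) := fun a => {q | q.2 ≫ η a = 0}
    obtain ⟨c', hc', Φ, hΦ⟩ := hT.joint hC (J := Set.range k) (fun b => d b.2.choose)
      (fun b => hd _) fun b => φ _
    exact ⟨c', hc', Φ, fun x i hi a => null_congr hT (Set.mem_range_self (f := k) a).choose_spec
      (hφ _ x i (hΦ x i hi ⟨k a, a, rfl⟩))⟩
  have step : ∀ s : Σ x : T, {f : x ⟶ Z // Cog C f},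
      ∃ (s' : Σ x : T, {f : x ⟶ Z // Cog C f}) (j : s.1 ⟶ s'.1),
        (∀ a, Null (η a) j) ∧ j ≫ s'.2.1 = s.2.1 := by
    rintro ⟨x, f, hf⟩
    obtain ⟨x', j, f', h3, h4, h5⟩ := hT.pigeonhole hC (fun x V i => ∀ a, Null (η a) i) h1
      (fun x V V' i j hi hj a => (hi a).of_ker hT hj) hf
    exact ⟨⟨x', f', h5⟩, j, h3, h4⟩
  obtain ⟨s, t, hs0, hst⟩ := exists_seq (St := Σ x : T, {f : x ⟶ Z // Cog C f})
    (fun s => s.1) _ step ⟨x, f, hf⟩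
  obtain ⟨M, j, hM⟩ := exists_hocolim (fun n => (s n).1) t
  obtain ⟨ζ, hζ⟩ := hM.lift (Cohom.hom Z) (fun n => (s n).2.1) fun n => (hst n).2
  have h0 : (show M ⟶ Z from ζ) = 0 := hZ M (fun a b hb => by
    obtain ⟨e, ψ, h⟩ := hfac a
    exact null_hocolim hT (hL a) (hrL a) (h ▸ hη a) hM (fun n => h ▸ (hst n).1 a) hb) _
  have h2 : (s 0).2.1 = 0 := by
    rw [← hζ 0, Cohom.hom_map]
    change j 0 ≫ (show M ⟶ Z from ζ) = 0
    rw [h0, comp_zero]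
  rw [hs0] at h2
  exact h2

lemma acyclic_ideal (hT : TT S) (L : A → Set T) :
    IsLocalizingIdeal {w : T | ∀ a, ∀ s ∈ L a, IsZero (s ⊗ w)} :=
  have hz := fun s => isZero_localizing.comap (hT.exact s)
  { loc :=
      { triang :=
          { zero := fun _ s _ => (hz s).triang.zero
            iso := fun x y e h a s hs => (hz s).triang.iso x y e (h a s hs)
            shift := fun x h a s hs => (hz s).triang.shift x (h a s hs)
            unshift := fun x h a s hs => (hz s).triang.unshift x (h a s hs)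
            cone := fun D hD h h' a s hs => (hz s).triang.cone D hD (h a s hs) (h' a s hs) }
        coprod := fun J t ht a s hs => (hz s).coprod J t fun j => ht j a s hs }
    tensor := fun x w h a s hs => (isZero_tensor_right x (h a s hs)).of_iso (swapIso s x w) }

lemma sees_inter (hT : TT S) (hL : ∀ a, IsMinimalIdeal (L a))
    (hr : ∀ a, ∃ r ∈ L a, ¬ IsZero r ∧ IsWeakRing r)
    (hC : ∀ s : T, ∀ t ∈ C, (ihom s).obj t ∈ C)
    (hne : ∀ a, ∃ s ∈ L a, ∃ t ∈ C, ∃ f : s ⟶ t, f ≠ 0) (a : A) :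
    ∃ s ∈ L a, ∃ t ∈ C ∩ {Z : T | ∀ w : T, (∀ a, ∀ s ∈ L a, IsZero (s ⊗ w)) →
      ∀ f : w ⟶ Z, f = 0}, ∃ f : s ⟶ t, f ≠ 0 := by
  obtain ⟨s, hs, t, ht, f, hf⟩ := hne a
  obtain ⟨r, hrL, hr0, e, μ, hμ⟩ := hr a
  have h1 := not_perp hT (hL a) hs hf ((hL a).1.tensor r r hrL) fun h => hr0
    (IsZero.of_iso (by rw [IsZero.iff_id_eq_zero, ← hμ, h.eq_of_src μ 0, comp_zero])
      (ρ_ r).symm)
  push Not at h1
  obtain ⟨b, q, hq⟩ := h1
  refine ⟨b ⊗ r, (hL a).1.tensor b r hrL, (ihom r).obj t, ⟨hC _ _ ht, fun w hw p => ?_⟩,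
    MonoidalClosed.curry ((swapIso r b r).hom ≫ q), fun h => hq ?_⟩
  · rw [← uncurry_eq_zero]
    exact (hw a r hrL).eq_of_src _ _
  · rw [← uncurry_eq_zero, MonoidalClosed.uncurry_curry] at h
    simpa using h

theorem isLeast [IsTriangulated T] (hT : TT S) (hL : ∀ a, IsMinimalIdeal (L a))
    (hr : ∀ a, ∃ r ∈ L a, ¬ IsZero r ∧ IsWeakRing r) :
    IsLeast {C : Set T | IsColocalizingCoideal C ∧
        ∀ a, ∃ s ∈ L a, ∃ t ∈ C, ∃ f : s ⟶ t, f ≠ 0}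
      {Z : T | ∀ w : T, (∀ a, ∀ s ∈ L a, IsZero (s ⊗ w)) → ∀ f : w ⟶ Z, f = 0} := by
  have hD : IsColocalizingCoideal
      {Z : T | ∀ w : T, (∀ a, ∀ s ∈ L a, IsZero (s ⊗ w)) → ∀ f : w ⟶ Z, f = 0} :=
    perp_coideal (acyclic_ideal hT L)
  refine ⟨⟨hD, fun a => ?_⟩, ?_⟩
  · obtain ⟨s, hs, t, ht, h⟩ := sees_inter (C := Set.univ) hT hL hr (fun _ _ _ => trivial)
      (fun a => by
        obtain ⟨r, hrL, hr0, -⟩ := hr a
        exact ⟨r, hrL, r, trivial, 𝟙 r, fun h => hr0 ((IsZero.iff_id_eq_zero r).2 h)⟩) a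
    exact ⟨s, hs, t, ht.2, h⟩
  rintro C ⟨hC, hne⟩ Z hZ
  have hC' := coideal_inter hC hD
  have hne' := sees_inter hT hL hr hC.hom hne
  refine (hT.cpt.tower hC'.triang hC'.prod hD.triang Set.inter_subset_right ?_ hZ).1
  intro Z hZ
  have := fun q : Σ i, {p : S i ⟶ Z // p ≠ 0} => mt (cog_zero hT hL hr hC' hne' hZ) q.2.2
  simp only [Cog, not_forall] at this
  choose c hc φ hφ using this
  obtain ⟨c', hc', Φ, hΦ⟩ := hT.joint hC' c hc φ
  refine ⟨c', hc', Φ, fun x hx p hp => ?_⟩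
  by_contra hn
  obtain ⟨i, ⟨e⟩⟩ := hT.cpt.all x hx
  exact hφ ⟨i, e.inv ≫ p, by simpa using hn⟩
    (hΦ _ _ (by rw [Category.assoc, hp, comp_zero]) _)

end W72

theorem local_objects [IsTriangulated T] [∀ X : T, (tensorLeft X).CommShift ℤ]
    [∀ X : T, (tensorLeft X).IsTriangulated] (hT : IsRigidlyCompactlyGenerated T)
    {A : Type w} (L : A → Set T) (hL : ∀ a, IsMinimalIdeal (L a))
    (hr : ∀ a, ∃ r ∈ L a, ¬ IsZero r ∧ IsWeakRing r) :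
    IsLeast {C : Set T | IsColocalizingCoideal C ∧
        ∀ a, ∃ s ∈ L a, ∃ t ∈ C, ∃ f : s ⟶ t, f ≠ 0}
      {Z : T | ∀ w : T, (∀ a, ∀ s ∈ L a, IsZero (s ⊗ w)) → ∀ f : w ⟶ Z, f = 0} := by
  obtain ⟨ι, S, hS⟩ := exists_cptFam hT.gen
  have h : TT S := ⟨hS, fun x => fun H => ⟨_, (tensorLeft x).map_distinguished _ H⟩, hT.rigid⟩
  exact W72.isLeast h hL hr

end Pool.Agent.Lib.MP_320227_al
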